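import Pool.Agent.Lib_helper70.Berry.Orth

/-!
# Atoms of spectral measures
-/

set_option linter.unusedSectionVars false

open MeasureTheory Set Filter Topology ProbabilityTheory
open scoped ENNReal RealInnerProductSpace ComplexConjugate

namespace Pool.Agent.Lib_helper70.Berry

variable {E : Type*} [NormedAddCommGroup E] [InnerProductSpace ℝ E] [FiniteDimensional ℝ E]
  [MeasurableSpace E] [BorelSpace E]
variable {H : Type*} [NormedAddCommGroup H] [InnerProductSpace ℂ H] [CompleteSpace H]

/-- modulated process -/
noncomputable def modp (v : E → H) (k x : E) : H := Complex.exp ((⟪-k, x⟫ : ℝ) * Complex.I) • v x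

lemma Stat.modp {v : E → H} (h : Stat v) (k : E) : Stat (modp v k) := by
  refine ⟨?_, fun x y z => ?_⟩
  · have := h.cont
    unfold Berry.modp
    fun_prop
  · unfold Berry.modp
    rw [inner_smul_left, inner_smul_right, inner_smul_left, inner_smul_right, h.inv x y z,
      ← mul_assoc, ← mul_assoc]
    congr 1
    rw [← Complex.exp_conj, ← Complex.exp_conj, ← Complex.exp_add, ← Complex.exp_add]
    congr 1
    simp only [map_mul, Complex.conj_ofReal, Complex.conj_I]
    rw [inner_add_right, inner_add_right]
    push_cast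
    ring

lemma spectral_modp {v : E → H} {μ : Measure E} [IsFiniteMeasure μ]
    (hμ : ∀ x, charFun μ x = Kv v x) (k : E) :
    ∀ x, charFun (μ.map (· + (-k))) x = Kv (modp v k) x := by
  intro x
  rw [charFun_map_add_const, hμ]
  unfold Kv modp
  rw [inner_zero_right, inner_smul_left, inner_smul_right]
  simp
  ring

/-- the process has no eigen-component -/
def AtomFree (v : E → H) : Prop :=
  ∀ k : E, Tendsto (fun n : ℕ => ∫ x, modp v k x ∂(gms (n : ℝ))) atTop (𝓝 0)

lemma norm_sq_avg_modp {v : E → H} (h : Stat v) {μ : Measure E} [IsFiniteMeasure μ]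
    (hμ : ∀ x, charFun μ x = Kv v x) (k : E) {s : ℝ} (hs : 0 ≤ s) :
    ‖∫ x, modp v k x ∂(gms s)‖ ^ 2 = ∫ q, Real.exp (-(2 * s) * ‖q - k‖ ^ 2) ∂μ := by
  have hf : IsFiniteMeasure (μ.map (· + (-k))) := Measure.isFiniteMeasure_map μ _
  have := norm_sq_avg_sub (h.modp k) (spectral_modp hμ k) (gms s) 0
  rw [integral_zero_measure, sub_zero] at this
  rw [this, integral_map (by fun_prop)]
  · refine integral_congr_ae (Filter.Eventually.of_forall fun q => ?_)
    simp only
    rw [charFun_zero_measure, sub_zero, charFun_gms hs, Complex.norm_exp, ← Real.exp_nat_mul,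
      ← sub_eq_add_neg]
    congr 1
    simp [← Complex.ofReal_pow]
    ring
  · have h1 : Continuous (charFun (gms s : Measure E)) := continuous_charFun
    have h2 : Continuous (charFun (0 : Measure E)) := continuous_charFun
    have : Continuous (fun k : E => ‖charFun (gms s : Measure E) k - charFun (0 : Measure E) k‖ ^ 2) := by
      fun_prop
    exact this.aestronglyMeasurable

lemma tendsto_avg_modp {v : E → H} (h : Stat v) {μ : Measure E} [IsFiniteMeasure μ]
    (hμ : ∀ x, charFun μ x = Kv v x) (k : E) :
    Tendsto (fun n : ℕ => ‖∫ x, modp v k x ∂(gms (n : ℝ))‖ ^ 2) atTop (𝓝 (μ.real {k})) := by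
  have e : ∀ n : ℕ, ‖∫ x, modp v k x ∂(gms (n : ℝ))‖ ^ 2 =
      ∫ q, Real.exp (-(2 * (n : ℝ)) * ‖q - k‖ ^ 2) ∂μ :=
    fun n => norm_sq_avg_modp h hμ k (Nat.cast_nonneg n)
  simp only [e]
  have e2 : μ.real {k} = ∫ q, ({k} : Set E).indicator (fun _ => (1 : ℝ)) q ∂μ := by
    rw [integral_indicator (measurableSet_singleton k), integral_const]
    simp [Measure.real]
  rw [e2]
  refine tendsto_integral_of_dominated_convergence (fun _ => (1 : ℝ)) ?_ (integrable_const _)
      ?_ ?_
  · intro n
    exact (by fun_prop : Continuous fun q : E =>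
      Real.exp (-(2 * (n : ℝ)) * ‖q - k‖ ^ 2)).aestronglyMeasurable
  · intro n
    refine Filter.Eventually.of_forall fun q => ?_
    rw [Real.norm_of_nonneg (by positivity)]
    apply Real.exp_le_one_iff.2
    have : 0 ≤ 2 * (n : ℝ) * ‖q - k‖ ^ 2 := by positivity
    linarith
  · refine Filter.Eventually.of_forall fun q => ?_
    by_cases hq : q = k
    · subst hq
      simp
    · have hpos : 0 < 2 * ‖q - k‖ ^ 2 := by
        have : 0 < ‖q - k‖ := norm_pos_iff.2 (sub_ne_zero.2 hq)
        positivity
      rw [Set.indicator_of_notMem (by simpa using hq)]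
      have h1 : Tendsto (fun n : ℕ => (n : ℝ) * (2 * ‖q - k‖ ^ 2)) atTop atTop :=
        tendsto_natCast_atTop_atTop.atTop_mul_const hpos
      have h2 := Real.tendsto_exp_neg_atTop_nhds_zero.comp h1
      refine h2.congr fun n => ?_
      simp only [Function.comp]
      congr 1
      ring

lemma atomFree_iff {v : E → H} (h : Stat v) {μ : Measure E} [IsFiniteMeasure μ]
    (hμ : ∀ x, charFun μ x = Kv v x) : AtomFree v ↔ NullSingletonClass μ := by
  constructor
  · intro ha
    constructor
    intro k
    have h1 := tendsto_avg_modp h hμ k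
    have h2 : Tendsto (fun n : ℕ => ‖∫ x, modp v k x ∂(gms (n : ℝ))‖ ^ 2) atTop (𝓝 0) := by
      have := ((ha k).norm).pow 2
      simpa using this
    have h3 := tendsto_nhds_unique h1 h2
    exact (measureReal_eq_zero_iff).1 h3
  · intro hn k
    have h1 := tendsto_avg_modp h hμ k
    have h0 : μ.real {k} = 0 := by
      rw [measureReal_eq_zero_iff]; exact measure_singleton k
    rw [h0] at h1
    rw [tendsto_zero_iff_norm_tendsto_zero]
    have h2 := (Real.continuous_sqrt.tendsto 0).comp h1
    simp only [Real.sqrt_zero] at h2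
    refine h2.congr fun n => ?_
    simp only [Function.comp]
    rw [Real.sqrt_sq (norm_nonneg _)]

lemma AtomFree.add {v w : E → H} (hv : Stat v) (hw : Stat w) (h : AtomFree v) (h' : AtomFree w) :
    AtomFree (fun x => v x + w x) := by
  intro k
  have := (h k).add (h' k)
  rw [add_zero] at this
  refine this.congr fun n => ?_
  rw [← integral_add ((hv.modp k).integrable _) ((hw.modp k).integrable _)]
  refine integral_congr_ae (Filter.Eventually.of_forall fun x => ?_)
  simp only [modp, smul_add]

lemma AtomFree.smul {v : E → H} (c : ℂ) (h : AtomFree v) :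
    AtomFree (fun x => c • v x) := by
  intro k
  have := (h k).const_smul c
  rw [smul_zero] at this
  refine this.congr fun n => ?_
  rw [← integral_smul]
  refine integral_congr_ae (Filter.Eventually.of_forall fun x => ?_)
  simp only [modp]
  rw [smul_comm]

lemma atomFree_zero : AtomFree (fun _ : E => (0 : H)) := by
  intro k
  simp [modp]

lemma AtomFree.sum {ι : Type*} (s : Finset ι) {v : ι → E → H} (hv : ∀ i ∈ s, Stat (v i))
    (h : ∀ i ∈ s, AtomFree (v i)) :
    AtomFree (fun x => ∑ i ∈ s, v i x) := by
  intro k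
  have h1 : Tendsto (fun n : ℕ => ∑ i ∈ s, ∫ x, modp (v i) k x ∂(gms (n : ℝ))) atTop
      (𝓝 (∑ i ∈ s, (0 : H))) := tendsto_finsetSum _ fun i hi => h i hi k
  rw [Finset.sum_const_zero] at h1
  refine h1.congr fun n => ?_
  rw [← integral_finsetSum _ (fun i hi => ((hv i hi).modp k).integrable _)]
  refine integral_congr_ae (Filter.Eventually.of_forall fun x => ?_)
  simp only [modp, Finset.smul_sum]

lemma Stat.shift {v : E → H} (h : Stat v) (a : E) : Stat (fun x => v (x + a)) := by
  refine ⟨h.cont.comp (by fun_prop), fun x y z => ?_⟩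
  rw [add_right_comm x z a, add_right_comm y z a]
  exact h.inv _ _ _

lemma Kv_shift {v : E → H} (h : Stat v) (a x : E) : Kv (fun x => v (x + a)) x = Kv v x := by
  unfold Kv
  exact h.inv 0 x a

lemma AtomFree.shift {v : E → H} (hv : Stat v) (h : AtomFree v) (a : E) :
    AtomFree (fun x => v (x + a)) := by
  obtain ⟨μ, hf, hμ⟩ := exists_spectral hv
  have h1 := (atomFree_iff hv hμ).1 h
  exact (atomFree_iff (hv.shift a) (fun x => (hμ x).trans (Kv_shift hv a x).symm)).2 h1

/-! ### Averages over balls -/

/-- the normalised Fourier transform of a ball -/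
noncomputable def ballFT (R : ℝ) (k : E) : ℂ :=
  ⨍ x in Metric.ball (0 : E) R, Complex.exp ((⟪k, x⟫ : ℝ) * Complex.I)

lemma integrableOn_ball_exp (R : ℝ) (k : E) :
    IntegrableOn (fun x : E => Complex.exp ((⟪k, x⟫ : ℝ) * Complex.I)) (Metric.ball 0 R) := by
  have hfin : IsFiniteMeasure (volume.restrict (Metric.ball (0 : E) R)) :=
    ⟨by rw [Measure.restrict_apply_univ]; exact measure_ball_lt_top⟩
  refine Integrable.mono' (integrable_const (1 : ℝ)) ?_ ?_
  · exact (by fun_prop : Continuous fun x : E => Complex.exp ((⟪k, x⟫ : ℝ) *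
        Complex.I)).aestronglyMeasurable
  · exact Filter.Eventually.of_forall fun x => (Complex.norm_exp_ofReal_mul_I _).le

lemma norm_setAverage_le_one {f : E → ℂ} (R : ℝ) (hf : ∀ x, ‖f x‖ ≤ 1) :
    ‖⨍ x in Metric.ball (0 : E) R, f x‖ ≤ 1 := by
  rw [setAverage_eq, norm_smul, norm_inv, Real.norm_of_nonneg measureReal_nonneg]
  have h1 : ‖∫ x in Metric.ball (0 : E) R, f x‖ ≤ 1 * volume.real (Metric.ball (0 : E) R) := by
    refine norm_setIntegral_le_of_norm_le_const measure_ball_lt_top (fun _x _ => hf _)
  rw [one_mul] at h1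
  rcases (measureReal_nonneg : 0 ≤ volume.real (Metric.ball (0 : E) R)).eq_or_lt with h0 | h0
  · rw [← h0, inv_zero, zero_mul]; exact zero_le_one
  · calc (volume.real (Metric.ball (0 : E) R))⁻¹ * ‖∫ x in Metric.ball (0 : E) R, f x‖
        ≤ (volume.real (Metric.ball (0 : E) R))⁻¹ * volume.real (Metric.ball (0 : E) R) := by
          gcongr
      _ = 1 := inv_mul_cancel₀ h0.ne'

lemma norm_ballFT_le (R : ℝ) (k : E) : ‖ballFT R k‖ ≤ 1 :=
  norm_setAverage_le_one R fun x => (Complex.norm_exp_ofReal_mul_I _).le

lemma volume_ball_real [Nontrivial E] {R : ℝ} (hR : 0 ≤ R) :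
    volume.real (Metric.ball (0 : E) R) =
      R ^ Module.finrank ℝ E * volume.real (Metric.ball (0 : E) 1) := by
  unfold Measure.real
  rw [Measure.addHaar_ball _ _ hR, ENNReal.toReal_mul, ENNReal.toReal_ofReal (by positivity)]

lemma volume_ball_one_pos : 0 < volume.real (Metric.ball (0 : E) 1) :=
  ENNReal.toReal_pos (Metric.measure_ball_pos _ _ one_pos).ne' measure_ball_lt_top.ne

lemma tendsto_ballFT {k : E} (hk : k ≠ 0) :
    Tendsto (fun n : ℕ => ballFT (n : ℝ) k) atTop (𝓝 0) := by
  set f : E → ℂ := fun x => Complex.exp ((⟪k, x⟫ : ℝ) * Complex.I) with hf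
  set h : E := (Real.pi / ‖k‖ ^ 2) • k with hh
  set a : ℝ := ‖h‖ with ha
  set d := Module.finrank ℝ E with hd
  set c := volume.real (Metric.ball (0 : E) 1) with hc
  have hcpos : 0 < c := volume_ball_one_pos
  have hnt : Nontrivial E := ⟨k, 0, hk⟩
  have hk2 : 0 < ‖k‖ ^ 2 := by positivity
  have hinner : ⟪k, h⟫ = Real.pi := by
    rw [hh, inner_smul_right, real_inner_self_eq_norm_sq]
    field_simp
  have hfh : ∀ x, f (x + h) = - f x := by
    intro x
    simp only [hf]
    rw [inner_add_right, hinner]
    push_cast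
    rw [add_mul, Complex.exp_add, Complex.exp_pi_mul_I]
    ring
  have ha0 : 0 ≤ a := norm_nonneg _
  have key : ∀ R : ℝ, a ≤ R → 0 < R → ‖ballFT R k‖ ≤
      ((1 + a / R) ^ d - (1 - a / R) ^ d) / 2 := by
    intro R hR hR0
    have hRa : 0 ≤ R - a := by linarith
    have hRa' : 0 ≤ R + a := by linarith
    -- rewrite as indicator
    have e1 : ∫ x in Metric.ball (0 : E) R, f x =
        ∫ x, (Metric.ball (0 : E) R).indicator f x := (integral_indicator
          Metric.isOpen_ball.measurableSet).symm
    have hi : Integrable ((Metric.ball (0 : E) R).indicator f) :=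
      (integrable_indicator_iff Metric.isOpen_ball.measurableSet).2 (integrableOn_ball_exp R k)
    have e2 : ∫ x, (Metric.ball (0 : E) R).indicator f (x + h) =
        ∫ x, (Metric.ball (0 : E) R).indicator f x := integral_add_right_eq_self _ h
    have hi2 : Integrable (fun x => (Metric.ball (0 : E) R).indicator f (x + h)) :=
      hi.comp_add_right h
    have e3 : (2 : ℂ) * ∫ x in Metric.ball (0 : E) R, f x =
        ∫ x, ((Metric.ball (0 : E) R).indicator f x +
          (Metric.ball (0 : E) R).indicator f (x + h)) := by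
      rw [integral_add hi hi2, e2, e1]; ring
    have hbd : ∀ x, ‖(Metric.ball (0 : E) R).indicator f x +
          (Metric.ball (0 : E) R).indicator f (x + h)‖ ≤
        (Metric.ball (0 : E) (R + a) \ Metric.ball (0 : E) (R - a)).indicator
          (fun _ => (1 : ℝ)) x := by
      intro x
      have hn : ∀ x, ‖f x‖ = 1 := fun x => Complex.norm_exp_ofReal_mul_I _
      have t1 : ‖x‖ ≤ ‖x + h‖ + a := by
        calc ‖x‖ = ‖(x + h) - h‖ := by rw [add_sub_cancel_right]
          _ ≤ _ := norm_sub_le _ _
      have t2 : ‖x + h‖ ≤ ‖x‖ + a := norm_add_le _ _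
      by_cases h1 : x ∈ Metric.ball (0 : E) R <;> by_cases h2 : x + h ∈ Metric.ball (0 : E) R
      · rw [Set.indicator_of_mem h1, Set.indicator_of_mem h2, hfh, add_neg_cancel, norm_zero]
        exact Set.indicator_nonneg (fun _ _ => zero_le_one) _
      · rw [Set.indicator_of_mem h1, Set.indicator_of_notMem h2, add_zero, hn,
          Set.indicator_of_mem]
        rw [mem_ball_zero_iff] at h1 h2
        refine ⟨by rw [mem_ball_zero_iff]; linarith, by rw [mem_ball_zero_iff]; linarith⟩
      · rw [Set.indicator_of_notMem h1, Set.indicator_of_mem h2, zero_add, hn,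
          Set.indicator_of_mem]
        rw [mem_ball_zero_iff] at h1 h2
        refine ⟨by rw [mem_ball_zero_iff]; linarith, by rw [mem_ball_zero_iff]; linarith⟩
      · rw [Set.indicator_of_notMem h1, Set.indicator_of_notMem h2, add_zero, norm_zero]
        exact Set.indicator_nonneg (fun _ _ => zero_le_one) _
    have hsub : Metric.ball (0 : E) (R - a) ⊆ Metric.ball (0 : E) (R + a) :=
      Metric.ball_subset_ball (by linarith)
    have e4 : ∫ x, (Metric.ball (0 : E) (R + a) \ Metric.ball (0 : E) (R - a)).indicator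
          (fun _ => (1 : ℝ)) x = (R + a) ^ d * c - (R - a) ^ d * c := by
      rw [integral_indicator (Metric.isOpen_ball.measurableSet.diff
        Metric.isOpen_ball.measurableSet), setIntegral_const, smul_eq_mul, mul_one,
        measureReal_sdiff hsub Metric.isOpen_ball.measurableSet, volume_ball_real hRa',
        volume_ball_real hRa]
    have e5 : ‖(2 : ℂ) * ∫ x in Metric.ball (0 : E) R, f x‖ ≤
        (R + a) ^ d * c - (R - a) ^ d * c := by
      rw [e3, ← e4]
      refine norm_integral_le_of_norm_le ?_ (Filter.Eventually.of_forall hbd)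
      refine (integrable_indicator_iff (Metric.isOpen_ball.measurableSet.diff
        Metric.isOpen_ball.measurableSet)).2 ?_
      exact integrableOn_const (measure_ne_top_of_subset Set.sdiff_subset
        measure_ball_lt_top.ne)
    rw [norm_mul] at e5
    simp only [Complex.norm_ofNat] at e5
    rw [ballFT, setAverage_eq, norm_smul, norm_inv, Real.norm_of_nonneg measureReal_nonneg,
      volume_ball_real hR0.le]
    have hRd : 0 < R ^ d * c := by positivity
    rw [inv_mul_le_iff₀ hRd]
    have e6 : R ^ d * c * (((1 + a / R) ^ d - (1 - a / R) ^ d) / 2) =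
        ((R + a) ^ d * c - (R - a) ^ d * c) / 2 := by
      have r1 : R + a = R * (1 + a / R) := by field_simp
      have r2 : R - a = R * (1 - a / R) := by field_simp
      rw [r1, r2, mul_pow, mul_pow]
      ring
    rw [e6]
    linarith
  rw [tendsto_zero_iff_norm_tendsto_zero]
  have hlim : Tendsto (fun n : ℕ => ((1 + a / (n : ℝ)) ^ d - (1 - a / (n : ℝ)) ^ d) / 2) atTop
      (𝓝 0) := by
    have h1 : Tendsto (fun n : ℕ => a / (n : ℝ)) atTop (𝓝 0) :=
      tendsto_const_div_atTop_nhds_zero_nat a
    have h2 : Continuous fun r : ℝ => ((1 + r) ^ d - (1 - r) ^ d) / 2 := by fun_prop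
    have := (h2.tendsto 0).comp h1
    simpa [Function.comp_def] using this
  refine squeeze_zero' (Filter.Eventually.of_forall fun n => norm_nonneg _) ?_ hlim
  filter_upwards [eventually_gt_atTop ⌈a⌉₊] with n hn
  have hn1 : a < n := Nat.lt_of_ceil_lt hn
  exact key n hn1.le (ha0.trans_lt hn1)

/-- A finite measure whose characteristic function tends to zero in quadratic mean over balls has
no atoms. -/
theorem nullSingleton_of_avg (μ : Measure E) [IsFiniteMeasure μ]
    (h : Tendsto (fun R : ℝ => ⨍ x in Metric.ball (0 : E) R, ‖charFun μ x‖ ^ 2) atTop (𝓝 0)) :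
    NullSingletonClass μ := by
  constructor
  intro k0
  have hcont : Continuous (charFun μ) := continuous_charFun
  -- the averages of the modulated characteristic function
  have e1 : ∀ n : ℕ, ⨍ x in Metric.ball (0 : E) (n : ℝ), Complex.exp ((⟪-k0, x⟫ : ℝ) * Complex.I) *
      charFun μ x = ∫ k, ballFT (n : ℝ) (k - k0) ∂μ := by
    intro n
    rw [setAverage_eq]
    have e2 : ∀ x, Complex.exp ((⟪-k0, x⟫ : ℝ) * Complex.I) * charFun μ x =
        ∫ k, Complex.exp ((⟪k - k0, x⟫ : ℝ) * Complex.I) ∂μ := by
      intro x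
      rw [charFun_apply, ← integral_const_mul]
      refine integral_congr_ae (Filter.Eventually.of_forall fun k => ?_)
      simp only
      rw [← Complex.exp_add]
      congr 1
      rw [inner_sub_left, inner_neg_left]
      push_cast
      ring
    simp only [e2]
    rw [integral_integral_swap]
    · rw [← integral_smul]
      refine integral_congr_ae (Filter.Eventually.of_forall fun k => ?_)
      simp only
      rw [ballFT, setAverage_eq]
    · have hfin : IsFiniteMeasure (volume.restrict (Metric.ball (0 : E) (n : ℝ))) :=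
        ⟨by rw [Measure.restrict_apply_univ]; exact measure_ball_lt_top⟩
      refine Integrable.mono' (integrable_const (1 : ℝ)) ?_ ?_
      · have : Continuous (Function.uncurry fun (x k : E) =>
          Complex.exp ((⟪k - k0, x⟫ : ℝ) * Complex.I)) := by
          simp only [Function.uncurry_def]
          fun_prop
        exact this.aestronglyMeasurable
      · refine Filter.Eventually.of_forall fun q => ?_
        simp only [Function.uncurry]
        exact (Complex.norm_exp_ofReal_mul_I _).le
  have lim1 : Tendsto (fun n : ℕ => ∫ k, ballFT (n : ℝ) (k - k0) ∂μ) atTop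
      (𝓝 ((μ.real {k0} : ℝ) : ℂ)) := by
    have e2 : ((μ.real {k0} : ℝ) : ℂ) = ∫ q, ({k0} : Set E).indicator (fun _ => (1 : ℂ)) q ∂μ := by
      rw [integral_indicator (measurableSet_singleton k0), integral_const]
      simp [Measure.real]
    rw [e2]
    refine tendsto_integral_of_dominated_convergence (fun _ => (1 : ℝ)) ?_ (integrable_const _)
      ?_ ?_
    · intro n
      have hm : Measurable (fun k : E => ballFT (n : ℝ) k) := by
        unfold ballFT
        simp only [setAverage_eq]
        refine Measurable.const_smul ?_ _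
        refine StronglyMeasurable.measurable ?_
        refine StronglyMeasurable.integral_prod_right' (f := fun p : E × E =>
          Complex.exp ((⟪p.1, p.2⟫ : ℝ) * Complex.I)) ?_
        exact (by fun_prop : Continuous fun p : E × E =>
          Complex.exp ((⟪p.1, p.2⟫ : ℝ) * Complex.I)).stronglyMeasurable
      exact (hm.comp (measurable_id.sub_const k0)).aestronglyMeasurable
    · exact fun n => Filter.Eventually.of_forall fun k => norm_ballFT_le _ _
    · refine Filter.Eventually.of_forall fun q => ?_
      by_cases hq : q = k0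
      · subst hq
        rw [Set.indicator_of_mem (by simp)]
        refine tendsto_const_nhds.congr' ?_
        filter_upwards [eventually_gt_atTop 0] with n hn
        have hn' : (0 : ℝ) < n := by exact_mod_cast hn
        rw [sub_self, ballFT]
        simp only [inner_zero_left, Complex.ofReal_zero, zero_mul, Complex.exp_zero]
        rw [setAverage_const (Metric.measure_ball_pos _ _ hn').ne' measure_ball_lt_top.ne]
      · rw [Set.indicator_of_notMem (by simpa using hq)]
        exact tendsto_ballFT (sub_ne_zero.2 hq)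
  -- bound of the averages
  have hbound : ∀ ε : ℝ, 0 < ε → ∀ n : ℕ, 0 < n →
      ‖⨍ x in Metric.ball (0 : E) (n : ℝ), Complex.exp ((⟪-k0, x⟫ : ℝ) * Complex.I) *
      charFun μ x‖ ≤ ε + (1 / ε) * ⨍ x in Metric.ball (0 : E) (n : ℝ), ‖charFun μ x‖ ^ 2 := by
    intro ε hε n hn
    have hn' : (0 : ℝ) < n := by exact_mod_cast hn
    have hball : 0 < volume.real (Metric.ball (0 : E) (n : ℝ)) :=
      ENNReal.toReal_pos (Metric.measure_ball_pos _ _ hn').ne' measure_ball_lt_top.ne
    have hfin : IsFiniteMeasure (volume.restrict (Metric.ball (0 : E) (n : ℝ))) :=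
        ⟨by rw [Measure.restrict_apply_univ]; exact measure_ball_lt_top⟩
    rw [setAverage_eq, setAverage_eq, norm_smul, norm_inv, Real.norm_of_nonneg measureReal_nonneg,
      smul_eq_mul]
    have hi2 : IntegrableOn (fun x : E => ‖charFun μ x‖ ^ 2) (Metric.ball (0 : E) (n : ℝ)) := by
      refine Integrable.mono' (integrable_const ((μ.real univ) ^ 2)) ?_ ?_
      · exact (hcont.norm.pow 2).aestronglyMeasurable
      · refine Filter.Eventually.of_forall fun x => ?_
        rw [Real.norm_of_nonneg (by positivity)]
        gcongr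
        exact norm_charFun_le x
    have h1 : ‖∫ x in Metric.ball (0 : E) (n : ℝ), Complex.exp ((⟪-k0, x⟫ : ℝ) * Complex.I) *
      charFun μ x‖ ≤ ∫ x in Metric.ball (0 : E) (n : ℝ), (ε + (1 / ε) * ‖charFun μ x‖ ^ 2) := by
      refine norm_integral_le_of_norm_le ?_ ?_
      · exact (integrable_const _).add (hi2.const_mul _)
      · refine Filter.Eventually.of_forall fun x => ?_
        rw [norm_mul, Complex.norm_exp_ofReal_mul_I, one_mul]
        have := sq_nonneg (‖charFun μ x‖ - ε)
        have h3 : ‖charFun μ x‖ * ε ≤ ε * ε + ‖charFun μ x‖ ^ 2 := by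
          nlinarith [norm_nonneg (charFun μ x)]
        have h4 : ε + 1 / ε * ‖charFun μ x‖ ^ 2 = (ε * ε + ‖charFun μ x‖ ^ 2) / ε := by
          field_simp
        rw [h4, le_div_iff₀ hε]
        exact h3
    rw [integral_add (integrable_const _) (hi2.const_mul _), integral_const_mul,
      setIntegral_const, smul_eq_mul] at h1
    rw [inv_mul_le_iff₀ hball]
    refine h1.trans (le_of_eq ?_)
    rw [mul_add, ← mul_assoc _ (1 / ε), mul_comm _ (1 / ε), mul_assoc (1 / ε),
      mul_inv_cancel_left₀ hball.ne']
  have hle : ∀ ε : ℝ, 0 < ε → ‖((μ.real {k0} : ℝ) : ℂ)‖ ≤ ε := by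
    intro ε hε
    have l1 := lim1.norm
    have l2 : Tendsto (fun n : ℕ => ε + (1 / ε) * ⨍ x in Metric.ball (0 : E) (n : ℝ),
        ‖charFun μ x‖ ^ 2) atTop (𝓝 (ε + (1 / ε) * 0)) :=
      ((h.comp tendsto_natCast_atTop_atTop).const_mul _).const_add _
    rw [mul_zero, add_zero] at l2
    refine le_of_tendsto_of_tendsto l1 l2 ?_
    filter_upwards [eventually_gt_atTop 0] with n hn
    rw [← e1]
    exact hbound ε hε n hn
  have h0 : ‖((μ.real {k0} : ℝ) : ℂ)‖ ≤ 0 := le_of_forall_pos_le_add fun ε hε => by
    rw [zero_add]; exact hle ε hε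
  have h1 : μ.real {k0} = 0 := by
    rw [Complex.norm_real, Real.norm_of_nonneg measureReal_nonneg] at h0
    exact le_antisymm h0 measureReal_nonneg
  exact (measureReal_eq_zero_iff).1 h1

end Pool.Agent.Lib_helper70.Berry
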