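import Mathlib

/-!
# Bochner's theorem for stationary Hilbert space valued processes
-/

set_option linter.unusedSectionVars false

open MeasureTheory Set Filter Topology
open scoped ENNReal RealInnerProductSpace ComplexConjugate

namespace Pool.Agent.Lib_helper70.Berry

section InnerIntegral

variable {X Y H : Type*} [MeasurableSpace X] [MeasurableSpace Y]
  [NormedAddCommGroup H] [InnerProductSpace ℂ H] [CompleteSpace H]

lemma integrable_prod_inner {κ : Measure X} {ρ : Measure Y} [SFinite κ] [SFinite ρ]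
    {v : X → H} {w : Y → H} (hv : Integrable v κ) (hw : Integrable w ρ) :
    Integrable (fun p : X × Y => inner ℂ (v p.1) (w p.2)) (κ.prod ρ) := by
  have h1 : AEStronglyMeasurable (fun p : X × Y => v p.1) (κ.prod ρ) :=
    hv.1.comp_fst
  have h2 : AEStronglyMeasurable (fun p : X × Y => w p.2) (κ.prod ρ) :=
    hw.1.comp_snd
  refine Integrable.mono' (hv.norm.mul_prod hw.norm) (h1.inner h2) ?_
  exact Filter.Eventually.of_forall fun p => norm_inner_le_norm _ _

lemma inner_integral_integral {κ : Measure X} {ρ : Measure Y} [SFinite κ] [SFinite ρ]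
    {v : X → H} {w : Y → H} (hv : Integrable v κ) (hw : Integrable w ρ) :
    inner ℂ (∫ x, v x ∂κ) (∫ y, w y ∂ρ) =
      ∫ p : X × Y, inner ℂ (v p.1) (w p.2) ∂(κ.prod ρ) := by
  rw [integral_prod _ (integrable_prod_inner hv hw)]
  have e1 : ∀ x, ∫ y, inner ℂ (v x) (w y) ∂ρ = inner ℂ (v x) (∫ y, w y ∂ρ) :=
    fun x => integral_inner hw (v x)
  simp only [e1]
  rw [← inner_conj_symm, ← integral_inner hv, ← integral_conj]
  simp only [inner_conj_symm]

end InnerIntegral

variable {E : Type*} [NormedAddCommGroup E] [InnerProductSpace ℝ E] [FiniteDimensional ℝ E]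
  [MeasurableSpace E] [BorelSpace E]
variable {H : Type*} [NormedAddCommGroup H] [InnerProductSpace ℂ H] [CompleteSpace H]

/-- A continuous stationary process with values in a Hilbert space. -/
structure Stat (v : E → H) : Prop where
  cont : Continuous v
  inv : ∀ x y z, inner ℂ (v (x + z)) (v (y + z)) = inner ℂ (v x) (v y)

lemma Stat.norm_eq {v : E → H} (h : Stat v) (x : E) : ‖v x‖ = ‖v 0‖ := by
  have := h.inv 0 0 x
  rw [zero_add, inner_self_eq_norm_sq_to_K, inner_self_eq_norm_sq_to_K] at this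
  have h2 : ‖v x‖ ^ 2 = ‖v 0‖ ^ 2 := by exact_mod_cast this
  exact (sq_eq_sq₀ (norm_nonneg _) (norm_nonneg _)).1 h2

/-- covariance function of a stationary process -/
noncomputable def Kv (v : E → H) (x : E) : ℂ := inner ℂ (v 0) (v x)

lemma Stat.inner_eq {v : E → H} (h : Stat v) (x y : E) :
    inner ℂ (v x) (v y) = Kv v (y - x) := by
  have := h.inv 0 (y - x) x
  rw [zero_add, sub_add_cancel] at this
  exact this

lemma Stat.continuous_Kv {v : E → H} (h : Stat v) : Continuous (Kv v) :=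
  continuous_const.inner h.cont

lemma Stat.norm_Kv_le {v : E → H} (h : Stat v) (x : E) : ‖Kv v x‖ ≤ ‖v 0‖ ^ 2 := by
  refine (norm_inner_le_norm _ _).trans ?_
  rw [h.norm_eq x, sq]

/-- The weights used to build the approximating measures. -/
noncomputable def wgt (b : ℝ) (k x : E) : ℂ :=
  Complex.exp (-(b : ℂ) * ‖x‖ ^ 2 + (-Complex.I) * (⟪k, x⟫ : ℝ))

lemma integrable_wgt {b : ℝ} (hb : 0 < b) (k : E) : Integrable (fun x : E => wgt b k x) :=
  GaussianFourier.integrable_cexp_neg_mul_sq_norm_add (b := (b : ℂ)) (by simpa using hb)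
    (-Complex.I) k

lemma norm_wgt (b : ℝ) (k x : E) : ‖wgt b k x‖ = Real.exp (-b * ‖x‖ ^ 2) := by
  rw [wgt, Complex.norm_exp]
  congr 1
  simp [← Complex.ofReal_pow]

lemma continuous_wgt (b : ℝ) : Continuous fun p : E × E => wgt b p.1 p.2 := by
  unfold wgt
  fun_prop

lemma integrable_gauss {b : ℝ} (hb : 0 < b) :
    Integrable (fun x : E => Real.exp (-b * ‖x‖ ^ 2)) := by
  have := (integrable_wgt hb (0 : E)).norm
  simpa only [norm_wgt] using this

lemma integrable_wgt_smul {v : E → H} (h : Stat v) {b : ℝ} (hb : 0 < b) (k : E) :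
    Integrable (fun x : E => wgt b k x • v x) := by
  refine Integrable.mono' ((integrable_gauss hb).mul_const ‖v 0‖) ?_ ?_
  · exact (((continuous_wgt b).comp (by fun_prop : Continuous fun x : E => (k, x))).smul
      h.cont).aestronglyMeasurable
  · refine Filter.Eventually.of_forall fun x => ?_
    rw [norm_smul, norm_wgt, h.norm_eq]

/-- the smoothed Fourier transform of the process -/
noncomputable def Vt (v : E → H) (b : ℝ) (k : E) : H := ∫ x, wgt b k x • v x

lemma norm_Vt_le {v : E → H} (h : Stat v) {b : ℝ} (k : E) :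
    ‖Vt v b k‖ ≤ (∫ x : E, Real.exp (-b * ‖x‖ ^ 2)) * ‖v 0‖ := by
  refine (norm_integral_le_integral_norm _).trans (le_of_eq ?_)
  rw [← integral_mul_const]
  refine integral_congr_ae (Filter.Eventually.of_forall fun x => ?_)
  simp only [norm_smul, norm_wgt, h.norm_eq]

lemma continuous_Vt {v : E → H} (h : Stat v) {b : ℝ} (hb : 0 < b) : Continuous (Vt v b) := by
  refine continuous_of_dominated (bound := fun x : E => Real.exp (-b * ‖x‖ ^ 2) * ‖v 0‖) ?_ ?_ ?_ ?_
  · exact fun k => (integrable_wgt_smul h hb k).1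
  · exact fun k => Filter.Eventually.of_forall fun x => by rw [norm_smul, norm_wgt, h.norm_eq]
  · exact (integrable_gauss hb).mul_const _
  · exact Filter.Eventually.of_forall fun x =>
      ((continuous_wgt b).comp (by fun_prop : Continuous fun k : E => (k, x))).smul
        continuous_const

lemma normsq_Vt {v : E → H} (h : Stat v) {b : ℝ} (hb : 0 < b) (k : E) :
    ((‖Vt v b k‖ ^ 2 : ℝ) : ℂ) = ∫ p : E × E, conj (wgt b k p.1) * wgt b k p.2 *
      Kv v (p.2 - p.1) := by
  have := inner_integral_integral (integrable_wgt_smul h hb k) (integrable_wgt_smul h hb k)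
  rw [← Measure.volume_eq_prod] at this
  have e : inner ℂ (Vt v b k) (Vt v b k) = ((‖Vt v b k‖ ^ 2 : ℝ) : ℂ) := by
    rw [inner_self_eq_norm_sq_to_K]; push_cast; rfl
  rw [← e]
  refine this.trans ?_
  refine integral_congr_ae (Filter.Eventually.of_forall fun p => ?_)
  simp only [inner_smul_left, inner_smul_right, h.inner_eq]
  ring

/-- density of the approximating spectral measure -/
noncomputable def dens (v : E → H) (b δ : ℝ) (k : E) : ℝ :=
  Real.exp (-δ * ‖k‖ ^ 2) * ‖Vt v b k‖ ^ 2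

lemma dens_nonneg (v : E → H) (b δ : ℝ) (k : E) : 0 ≤ dens v b δ k := by
  unfold dens; positivity

lemma continuous_dens {v : E → H} (h : Stat v) {b : ℝ} (hb : 0 < b) (δ : ℝ) :
    Continuous (dens v b δ) := by
  have := continuous_Vt h hb
  unfold dens
  fun_prop

lemma integrable_dens {v : E → H} (h : Stat v) {b δ : ℝ} (hb : 0 < b) (hδ : 0 < δ) :
    Integrable (dens v b δ) := by
  refine Integrable.mono' ((integrable_gauss (E := E) hδ).mul_const
    (((∫ x : E, Real.exp (-b * ‖x‖ ^ 2)) * ‖v 0‖) ^ 2)) (continuous_dens h hb δ).aestronglyMeasurable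
    ?_
  refine Filter.Eventually.of_forall fun k => ?_
  rw [Real.norm_of_nonneg (dens_nonneg _ _ _ _), dens]
  gcongr
  exact norm_Vt_le h k

/-- approximating spectral measure -/
noncomputable def appr (v : E → H) (b δ : ℝ) : Measure E :=
  volume.withDensity fun k => ENNReal.ofReal (dens v b δ k)

lemma isFinite_appr {v : E → H} (h : Stat v) {b δ : ℝ} (hb : 0 < b) (hδ : 0 < δ) :
    IsFiniteMeasure (appr v b δ) :=
  isFiniteMeasure_withDensity_ofReal (integrable_dens h hb hδ).2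

lemma integral_appr {v : E → H} (h : Stat v) {b δ : ℝ} (hb : 0 < b) (f : E → ℂ) :
    ∫ k, f k ∂(appr v b δ) = ∫ k, (dens v b δ k : ℂ) * f k := by
  unfold appr
  rw [integral_withDensity_eq_integral_toReal_smul]
  · refine integral_congr_ae (Filter.Eventually.of_forall fun k => ?_)
    simp only [ENNReal.toReal_ofReal (dens_nonneg _ _ _ _), Complex.real_smul]
  · exact (continuous_dens h hb δ).measurable.ennreal_ofReal
  · exact Filter.Eventually.of_forall fun k => ENNReal.ofReal_lt_top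

/-- the Gaussian factor -/
noncomputable def Gs (δ : ℝ) (u : E) : ℂ := Complex.exp (-(‖u‖ ^ 2 : ℂ) / (4 * δ))

lemma exp_comb4 (A B C D K : ℂ) : Complex.exp A * Complex.exp B * (Complex.exp C *
    Complex.exp D * K) = Complex.exp (A + B + C + D) * K := by
  simp only [Complex.exp_add]; ring

lemma exp_comb3 (A B C K : ℂ) : Complex.exp A * Complex.exp B * (K * Complex.exp C) =
    Complex.exp (A + B + C) * K := by
  simp only [Complex.exp_add]; ring

lemma charFun_appr_aux {v : E → H} (h : Stat v) {b δ : ℝ} (hb : 0 < b) (hδ : 0 < δ) (t : E) :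
    charFun (appr v b δ) t = (Real.pi / δ : ℂ) ^ (Module.finrank ℝ E / 2 : ℂ) *
      ∫ p : E × E, (Real.exp (-b * ‖p.1‖ ^ 2) * Real.exp (-b * ‖p.2‖ ^ 2) : ℝ) *
        (Kv v (p.2 - p.1) * Gs δ (t - (p.2 - p.1))) := by
  rw [charFun_apply, integral_appr h hb]
  -- the full integrand
  set F : E → E × E → ℂ := fun k p =>
    (Real.exp (-b * ‖p.1‖ ^ 2) * Real.exp (-b * ‖p.2‖ ^ 2) : ℝ) * (Kv v (p.2 - p.1) *
      Complex.exp (-(δ : ℂ) * ‖k‖ ^ 2 + Complex.I * (⟪t - (p.2 - p.1), k⟫ : ℝ))) with hF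
  have e1 : ∀ k : E, (dens v b δ k : ℂ) * Complex.exp ((⟪k, t⟫ : ℝ) * Complex.I) =
      ∫ p : E × E, F k p := by
    intro k
    have e2 : (dens v b δ k : ℂ) * Complex.exp ((⟪k, t⟫ : ℝ) * Complex.I) =
        (Real.exp (-δ * ‖k‖ ^ 2) * Complex.exp ((⟪k, t⟫ : ℝ) * Complex.I)) *
          ((‖Vt v b k‖ ^ 2 : ℝ) : ℂ) := by
      unfold dens; push_cast; ring
    rw [e2, normsq_Vt h hb, ← integral_const_mul]
    refine integral_congr_ae (Filter.Eventually.of_forall fun p => ?_)
    simp only [hF, wgt]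
    rw [← Complex.exp_conj]
    simp only [map_add, map_mul, map_neg, Complex.conj_ofReal, Complex.conj_I, map_pow]
    push_cast
    have e3 : ((⟪t - (p.2 - p.1), k⟫ : ℝ) : ℂ) = (⟪k, t⟫ : ℝ) - (⟪k, p.2⟫ : ℝ) + (⟪k, p.1⟫ : ℝ) := by
      rw [inner_sub_left, inner_sub_left, real_inner_comm, real_inner_comm p.2,
        real_inner_comm p.1]
      push_cast; ring
    rw [e3]
    rw [exp_comb4, exp_comb3]
    congr 2
    ring
  simp only [e1]
  rw [integral_integral_swap]
  · rw [← integral_const_mul]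
    refine integral_congr_ae (Filter.Eventually.of_forall fun p => ?_)
    simp only [hF]
    rw [integral_const_mul, integral_const_mul]
    rw [GaussianFourier.integral_cexp_neg_mul_sq_norm_add (b := (δ : ℂ)) (by simpa using hδ)
      Complex.I (t - (p.2 - p.1))]
    unfold Gs
    rw [Complex.I_sq]
    have : (-1 * (‖t - (p.2 - p.1)‖ : ℂ) ^ 2 / (4 * δ)) = (-(‖t - (p.2 - p.1)‖ ^ 2 : ℂ) / (4 * δ)) := by
      ring
    rw [this]
    push_cast
    ring
  · -- integrability
    have hint : Integrable (fun q : E × (E × E) => Real.exp (-δ * ‖q.1‖ ^ 2) *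
        ((Real.exp (-b * ‖q.2.1‖ ^ 2) * Real.exp (-b * ‖q.2.2‖ ^ 2)) * ‖v 0‖ ^ 2))
        (volume.prod volume) :=
      (integrable_gauss hδ).mul_prod
        (((integrable_gauss hb).mul_prod (integrable_gauss hb)).mul_const _)
    refine Integrable.mono' hint ?_ ?_
    · have hK := h.continuous_Kv
      have : Continuous (Function.uncurry F) := by
        simp only [hF, Function.uncurry_def]
        fun_prop
      exact this.aestronglyMeasurable
    · refine Filter.Eventually.of_forall fun q => ?_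
      simp only [Function.uncurry, hF]
      rw [norm_mul, norm_mul, Complex.norm_real, Real.norm_of_nonneg (by positivity),
        Complex.norm_exp]
      have hre : (-(δ : ℂ) * ‖q.1‖ ^ 2 + Complex.I * (⟪t - (q.2.2 - q.2.1), q.1⟫ : ℝ)).re =
          -δ * ‖q.1‖ ^ 2 := by
        simp [← Complex.ofReal_pow]
      rw [hre]
      have := h.norm_Kv_le (q.2.2 - q.2.1)
      calc Real.exp (-b * ‖q.2.1‖ ^ 2) * Real.exp (-b * ‖q.2.2‖ ^ 2) *
            (‖Kv v (q.2.2 - q.2.1)‖ * Real.exp (-δ * ‖q.1‖ ^ 2))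
          ≤ Real.exp (-b * ‖q.2.1‖ ^ 2) * Real.exp (-b * ‖q.2.2‖ ^ 2) *
            (‖v 0‖ ^ 2 * Real.exp (-δ * ‖q.1‖ ^ 2)) := by gcongr
        _ = _ := by ring

lemma norm_Gs_le {δ : ℝ} (hδ : 0 < δ) (u : E) : ‖Gs δ u‖ ≤ 1 := by
  unfold Gs
  rw [Complex.norm_exp]
  have : (-(‖u‖ ^ 2 : ℂ) / (4 * δ)).re = -(‖u‖ ^ 2) / (4 * δ) := by
    have e : (-(‖u‖ ^ 2 : ℂ) / (4 * δ)) = ((-(‖u‖ ^ 2) / (4 * δ) : ℝ) : ℂ) := by push_cast; ring
    rw [e, Complex.ofReal_re]
  rw [this]
  apply Real.exp_le_one_iff.2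
  rw [neg_div]
  exact neg_nonpos.2 (by positivity)

lemma continuous_Gs (δ : ℝ) : Continuous (fun u : E => Gs δ u) := by
  unfold Gs
  fun_prop

lemma gauss_shift (b : ℝ) (x z : E) :
    Real.exp (-b * ‖x‖ ^ 2) * Real.exp (-b * ‖z + x‖ ^ 2) =
      Real.exp (-(2 * b) * ‖x + (1 / 2 : ℝ) • z‖ ^ 2) * Real.exp (-(b / 2) * ‖z‖ ^ 2) := by
  rw [← Real.exp_add, ← Real.exp_add]
  congr 1
  rw [norm_add_sq_real, norm_add_sq_real, norm_smul, inner_smul_right, real_inner_comm]
  rw [show ‖(1 / 2 : ℝ)‖ = 1 / 2 by norm_num]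
  ring

lemma gauss_shift_le {b : ℝ} (hb : 0 < b) (x z : E) :
    Real.exp (-b * ‖x‖ ^ 2) * Real.exp (-b * ‖z + x‖ ^ 2) ≤
      Real.exp (-(b / 2) * ‖x‖ ^ 2) * Real.exp (-(b / 4) * ‖z‖ ^ 2) := by
  rw [← Real.exp_add, ← Real.exp_add]
  apply Real.exp_le_exp.2
  have h1 : ‖z‖ ^ 2 ≤ 2 * ‖x‖ ^ 2 + 2 * ‖z + x‖ ^ 2 := by
    have e : z = (z + x) - x := by abel
    have h2 : ‖z‖ ≤ ‖z + x‖ + ‖x‖ := by
      calc ‖z‖ = ‖(z + x) - x‖ := by rw [← e]
        _ ≤ _ := norm_sub_le _ _
    nlinarith [norm_nonneg z, norm_nonneg x, norm_nonneg (z + x), sq_nonneg (‖z + x‖ - ‖x‖)]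
  nlinarith

lemma charFun_appr {v : E → H} (h : Stat v) {b δ : ℝ} (hb : 0 < b) (hδ : 0 < δ) (t : E) :
    charFun (appr v b δ) t = (Real.pi / δ : ℂ) ^ (Module.finrank ℝ E / 2 : ℂ) *
      (∫ x : E, Real.exp (-(2 * b) * ‖x‖ ^ 2) : ℝ) *
      ∫ z : E, (Real.exp (-(b / 2) * ‖z‖ ^ 2) : ℝ) * (Kv v z * Gs δ (t - z)) := by
  rw [charFun_appr_aux h hb hδ, mul_assoc]
  congr 1
  have hK := h.continuous_Kv
  have hG := continuous_Gs (E := E) δ
  have hbound : ∀ z : E, ‖Kv v z * Gs δ (t - z)‖ ≤ ‖v 0‖ ^ 2 := by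
    intro z
    rw [norm_mul]
    calc ‖Kv v z‖ * ‖Gs δ (t - z)‖ ≤ ‖v 0‖ ^ 2 * 1 :=
          mul_le_mul (h.norm_Kv_le z) (norm_Gs_le hδ _) (norm_nonneg _) (by positivity)
      _ = _ := mul_one _
  have i1 : Integrable (fun p : E × E => (Real.exp (-b * ‖p.1‖ ^ 2) * Real.exp (-b * ‖p.2‖ ^ 2) : ℝ)
      * (Kv v (p.2 - p.1) * Gs δ (t - (p.2 - p.1)))) (volume.prod volume) := by
    refine Integrable.mono' (((integrable_gauss (E := E) hb).mul_prod
      (integrable_gauss (E := E) hb)).mul_const (‖v 0‖ ^ 2)) ?_ ?_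
    · have : Continuous (fun p : E × E => ((Real.exp (-b * ‖p.1‖ ^ 2) *
        Real.exp (-b * ‖p.2‖ ^ 2) : ℝ) : ℂ) * (Kv v (p.2 - p.1) * Gs δ (t - (p.2 - p.1)))) := by
        fun_prop
      exact this.aestronglyMeasurable
    · refine Filter.Eventually.of_forall fun p => ?_
      rw [norm_mul, Complex.norm_real, Real.norm_of_nonneg (by positivity)]
      exact mul_le_mul_of_nonneg_left (hbound _) (by positivity)
  rw [Measure.volume_eq_prod, integral_prod _ i1]
  have e1 : ∀ x : E, ∫ y : E, ((Real.exp (-b * ‖x‖ ^ 2) * Real.exp (-b * ‖y‖ ^ 2) : ℝ) : ℂ)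
      * (Kv v (y - x) * Gs δ (t - (y - x))) =
      ∫ z : E, ((Real.exp (-b * ‖x‖ ^ 2) * Real.exp (-b * ‖z + x‖ ^ 2) : ℝ) : ℂ)
      * (Kv v z * Gs δ (t - z)) := by
    intro x
    rw [← integral_add_right_eq_self _ x]
    refine integral_congr_ae (Filter.Eventually.of_forall fun z => ?_)
    simp only [add_sub_cancel_right]
  simp only [e1]
  rw [integral_integral_swap]
  · rw [← integral_const_mul]
    refine integral_congr_ae (Filter.Eventually.of_forall fun z => ?_)
    simp only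
    rw [integral_mul_const]
    simp only [gauss_shift]
    rw [integral_complex_ofReal, integral_mul_const]
    have : ∫ x : E, Real.exp (-(2 * b) * ‖x + (1 / 2 : ℝ) • z‖ ^ 2) =
        ∫ x : E, Real.exp (-(2 * b) * ‖x‖ ^ 2) :=
      integral_add_right_eq_self (fun x : E => Real.exp (-(2 * b) * ‖x‖ ^ 2)) _
    rw [this]
    push_cast
    ring
  · refine Integrable.mono' (((integrable_gauss (E := E) (half_pos hb)).mul_prod
      (integrable_gauss (E := E) (show 0 < b / 4 by positivity))).mul_const (‖v 0‖ ^ 2)) ?_ ?_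
    · have : Continuous (Function.uncurry fun (x z : E) => ((Real.exp (-b * ‖x‖ ^ 2) *
        Real.exp (-b * ‖z + x‖ ^ 2) : ℝ) : ℂ) * (Kv v z * Gs δ (t - z))) := by
        simp only [Function.uncurry_def]
        fun_prop
      exact this.aestronglyMeasurable
    · refine Filter.Eventually.of_forall fun p => ?_
      simp only [Function.uncurry]
      rw [norm_mul, Complex.norm_real, Real.norm_of_nonneg (by positivity)]
      exact mul_le_mul (gauss_shift_le hb _ _) (hbound _) (norm_nonneg _) (by positivity)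

/-- rescaled smoothing of the covariance function -/
noncomputable def Bn (v : E → H) (s : ℝ) (t : E) : ℂ :=
  ∫ w : E, (Real.exp (-(s ^ 2) * ‖t - s • w‖ ^ 2) * Real.exp (-‖w‖ ^ 2) : ℝ) * Kv v (t - s • w)

lemma charFun_appr_eq_Bn {v : E → H} (h : Stat v) {s : ℝ} (hs : 0 < s) :
    ∃ κ : ℂ, κ ≠ 0 ∧ ∀ t, charFun (appr v (2 * s ^ 2) (s ^ 2 / 4)) t = κ * Bn v s t := by
  have hs2 : 0 < s ^ 2 := by positivity
  refine ⟨(Real.pi / (s ^ 2 / 4 : ℝ) : ℂ) ^ (Module.finrank ℝ E / 2 : ℂ) *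
      (∫ x : E, Real.exp (-(2 * (2 * s ^ 2)) * ‖x‖ ^ 2) : ℝ) *
      (s ^ Module.finrank ℝ E : ℝ), ?_, fun t => ?_⟩
  · refine mul_ne_zero (mul_ne_zero ?_ ?_) ?_
    · rw [Complex.cpow_ne_zero_iff]
      left
      exact div_ne_zero (by exact_mod_cast Real.pi_ne_zero) (by
        rw [Complex.ofReal_ne_zero]; positivity)
    · rw [Complex.ofReal_ne_zero]
      rw [GaussianFourier.integral_rexp_neg_mul_sq_norm (by positivity)]
      positivity
    · rw [Complex.ofReal_ne_zero]; positivity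
  · rw [charFun_appr h (by positivity) (by positivity)]
    rw [mul_assoc _ ((s ^ Module.finrank ℝ E : ℝ) : ℂ)]
    congr 1
    rw [← integral_sub_left_eq_self _ volume t]
    unfold Bn
    have hsm := Measure.integral_comp_smul (volume : Measure E) (fun u : E =>
      ((Real.exp (-(2 * s ^ 2 / 2) * ‖t - u‖ ^ 2) : ℝ) : ℂ) * (Kv v (t - u) *
        Gs (s ^ 2 / 4) (t - (t - u)))) s
    have e1 : (∫ w : E, ((Real.exp (-(s ^ 2) * ‖t - s • w‖ ^ 2) * Real.exp (-‖w‖ ^ 2) : ℝ) : ℂ) *
        Kv v (t - s • w)) = ∫ w : E, ((Real.exp (-(2 * s ^ 2 / 2) * ‖t - s • w‖ ^ 2) : ℝ) : ℂ) *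
        (Kv v (t - s • w) * Gs (s ^ 2 / 4) (t - (t - s • w))) := by
      refine integral_congr_ae (Filter.Eventually.of_forall fun w => ?_)
      simp only [sub_sub_cancel]
      have e2 : Gs (s ^ 2 / 4) (s • w) = ((Real.exp (-‖w‖ ^ 2) : ℝ) : ℂ) := by
        unfold Gs
        rw [norm_smul, Real.norm_of_nonneg hs.le]
        push_cast
        congr 1
        have : (s : ℂ) ≠ 0 := by exact_mod_cast hs.ne'
        field_simp
      rw [e2]
      rw [show 2 * s ^ 2 / 2 = s ^ 2 by ring]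
      push_cast
      ring
    rw [e1, hsm, abs_of_pos (by positivity), Complex.real_smul, ← mul_assoc]
    have : ((s ^ Module.finrank ℝ E : ℝ) : ℂ) * (((s ^ Module.finrank ℝ E)⁻¹ : ℝ) : ℂ) = 1 := by
      rw [← Complex.ofReal_mul, mul_inv_cancel₀ (by positivity), Complex.ofReal_one]
    rw [this, one_mul]

lemma tendsto_Bn {v : E → H} (h : Stat v) (t : E) {s : ℕ → ℝ} (hs : Tendsto s atTop (𝓝 0)) :
    Tendsto (fun n => Bn v (s n) t) atTop
      (𝓝 ((∫ w : E, Real.exp (-‖w‖ ^ 2) : ℝ) * Kv v t)) := by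
  have hK := h.continuous_Kv
  have e : ((∫ w : E, Real.exp (-‖w‖ ^ 2) : ℝ) : ℂ) * Kv v t =
      ∫ w : E, ((Real.exp (-‖w‖ ^ 2) : ℝ) : ℂ) * Kv v t := by
    rw [integral_mul_const, integral_complex_ofReal]
  rw [e]
  unfold Bn
  refine tendsto_integral_of_dominated_convergence
    (fun w : E => Real.exp (-1 * ‖w‖ ^ 2) * ‖v 0‖ ^ 2) ?_ ?_ ?_ ?_
  · intro n
    have : Continuous (fun w : E => ((Real.exp (-(s n ^ 2) * ‖t - s n • w‖ ^ 2) *
        Real.exp (-‖w‖ ^ 2) : ℝ) : ℂ) * Kv v (t - s n • w)) := by fun_prop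
    exact this.aestronglyMeasurable
  · exact (integrable_gauss one_pos).mul_const _
  · intro n
    refine Filter.Eventually.of_forall fun w => ?_
    rw [norm_mul, Complex.norm_real, Real.norm_of_nonneg (by positivity)]
    refine mul_le_mul ?_ (h.norm_Kv_le _) (norm_nonneg _) (by positivity)
    have h1 : Real.exp (-(s n ^ 2) * ‖t - s n • w‖ ^ 2) ≤ 1 := by
      apply Real.exp_le_one_iff.2
      have : 0 ≤ (s n ^ 2) * ‖t - s n • w‖ ^ 2 := by positivity
      linarith
    calc Real.exp (-(s n ^ 2) * ‖t - s n • w‖ ^ 2) * Real.exp (-‖w‖ ^ 2)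
        ≤ 1 * Real.exp (-‖w‖ ^ 2) := mul_le_mul_of_nonneg_right h1 (by positivity)
      _ = Real.exp (-1 * ‖w‖ ^ 2) := by rw [one_mul]; congr 1; ring
  · refine Filter.Eventually.of_forall fun w => ?_
    have hc : Continuous fun r : ℝ => ((Real.exp (-(r ^ 2) * ‖t - r • w‖ ^ 2) *
        Real.exp (-‖w‖ ^ 2) : ℝ) : ℂ) * Kv v (t - r • w) := by fun_prop
    have := (hc.tendsto 0).comp hs
    simpa [Function.comp_def] using this

/-- **Bochner's theorem** for Hilbert space valued continuous stationary processes. -/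
theorem exists_spectral {v : E → H} (h : Stat v) :
    ∃ μ : Measure E, IsFiniteMeasure μ ∧ ∀ x, charFun μ x = Kv v x := by
  by_cases h0 : v 0 = 0
  · refine ⟨0, inferInstance, fun x => ?_⟩
    rw [charFun_zero_measure, Kv, h0, inner_zero_left]
  have hK0 : Kv v 0 ≠ 0 := by
    unfold Kv
    exact inner_self_ne_zero.2 h0
  have hC : ((∫ w : E, Real.exp (-‖w‖ ^ 2) : ℝ) : ℂ) ≠ 0 := by
    rw [Complex.ofReal_ne_zero]
    have := GaussianFourier.integral_rexp_neg_mul_sq_norm (V := E) one_pos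
    simp only [neg_mul, one_mul] at this
    rw [this]
    positivity
  set s : ℕ → ℝ := fun n => 1 / ((n : ℝ) + 1) with hsdef
  have hs : Tendsto s atTop (𝓝 0) := tendsto_one_div_add_atTop_nhds_zero_nat
  have hspos : ∀ n, 0 < s n := fun n => by simp only [hsdef]; positivity
  have ht0 := tendsto_Bn h 0 hs
  have hne : ∀ᶠ n in atTop, Bn v (s n) 0 ≠ 0 := ht0.eventually_ne (mul_ne_zero hC hK0)
  obtain ⟨N, hN⟩ := eventually_atTop.1 hne
  set m : ℕ → Measure E := fun n => appr v (2 * s (n + N) ^ 2) (s (n + N) ^ 2 / 4) with hm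
  have hfin : ∀ n, IsFiniteMeasure (m n) := fun n => by
    have := hspos (n + N)
    exact isFinite_appr h (by positivity) (by positivity)
  have hratio : ∀ n t, charFun (m n) t / charFun (m n) 0 =
      Bn v (s (n + N)) t / Bn v (s (n + N)) 0 := by
    intro n t
    obtain ⟨κ, hκ, hκt⟩ := charFun_appr_eq_Bn h (hspos (n + N))
    simp only [hm, hκt]
    rw [mul_div_mul_left _ _ hκ]
  have hmass : ∀ n, charFun (m n) 0 ≠ 0 := by
    intro n
    obtain ⟨κ, hκ, hκt⟩ := charFun_appr_eq_Bn h (hspos (n + N))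
    simp only [hm, hκt]
    exact mul_ne_zero hκ (hN _ (Nat.le_add_left _ _))
  have hmne : ∀ n, (m n) ≠ 0 := by
    intro n hn
    apply hmass n
    rw [hn, charFun_zero_measure]
  set P : ℕ → Measure E := fun n => (m n univ)⁻¹ • m n with hP
  have hPprob : ∀ n, IsProbabilityMeasure (P n) := by
    intro n
    have := hfin n
    have : NeZero (m n) := ⟨hmne n⟩
    exact isProbabilityMeasureSMul
  have hPchar : ∀ n t, charFun (P n) t = Bn v (s (n + N)) t / Bn v (s (n + N)) 0 := by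
    intro n t
    have := hfin n
    rw [← hratio, charFun_zero]
    simp only [hP]
    rw [charFun_apply, integral_smul_measure, ← charFun_apply, Complex.real_smul,
      ENNReal.toReal_inv, Complex.ofReal_inv, div_eq_inv_mul]
    rfl
  have hlim : ∀ t, Tendsto (fun n => charFun (P n) t) atTop (𝓝 (Kv v t / Kv v 0)) := by
    intro t
    simp only [hPchar]
    have h1 := (tendsto_Bn h t hs).comp (tendsto_add_atTop_nat N)
    have h2 := (tendsto_Bn h 0 hs).comp (tendsto_add_atTop_nat N)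
    have := h1.div h2 (mul_ne_zero hC hK0)
    rw [mul_div_mul_left _ _ hC] at this
    exact this
  have hK := h.continuous_Kv
  have htight : IsTightMeasureSet (Set.range P) :=
    isTightMeasureSet_of_tendsto_charFun (f := fun t => Kv v t / Kv v 0)
      (by fun_prop) hlim
  set Q : ℕ → ProbabilityMeasure E := fun n => ⟨P n, hPprob n⟩ with hQ
  have h_compact : IsCompact (closure (Set.range Q)) := by
    apply isCompact_closure_of_isTightMeasureSet
    convert! htight using 1
    ext ν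
    constructor
    · rintro ⟨μ, ⟨n, rfl⟩, rfl⟩
      exact ⟨n, rfl⟩
    · rintro ⟨n, rfl⟩
      exact ⟨_, ⟨n, rfl⟩, rfl⟩
  have hU : (hyperfilter ℕ : Filter ℕ) ≤ atTop := Nat.hyperfilter_le_atTop
  obtain ⟨μ', -, hμ'⟩ := h_compact.ultrafilter_le_nhds ((hyperfilter ℕ).map Q)
    (by
      rw [le_principal_iff]
      exact Filter.mem_of_superset (Filter.mem_map.2 (Filter.univ_mem' fun n => mem_range_self n))
        subset_closure)
  have hμt : Tendsto Q (hyperfilter ℕ) (𝓝 μ') := hμ'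
  have hchar : ∀ t, charFun (μ' : Measure E) t = Kv v t / Kv v 0 := by
    intro t
    rw [ProbabilityMeasure.tendsto_iff_forall_integral_rclike_tendsto ℂ] at hμt
    have h1 := hμt (BoundedContinuousFunction.innerProbChar t)
    have h2 : Tendsto (fun n => charFun (P n) t) (hyperfilter ℕ) (𝓝 (charFun (μ' : Measure E) t)) := by
      simp only [charFun_eq_integral_innerProbChar]
      exact h1
    exact tendsto_nhds_unique h2 ((hlim t).mono_left hU)
  -- rescale
  have hpos : Kv v 0 = ((‖v 0‖ ^ 2 : ℝ) : ℂ) := by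
    unfold Kv
    rw [inner_self_eq_norm_sq_to_K]; push_cast; rfl
  refine ⟨ENNReal.ofReal (‖v 0‖ ^ 2) • (μ' : Measure E), ?_, fun t => ?_⟩
  · exact Measure.smul_finite _ ENNReal.ofReal_ne_top
  · rw [charFun_apply, integral_smul_measure, ← charFun_apply, hchar,
      ENNReal.toReal_ofReal (by positivity), Complex.real_smul, ← hpos,
      mul_div_cancel₀ _ hK0]

end Pool.Agent.Lib_helper70.Berry
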