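import Pool.Agent.Lib_helper70.Berry.Singular

/-!
# The measure with Fourier transform `exp c - 1 - c`
-/

set_option linter.unusedSectionVars false

open MeasureTheory Set Filter Topology
open scoped ENNReal RealInnerProductSpace ComplexConjugate

namespace Pool.Agent.Lib_helper70.Berry

variable {E : Type*} [NormedAddCommGroup E] [InnerProductSpace ℝ E] [FiniteDimensional ℝ E]
  [MeasurableSpace E] [BorelSpace E]

/-- convolution powers: `cp ν n` is the `(n+1)`-fold convolution power of `ν` -/
noncomputable def cp (ν : Measure E) : ℕ → Measure E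
  | 0 => ν
  | n + 1 => Measure.conv (cp ν n) ν

lemma isFinite_cp (ν : Measure E) [IsFiniteMeasure ν] (n : ℕ) : IsFiniteMeasure (cp ν n) := by
  induction n with
  | zero => exact ‹_›
  | succ n ih => unfold cp; infer_instance

lemma charFun_cp (ν : Measure E) [IsFiniteMeasure ν] (n : ℕ) (x : E) :
    charFun (cp ν n) x = charFun ν x ^ (n + 1) := by
  induction n with
  | zero => simp [cp]
  | succ n ih =>
    have := isFinite_cp ν n
    rw [cp, charFun_conv, ih]
    ring

lemma noAtoms_cp (ν : Measure E) [IsFiniteMeasure ν] [NullSingletonClass ν] (n : ℕ) :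
    NullSingletonClass (cp ν n) := by
  cases n with
  | zero => exact ‹_›
  | succ n =>
    have := isFinite_cp ν n
    exact conv_noAtoms ν (cp ν n)

lemma cp_univ (ν : Measure E) [IsFiniteMeasure ν] (n : ℕ) :
    cp ν n univ = ENNReal.ofReal ((ν.real univ) ^ (n + 1)) := by
  have hf := isFinite_cp ν n
  have h1 := charFun_cp ν n 0
  rw [charFun_zero, charFun_zero] at h1
  have h2 : (cp ν n).real univ = (ν.real univ) ^ (n + 1) := by exact_mod_cast h1
  rw [← h2, Measure.real, ENNReal.ofReal_toReal (measure_ne_top _ _)]

theorem exists_expRemainder {σ : Measure E} (hσ : Good σ) (ν : Measure E) [IsFiniteMeasure ν]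
    [NullSingletonClass ν] {r : ℝ} (hr : 0 ≤ r) :
    ∃ ρ : Measure E, IsFiniteMeasure ρ ∧ ρ ⟂ₘ σ ∧
      ∀ x, charFun ρ x = r * (Complex.exp (charFun ν x) - 1 - charFun ν x) := by
  set m : ℝ := ν.real univ with hm
  have hm0 : 0 ≤ m := measureReal_nonneg
  set ρn : ℕ → Measure E := fun n =>
    ENNReal.ofReal (r / (n + 2).factorial) • cp ν (n + 1) with hρn
  have huniv : ∀ n, ρn n univ = ENNReal.ofReal (r * (m ^ (n + 2) / (n + 2).factorial)) := by
    intro n
    simp only [hρn, Measure.smul_apply, smul_eq_mul]
    rw [cp_univ, ← ENNReal.ofReal_mul (by positivity)]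
    congr 1
    ring
  have hsum : Summable fun n : ℕ => r * (m ^ (n + 2) / ((n + 2).factorial : ℝ)) :=
    ((summable_nat_add_iff 2).2 (Real.summable_pow_div_factorial m)).mul_left r
  have hfin : IsFiniteMeasure (Measure.sum ρn) := by
    constructor
    rw [Measure.sum_apply _ MeasurableSet.univ]
    simp only [huniv]
    exact hsum.tsum_ofReal_lt_top
  refine ⟨Measure.sum ρn, hfin, ?_, fun x => ?_⟩
  · rw [Measure.MutuallySingular.sum_left]
    intro n
    have h1 := isFinite_cp ν n
    have h2 := noAtoms_cp ν n
    simp only [hρn]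
    exact (hσ (cp ν n) ν).smul _
  · have hint : Integrable (fun k : E => Complex.exp ((⟪k, x⟫ : ℝ) * Complex.I))
        (Measure.sum ρn) := by
      refine Integrable.mono' (integrable_const (1 : ℝ)) ?_ ?_
      · exact (by fun_prop : Continuous fun k : E => Complex.exp ((⟪k, x⟫ : ℝ) *
          Complex.I)).aestronglyMeasurable
      · exact Filter.Eventually.of_forall fun x => (Complex.norm_exp_ofReal_mul_I _).le
    have h1 := hasSum_integral_measure hint
    have h2 : ∀ n, ∫ k, Complex.exp ((⟪k, x⟫ : ℝ) * Complex.I) ∂(ρn n) =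
        r * (charFun ν x ^ (n + 2) / (n + 2).factorial) := by
      intro n
      simp only [hρn]
      rw [integral_smul_measure, ← charFun_apply, charFun_cp,
        ENNReal.toReal_ofReal (by positivity), Complex.real_smul]
      push_cast
      ring
    simp only [h2] at h1
    have h3 : HasSum (fun n : ℕ => charFun ν x ^ n / (n.factorial : ℂ))
        (Complex.exp (charFun ν x)) := by
      rw [Complex.exp_eq_exp_ℂ]
      exact NormedSpace.expSeries_div_hasSum_exp (charFun ν x)
    have h4 := ((hasSum_nat_add_iff' 2).2 h3).mul_left (r : ℂ)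
    rw [charFun_apply]
    refine (h1.unique h4).trans ?_
    simp [Finset.sum_range_succ]
    left
    ring

end Pool.Agent.Lib_helper70.Berry
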