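import Mathlib

/-!
# Mean square continuity, and limits of Gaussian variables
-/

set_option linter.unusedSectionVars false

open MeasureTheory Set Filter Topology ProbabilityTheory
open scoped ENNReal RealInnerProductSpace

namespace Pool.Agent.Lib_helper70.Berry

variable {Ω : Type*} [MeasurableSpace Ω] {P : Measure Ω} [IsProbabilityMeasure P]

lemma inner_toLp_real {α : Type*} [MeasurableSpace α] {μ : Measure α} {f g : α → ℝ}
    (hf : MemLp f 2 μ) (hg : MemLp g 2 μ) :
    inner ℝ (hf.toLp f) (hg.toLp g) = ∫ x, f x * g x ∂μ := by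
  rw [L2.inner_def]
  refine integral_congr_ae ?_
  filter_upwards [hf.coeFn_toLp, hg.coeFn_toLp] with x h1 h2
  rw [h1, h2, RCLike.inner_apply', conj_trivial]

lemma continuousAt_cov {E : Type*} [NormedAddCommGroup E] {F : E → Ω → ℝ}
    (hid : ∀ x, IdentDistrib (F x) (F 0) P P) (h2 : MemLp (F 0) 2 P)
    (hc : ∀ᵐ ω ∂P, Continuous fun x => F x ω) :
    ContinuousAt (fun x => ∫ ω, F 0 ω * F x ω ∂P) 0 := by
  have hmem : ∀ x, MemLp (F x) 2 P := fun x => (hid x).symm.memLp_snd h2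
  have hui := MemLp.uniformIntegrable_of_identDistrib (f := F) (j := 0) (by norm_num) (by norm_num)
    h2 hid
  rw [ContinuousAt]
  refine tendsto_of_seq_tendsto fun u hu => ?_
  have hui' : UnifIntegrable (fun n => F (u n)) 2 P := by
    intro ε hε
    obtain ⟨δ, hδ, h⟩ := hui.unifIntegrable hε
    exact ⟨δ, hδ, fun n => h (u n)⟩
  have hae : ∀ᵐ ω ∂P, Tendsto (fun n => F (u n) ω) atTop (𝓝 (F 0 ω)) := by
    filter_upwards [hc] with ω hω
    exact (hω.tendsto 0).comp hu
  have hlim := tendsto_Lp_finite_of_tendsto_ae (by norm_num) (by norm_num)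
    (fun n => (hmem (u n)).1) h2 hui' hae
  have hLp := (Lp.tendsto_Lp_iff_tendsto_eLpNorm'' (fun n => F (u n)) (fun n => hmem (u n)) (F 0)
    h2).2 hlim
  have hin : Tendsto (fun n => inner ℝ (h2.toLp (F 0)) ((hmem (u n)).toLp (F (u n)))) atTop
      (𝓝 (inner ℝ (h2.toLp (F 0)) (h2.toLp (F 0)))) := tendsto_const_nhds.inner hLp
  simp only [inner_toLp_real] at hin
  exact hin

/-! ### Gaussian closed subspaces -/

/-- the functional equation characterising centred Gaussian variables in `L²` -/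
def GLaw (P : Measure Ω) (Y : Ω → ℝ) : Prop :=
  ∫ ω, Y ω ∂P = 0 ∧ ∫ ω, Complex.exp ((Y ω : ℝ) * Complex.I) ∂P =
    Complex.exp (-((∫ ω, Y ω ^ 2 ∂P : ℝ) : ℂ) / 2)

lemma norm_exp_sub_exp_le (a b : ℝ) :
    ‖Complex.exp ((a : ℝ) * Complex.I) - Complex.exp ((b : ℝ) * Complex.I)‖ ≤ |a - b| := by
  have e : Complex.exp ((a : ℝ) * Complex.I) - Complex.exp ((b : ℝ) * Complex.I) =
      Complex.exp ((b : ℝ) * Complex.I) * (Complex.exp (Complex.I * ((a - b : ℝ) : ℂ)) - 1) := by
    rw [mul_sub, ← Complex.exp_add, mul_one]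
    congr 2
    push_cast
    ring
  rw [e, norm_mul, Complex.norm_exp_ofReal_mul_I, one_mul]
  exact Real.norm_exp_I_mul_ofReal_sub_one_le

/-- Gaussian laws are preserved under `L²` limits. -/
lemma GLaw.of_tendsto {Y : ℕ → Ω → ℝ} {Z : Ω → ℝ} (hY : ∀ n, MemLp (Y n) 2 P)
    (hZ : MemLp Z 2 P) (hG : ∀ n, GLaw P (Y n))
    (h : Tendsto (fun n => (hY n).toLp (Y n)) atTop (𝓝 (hZ.toLp Z))) : GLaw P Z := by
  have hYi : ∀ n, Integrable (Y n) P := fun n => (hY n).integrable (by norm_num)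
  have hZi : Integrable Z P := hZ.integrable (by norm_num)
  have hone : MemLp (fun _ : Ω => (1 : ℝ)) 2 P := memLp_const 1
  -- first moment
  have m1 : Tendsto (fun n => ∫ ω, Y n ω ∂P) atTop (𝓝 (∫ ω, Z ω ∂P)) := by
    have := (tendsto_const_nhds (x := hone.toLp _)).inner (𝕜 := ℝ) h
    simp only [inner_toLp_real, one_mul] at this
    exact this
  have m2 : Tendsto (fun n => ∫ ω, Y n ω ^ 2 ∂P) atTop (𝓝 (∫ ω, Z ω ^ 2 ∂P)) := by
    have := h.inner (𝕜 := ℝ) h
    simp only [inner_toLp_real] at this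
    simpa only [sq] using this
  -- L1 convergence
  have l1 : ∀ n, ∫ ω, |Y n ω - Z ω| ∂P ≤ ‖(hY n).toLp (Y n) - hZ.toLp Z‖ := by
    intro n
    have hd : MemLp (fun ω => Y n ω - Z ω) 2 P := (hY n).sub hZ
    have e1 : (hY n).toLp (Y n) - hZ.toLp Z = hd.toLp _ := (MemLp.toLp_sub (hY n) hZ).symm
    rw [e1]
    have ha : MemLp (fun ω => |Y n ω - Z ω|) 2 P := hd.abs
    have h3 : ∫ ω, |Y n ω - Z ω| ∂P = inner ℝ (hone.toLp _) (ha.toLp _) := by
      rw [inner_toLp_real]; simp
    rw [h3]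
    refine (real_inner_le_norm _ _).trans ?_
    have h4 : ‖hone.toLp (fun _ : Ω => (1 : ℝ))‖ = 1 := by
      have : ‖hone.toLp (fun _ : Ω => (1 : ℝ))‖ ^ 2 = 1 := by
        rw [← real_inner_self_eq_norm_sq, inner_toLp_real]; simp
      nlinarith [norm_nonneg (hone.toLp (fun _ : Ω => (1 : ℝ)))]
    have h5 : ‖ha.toLp _‖ = ‖hd.toLp _‖ := by
      have : ‖ha.toLp _‖ ^ 2 = ‖hd.toLp _‖ ^ 2 := by
        rw [← real_inner_self_eq_norm_sq, ← real_inner_self_eq_norm_sq, inner_toLp_real,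
          inner_toLp_real]
        simp
      exact (sq_eq_sq₀ (norm_nonneg _) (norm_nonneg _)).1 this
    rw [h4, h5, one_mul]
  have hexpi : ∀ W : Ω → ℝ, AEStronglyMeasurable W P →
      Integrable (fun ω => Complex.exp ((W ω : ℝ) * Complex.I)) P := by
    intro W hW
    refine (integrable_const (1 : ℝ)).mono' ?_
      (Filter.Eventually.of_forall fun ω => (Complex.norm_exp_ofReal_mul_I _).le)
    exact (by fun_prop : Continuous fun r : ℝ => Complex.exp ((r : ℝ) *
      Complex.I)).comp_aestronglyMeasurable hW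
  have m3 : Tendsto (fun n => ∫ ω, Complex.exp ((Y n ω : ℝ) * Complex.I) ∂P) atTop
      (𝓝 (∫ ω, Complex.exp ((Z ω : ℝ) * Complex.I) ∂P)) := by
    rw [tendsto_iff_norm_sub_tendsto_zero]
    have h0 : Tendsto (fun n => ‖(hY n).toLp (Y n) - hZ.toLp Z‖) atTop (𝓝 0) := by
      have := (h.sub_const (hZ.toLp Z)).norm
      simpa using this
    refine squeeze_zero (fun n => norm_nonneg _) (fun n => ?_) h0
    rw [← integral_sub (hexpi _ (hY n).1) (hexpi _ hZ.1)]
    refine (norm_integral_le_of_norm_le ((hYi n).sub hZi).abs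
      (Filter.Eventually.of_forall fun ω => norm_exp_sub_exp_le _ _)).trans (l1 n)
  refine ⟨?_, ?_⟩
  · refine tendsto_nhds_unique m1 ?_
    simp only [fun n => (hG n).1]
    exact tendsto_const_nhds
  · refine tendsto_nhds_unique m3 ?_
    simp only [fun n => (hG n).2]
    have hc : Continuous fun r : ℝ => Complex.exp (-((r : ℝ) : ℂ) / 2) := by fun_prop
    exact (hc.tendsto _).comp m2

/-- A family all of whose linear combinations are centred Gaussian is a Gaussian process. -/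
lemma isGaussianProcess_of_GLaw {T : Type*} {F : T → Ω → ℝ} (hm : ∀ t, Measurable (F t))
    (h2 : ∀ t, MemLp (F t) 2 P)
    (h : ∀ (s : Finset T) (c : T → ℝ), GLaw P (fun ω => ∑ t ∈ s, c t * F t ω)) :
    IsGaussianProcess F P := by
  classical
  refine ⟨fun I => ?_⟩
  have hmeas : Measurable (fun ω => I.restrict (F · ω)) :=
    measurable_pi_lambda _ fun i => hm i
  rw [hasGaussianLaw_iff_charFunDual_map_eq hmeas.aemeasurable]
  intro L
  set c : T → ℝ := fun t => if ht : t ∈ I then L (Pi.single ⟨t, ht⟩ 1) else 0 with hc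
  have e : ∀ ω, L (I.restrict (F · ω)) = ∑ t ∈ I, c t * F t ω := by
    intro ω
    have : I.restrict (F · ω) = ∑ i : I, (F i ω) • (Pi.single i (1 : ℝ) : I → ℝ) := by
      ext j
      simp [Finset.sum_apply, Pi.single_apply, Finset.restrict]
    rw [this, map_sum, ← Finset.sum_coe_sort I]
    refine Finset.sum_congr rfl fun i _ => ?_
    rw [map_smul, smul_eq_mul, mul_comm]
    simp [hc]
  rw [charFunDual_apply, integral_map hmeas.aemeasurable
    (by fun_prop : Continuous fun v : I → ℝ => Complex.exp ((L v : ℝ) *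
        Complex.I)).aestronglyMeasurable]
  have hY2 : MemLp (fun ω => ∑ t ∈ I, c t * F t ω) 2 P :=
    memLp_finsetSum _ fun t _ => (h2 t).const_mul _
  have eL : (L ∘ fun ω => I.restrict (F · ω)) = fun ω => ∑ t ∈ I, c t * F t ω := by
    funext ω; exact e ω
  rw [eL]
  simp only [e]
  obtain ⟨g1, g2⟩ := h I c
  rw [g2, g1, variance_eq_sub hY2]
  simp only [Pi.pow_apply]
  rw [g1]
  congr 1
  push_cast
  ring

end Pool.Agent.Lib_helper70.Berry
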