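import Pool.Agent.Lib_helper67.Berry.Green

/-!
# The spectral measure of a random solution of the Helmholtz equation sits on the unit sphere
-/

set_option linter.unusedSectionVars false

open MeasureTheory Set Filter Topology ProbabilityTheory InnerProductSpace Laplacian
open scoped ENNReal RealInnerProductSpace

namespace Pool.Agent.Lib_helper70.Berry

variable {E : Type*} [NormedAddCommGroup E] [InnerProductSpace ℝ E] [FiniteDimensional ℝ E]
  [MeasurableSpace E] [BorelSpace E]

/-! ### Plane waves -/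

lemma contDiff_cos_inner (k : E) : ContDiff ℝ 2 (fun x : E => Real.cos ⟪k, x⟫) := by
  have : ContDiff ℝ 2 (fun x : E => (⟪k, x⟫ : ℝ)) := (innerSL ℝ k).contDiff
  exact Real.contDiff_cos.comp this

lemma contDiff_sin_inner (k : E) : ContDiff ℝ 2 (fun x : E => Real.sin ⟪k, x⟫) := by
  have : ContDiff ℝ 2 (fun x : E => (⟪k, x⟫ : ℝ)) := (innerSL ℝ k).contDiff
  exact Real.contDiff_sin.comp this

lemma fderiv_cos_inner (k v : E) : (fun y : E => fderiv ℝ (fun x : E => Real.cos ⟪k, x⟫) y v) =
    fun y => -(⟪k, v⟫ * Real.sin ⟪k, y⟫) := by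
  funext y
  have h1 : HasFDerivAt (fun x : E => (⟪k, x⟫ : ℝ)) (innerSL ℝ k) y := (innerSL ℝ k).hasFDerivAt
  have h2 := h1.cos
  rw [h2.fderiv]
  simp
  ring

lemma fderiv_sin_inner (k v : E) : (fun y : E => fderiv ℝ (fun x : E => Real.sin ⟪k, x⟫) y v) =
    fun y => ⟪k, v⟫ * Real.cos ⟪k, y⟫ := by
  funext y
  have h1 : HasFDerivAt (fun x : E => (⟪k, x⟫ : ℝ)) (innerSL ℝ k) y := (innerSL ℝ k).hasFDerivAt
  have h2 := h1.sin
  rw [h2.fderiv]
  simp
  ring

lemma laplacian_cos_inner (k x : E) :
    (Δ (fun x : E => Real.cos ⟪k, x⟫)) x = -(‖k‖ ^ 2 * Real.cos ⟪k, x⟫) := by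
  rw [Berry67.laplacian_eq_sum_fderiv (contDiff_cos_inner k)]
  have e : ∀ v : E, fderiv ℝ (fun y : E => fderiv ℝ (fun x : E => Real.cos ⟪k, x⟫) y v) x v =
      -(⟪k, v⟫ ^ 2 * Real.cos ⟪k, x⟫) := by
    intro v
    rw [fderiv_cos_inner]
    have h1 : HasFDerivAt (fun x : E => (⟪k, x⟫ : ℝ)) (innerSL ℝ k) x :=
      (innerSL ℝ k).hasFDerivAt
    have h2 := (h1.sin.const_mul ⟪k, v⟫).neg
    have h3 : fderiv ℝ (fun y : E => -(⟪k, v⟫ * Real.sin ⟪k, y⟫)) x = _ := h2.fderiv
    rw [h3]
    simp
    ring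
  simp only [e]
  rw [Finset.sum_neg_distrib, ← Finset.sum_mul]
  have := (stdOrthonormalBasis ℝ E).sum_sq_inner_left k
  rw [this]

lemma laplacian_sin_inner (k x : E) :
    (Δ (fun x : E => Real.sin ⟪k, x⟫)) x = -(‖k‖ ^ 2 * Real.sin ⟪k, x⟫) := by
  rw [Berry67.laplacian_eq_sum_fderiv (contDiff_sin_inner k)]
  have e : ∀ v : E, fderiv ℝ (fun y : E => fderiv ℝ (fun x : E => Real.sin ⟪k, x⟫) y v) x v =
      -(⟪k, v⟫ ^ 2 * Real.sin ⟪k, x⟫) := by
    intro v
    rw [fderiv_sin_inner]
    have h1 : HasFDerivAt (fun x : E => (⟪k, x⟫ : ℝ)) (innerSL ℝ k) x :=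
      (innerSL ℝ k).hasFDerivAt
    have h2 := (h1.cos.const_mul ⟪k, v⟫)
    have h3 : fderiv ℝ (fun y : E => ⟪k, v⟫ * Real.cos ⟪k, y⟫) x = _ := h2.fderiv
    rw [h3]
    simp
    ring
  simp only [e]
  rw [Finset.sum_neg_distrib, ← Finset.sum_mul]
  have := (stdOrthonormalBasis ℝ E).sum_sq_inner_left k
  rw [this]

lemma continuous_laplacian {χ : E → ℝ} (hχ : ContDiff ℝ 2 χ) : Continuous (Δ χ) := by
  have : (Δ χ) = fun x => ∑ i, fderiv ℝ (fun y => fderiv ℝ χ y (stdOrthonormalBasis ℝ E i)) x
      (stdOrthonormalBasis ℝ E i) := by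
    funext x
    exact Berry67.laplacian_eq_sum_fderiv hχ x
  rw [this]
  refine continuous_finsetSum _ fun i _ => ?_
  exact ((Berry67.contDiff_fderiv_apply hχ _).continuous_fderiv (by norm_num)).clm_apply
    continuous_const

lemma hasCompactSupport_laplacian {χ : E → ℝ} (hχ : ContDiff ℝ 2 χ) (hs : HasCompactSupport χ) :
    HasCompactSupport (Δ χ) := by
  have : (Δ χ) = fun x => ∑ i, fderiv ℝ (fun y => fderiv ℝ χ y (stdOrthonormalBasis ℝ E i)) x
      (stdOrthonormalBasis ℝ E i) := by
    funext x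
    exact Berry67.laplacian_eq_sum_fderiv hχ x
  rw [this]
  refine HasCompactSupport.intro hs.isCompact (fun x hx => ?_)
  refine Finset.sum_eq_zero fun i _ => ?_
  have h1 : HasCompactSupport (fun y => fderiv ℝ χ y (stdOrthonormalBasis ℝ E i)) :=
    hs.fderiv_apply (𝕜 := ℝ) _
  have hsub1 : tsupport (fun y => fderiv ℝ χ y (stdOrthonormalBasis ℝ E i)) ⊆ tsupport χ :=
    tsupport_fderiv_apply_subset ℝ _
  have hsub2 : tsupport (fun x => fderiv ℝ (fun y => fderiv ℝ χ y (stdOrthonormalBasis ℝ E i)) x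
      (stdOrthonormalBasis ℝ E i)) ⊆ tsupport (fun y => fderiv ℝ χ y
        (stdOrthonormalBasis ℝ E i)) := tsupport_fderiv_apply_subset ℝ _
  exact image_eq_zero_of_notMem_tsupport (f := fun x => fderiv ℝ (fun y => fderiv ℝ χ y
    (stdOrthonormalBasis ℝ E i)) x (stdOrthonormalBasis ℝ E i)) fun h => hx (hsub1 (hsub2 h))

/-- the operator `Δ + 1` -/
noncomputable def helm (χ : E → ℝ) (x : E) : ℝ := (Δ χ) x + χ x

lemma continuous_helm {χ : E → ℝ} (hχ : ContDiff ℝ 2 χ) : Continuous (helm χ) :=
  (continuous_laplacian hχ).add hχ.continuous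

lemma hasCompactSupport_helm {χ : E → ℝ} (hχ : ContDiff ℝ 2 χ) (hs : HasCompactSupport χ) :
    HasCompactSupport (helm χ) :=
  (hasCompactSupport_laplacian hχ hs).add hs

lemma integrable_helm {χ : E → ℝ} (hχ : ContDiff ℝ 2 χ) (hs : HasCompactSupport χ) :
    Integrable (helm χ) :=
  (continuous_helm hχ).integrable_of_hasCompactSupport (hasCompactSupport_helm hχ hs)

lemma integral_mul_helm {f χ : E → ℝ} (hf : ContDiff ℝ 2 f) (hχ : ContDiff ℝ 2 χ)
    (hs : HasCompactSupport χ) : ∫ x, f x * helm χ x = ∫ x, ((Δ f) x + f x) * χ x := by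
  unfold helm
  have i1 : Integrable (fun x => f x * (Δ χ) x) :=
    (hf.continuous.mul (continuous_laplacian hχ)).integrable_of_hasCompactSupport
      (hasCompactSupport_laplacian hχ hs).mul_left
  have i2 : Integrable (fun x => f x * χ x) :=
    (hf.continuous.mul hχ.continuous).integrable_of_hasCompactSupport hs.mul_left
  have i3 : Integrable (fun x => (Δ f) x * χ x) :=
    ((continuous_laplacian hf).mul hχ.continuous).integrable_of_hasCompactSupport hs.mul_left
  simp only [mul_add, add_mul]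
  rw [integral_add i1 i2, integral_add i3 i2, Berry67.integral_mul_laplacian hf hχ hs]

lemma integral_cos_helm {χ : E → ℝ} (hχ : ContDiff ℝ 2 χ) (hs : HasCompactSupport χ) (k : E) :
    ∫ x, Real.cos ⟪k, x⟫ * helm χ x = (1 - ‖k‖ ^ 2) * ∫ x, Real.cos ⟪k, x⟫ * χ x := by
  rw [integral_mul_helm (contDiff_cos_inner k) hχ hs, ← integral_const_mul]
  refine integral_congr_ae (Filter.Eventually.of_forall fun x => ?_)
  simp only [laplacian_cos_inner]
  ring

/-! ### Random fields -/

variable {Ω : Type*} [MeasurableSpace Ω] {P : Measure Ω} [IsProbabilityMeasure P]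

/-- Fubini for the second moment of a linear statistic of a random field. -/
lemma integral_sq_statistic {F : E → Ω → ℝ} (hFm : Measurable (Function.uncurry F)) {C : ℝ}
    (hF2 : ∀ x, MemLp (F x) 2 P) (hC : ∀ x, ∫ ω, F x ω ^ 2 ∂P ≤ C) {g : E → ℝ}
    (hg : Integrable g) (hgm : Measurable g) :
    ∫ ω, (∫ x, F x ω * g x) ^ 2 ∂P =
      ∫ p : E × E, g p.1 * g p.2 * ∫ ω, F p.1 ω * F p.2 ω ∂P := by
  set f : (E × E) × Ω → ℝ := fun q => (F q.1.1 q.2 * g q.1.1) * (F q.1.2 q.2 * g q.1.2) with hf
  have hfm : Measurable f := by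
    have m1 : Measurable fun q : (E × E) × Ω => F q.1.1 q.2 :=
      hFm.comp ((measurable_fst.comp measurable_fst).prodMk measurable_snd)
    have m2 : Measurable fun q : (E × E) × Ω => F q.1.2 q.2 :=
      hFm.comp ((measurable_snd.comp measurable_fst).prodMk measurable_snd)
    have m3 : Measurable fun q : (E × E) × Ω => g q.1.1 :=
      hgm.comp (measurable_fst.comp measurable_fst)
    have m4 : Measurable fun q : (E × E) × Ω => g q.1.2 :=
      hgm.comp (measurable_snd.comp measurable_fst)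
    exact (m1.mul m3).mul (m2.mul m4)
  have hslice : ∀ p : E × E, Integrable (fun ω => f (p, ω)) P := by
    intro p
    have h1 : Integrable (fun ω => F p.1 ω * F p.2 ω) P := (hF2 p.1).integrable_mul (hF2 p.2)
    refine (h1.mul_const (g p.1 * g p.2)).congr (Filter.Eventually.of_forall fun ω => ?_)
    simp only [hf]
    ring
  have hbound : ∀ p : E × E, ∫ ω, ‖f (p, ω)‖ ∂P ≤ ‖g p.1‖ * ‖g p.2‖ * C := by
    intro p
    have h1 : Integrable (fun ω => F p.1 ω ^ 2) P := (hF2 p.1).integrable_sq
    have h2 : Integrable (fun ω => F p.2 ω ^ 2) P := (hF2 p.2).integrable_sq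
    have h3 : ∀ ω, ‖f (p, ω)‖ ≤ ‖g p.1‖ * ‖g p.2‖ * ((F p.1 ω ^ 2 + F p.2 ω ^ 2) / 2) := by
      intro ω
      simp only [hf]
      rw [norm_mul, norm_mul, norm_mul]
      have : ‖F p.1 ω‖ * ‖F p.2 ω‖ ≤ (F p.1 ω ^ 2 + F p.2 ω ^ 2) / 2 := by
        rw [Real.norm_eq_abs, Real.norm_eq_abs]
        nlinarith [sq_nonneg (|F p.1 ω| - |F p.2 ω|), sq_abs (F p.1 ω), sq_abs (F p.2 ω)]
      calc ‖F p.1 ω‖ * ‖g p.1‖ * (‖F p.2 ω‖ * ‖g p.2‖)
          = ‖g p.1‖ * ‖g p.2‖ * (‖F p.1 ω‖ * ‖F p.2 ω‖) := by ring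
        _ ≤ _ := mul_le_mul_of_nonneg_left this (by positivity)
    calc ∫ ω, ‖f (p, ω)‖ ∂P
        ≤ ∫ ω, ‖g p.1‖ * ‖g p.2‖ * ((F p.1 ω ^ 2 + F p.2 ω ^ 2) / 2) ∂P :=
          integral_mono (hslice p).norm (((h1.add h2).div_const 2).const_mul _) h3
      _ = ‖g p.1‖ * ‖g p.2‖ * ((∫ ω, F p.1 ω ^ 2 ∂P + ∫ ω, F p.2 ω ^ 2 ∂P) / 2) := by
          rw [integral_const_mul, integral_div, integral_add h1 h2]
      _ ≤ _ := by
          refine mul_le_mul_of_nonneg_left ?_ (by positivity)
          have := hC p.1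
          have := hC p.2
          linarith
  have hint : Integrable f ((volume.prod volume).prod P) := by
    rw [integrable_prod_iff hfm.aestronglyMeasurable]
    refine ⟨Filter.Eventually.of_forall hslice, ?_⟩
    refine Integrable.mono' ((hg.norm.mul_prod hg.norm).mul_const C) ?_ ?_
    · exact (hfm.stronglyMeasurable.norm.integral_prod_right').aestronglyMeasurable
    · refine Filter.Eventually.of_forall fun p => ?_
      rw [Real.norm_of_nonneg (integral_nonneg fun ω => norm_nonneg _)]
      exact hbound p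
  have e1 : ∀ ω, (∫ x, F x ω * g x) ^ 2 = ∫ p : E × E, f (p, ω) ∂(volume.prod volume) := by
    intro ω
    rw [sq]
    exact (integral_prod_mul (fun x => F x ω * g x) (fun x => F x ω * g x)).symm
  simp only [e1]
  rw [integral_integral_swap (f := fun ω p => f (p, ω)) hint.swap]
  refine integral_congr_ae (Filter.Eventually.of_forall fun p => ?_)
  simp only [hf]
  rw [← integral_const_mul]
  refine integral_congr_ae (Filter.Eventually.of_forall fun ω => ?_)
  simp only
  ring

/-- The spectral measure of a random solution of the Helmholtz equation sits on the sphere. -/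
theorem spectral_on_sphere {F : E → Ω → ℝ} (hFm : Measurable (Function.uncurry F))
    (hF2 : ∀ x, MemLp (F x) 2 P)
    (hHelm : ∀ ω, ContDiff ℝ 2 (fun x => F x ω) ∧ ∀ x, (Δ (fun y => F y ω)) x = -F x ω)
    {μ : Measure E} [IsFiniteMeasure μ]
    (hμ : ∀ x y, ((∫ ω, F x ω * F y ω ∂P : ℝ) : ℂ) = charFun μ (y - x)) :
    ∀ᵐ k ∂μ, ‖k‖ = 1 := by
  have hcov : ∀ x y, ∫ ω, F x ω * F y ω ∂P =
      ∫ k, (Real.cos ⟪k, x⟫ * Real.cos ⟪k, y⟫ + Real.sin ⟪k, x⟫ * Real.sin ⟪k, y⟫) ∂μ := by
    intro x y
    have h1 := congrArg Complex.re (hμ x y)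
    rw [Complex.ofReal_re] at h1
    rw [h1, charFun_apply]
    have h2 : Integrable (fun k : E => Complex.exp ((⟪k, y - x⟫ : ℝ) * Complex.I)) μ := by
      refine Integrable.mono' (integrable_const (1 : ℝ)) ?_ ?_
      · exact (by fun_prop : Continuous fun k : E => Complex.exp ((⟪k, y - x⟫ : ℝ) *
          Complex.I)).aestronglyMeasurable
      · exact Filter.Eventually.of_forall fun x => (Complex.norm_exp_ofReal_mul_I _).le
    have h3 := Complex.reCLM.integral_comp_comm h2
    simp only [Complex.reCLM_apply] at h3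
    rw [← h3]
    refine integral_congr_ae (Filter.Eventually.of_forall fun k => ?_)
    simp only [Complex.exp_ofReal_mul_I_re]
    rw [inner_sub_right, Real.cos_sub]
    ring
  have hC : ∀ x, ∫ ω, F x ω ^ 2 ∂P ≤ μ.real univ := by
    intro x
    have h1 := hμ x x
    rw [sub_self, charFun_zero] at h1
    have h2 : ∫ ω, F x ω * F x ω ∂P = μ.real univ := by exact_mod_cast h1
    simp only [sq]
    exact h2.le
  -- the statistic of a test function vanishes
  have key : ∀ χ : E → ℝ, ContDiff ℝ 2 χ → HasCompactSupport χ →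
      ∀ᵐ k ∂μ, (1 - ‖k‖ ^ 2) * ∫ x, Real.cos ⟪k, x⟫ * χ x = 0 := by
    intro χ hχ hs
    have hg := integrable_helm hχ hs
    have hgc := continuous_helm hχ
    have h0 : ∫ ω, (∫ x, F x ω * helm χ x) ^ 2 ∂P = 0 := by
      have : ∀ ω, ∫ x, F x ω * helm χ x = 0 := by
        intro ω
        rw [integral_mul_helm (hHelm ω).1 hχ hs]
        simp only [(hHelm ω).2, neg_add_cancel, zero_mul, integral_zero]
      simp [this]
    rw [integral_sq_statistic hFm hF2 hC hg hgc.measurable] at h0
    simp only [hcov] at h0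
    -- swap
    set c : E → ℝ := fun k => ∫ x, Real.cos ⟪k, x⟫ * helm χ x with hc
    set s : E → ℝ := fun k => ∫ x, Real.sin ⟪k, x⟫ * helm χ x with hs'
    have hswap : ∫ p : E × E, helm χ p.1 * helm χ p.2 *
        ∫ k, (Real.cos ⟪k, p.1⟫ * Real.cos ⟪k, p.2⟫ + Real.sin ⟪k, p.1⟫ * Real.sin ⟪k, p.2⟫) ∂μ =
        ∫ k, (c k ^ 2 + s k ^ 2) ∂μ := by
      simp only [← integral_const_mul]
      rw [Measure.volume_eq_prod, integral_integral_swap]
      · refine integral_congr_ae (Filter.Eventually.of_forall fun k => ?_)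
        simp only
        have i1 : Integrable (fun x : E => Real.cos ⟪k, x⟫ * helm χ x) := by
          refine hg.norm.mono' ((by fun_prop : Continuous fun x : E =>
            Real.cos ⟪k, x⟫).mul hgc).aestronglyMeasurable
            (Filter.Eventually.of_forall fun x => ?_)
          rw [norm_mul]
          exact mul_le_of_le_one_left (norm_nonneg _) (Real.abs_cos_le_one _)
        have i2 : Integrable (fun x : E => Real.sin ⟪k, x⟫ * helm χ x) := by
          refine hg.norm.mono' ((by fun_prop : Continuous fun x : E =>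
            Real.sin ⟪k, x⟫).mul hgc).aestronglyMeasurable
            (Filter.Eventually.of_forall fun x => ?_)
          rw [norm_mul]
          exact mul_le_of_le_one_left (norm_nonneg _) (Real.abs_sin_le_one _)
        have e1 : c k ^ 2 = ∫ p : E × E, (Real.cos ⟪k, p.1⟫ * helm χ p.1) *
            (Real.cos ⟪k, p.2⟫ * helm χ p.2) ∂(volume.prod volume) := by
          rw [sq]
          exact (integral_prod_mul (fun x : E => Real.cos ⟪k, x⟫ * helm χ x)
            (fun x : E => Real.cos ⟪k, x⟫ * helm χ x)).symm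
        have e2 : s k ^ 2 = ∫ p : E × E, (Real.sin ⟪k, p.1⟫ * helm χ p.1) *
            (Real.sin ⟪k, p.2⟫ * helm χ p.2) ∂(volume.prod volume) := by
          rw [sq]
          exact (integral_prod_mul (fun x : E => Real.sin ⟪k, x⟫ * helm χ x)
            (fun x : E => Real.sin ⟪k, x⟫ * helm χ x)).symm
        rw [e1, e2, ← integral_add (i1.mul_prod i1) (i2.mul_prod i2)]
        refine integral_congr_ae (Filter.Eventually.of_forall fun p => ?_)
        simp only
        ring
      · refine Integrable.mono' (((hg.norm.mul_prod hg.norm).const_mul 2).mul_prod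
          (integrable_const (1 : ℝ))) ?_ ?_
        · have : Continuous (Function.uncurry fun (p : E × E) (k : E) =>
            helm χ p.1 * helm χ p.2 * (Real.cos ⟪k, p.1⟫ * Real.cos ⟪k, p.2⟫ +
              Real.sin ⟪k, p.1⟫ * Real.sin ⟪k, p.2⟫)) := by
            simp only [Function.uncurry_def]
            fun_prop
          exact this.aestronglyMeasurable
        · refine Filter.Eventually.of_forall fun q => ?_
          simp only [Function.uncurry]
          rw [norm_mul, norm_mul, mul_one]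
          have h1 : ‖Real.cos ⟪q.2, q.1.1⟫ * Real.cos ⟪q.2, q.1.2⟫ +
              Real.sin ⟪q.2, q.1.1⟫ * Real.sin ⟪q.2, q.1.2⟫‖ ≤ 2 := by
            rw [← Real.cos_sub]
            exact (Real.abs_cos_le_one _).trans one_le_two
          calc ‖helm χ q.1.1‖ * ‖helm χ q.1.2‖ * _ ≤ ‖helm χ q.1.1‖ * ‖helm χ q.1.2‖ * 2 :=
                mul_le_mul_of_nonneg_left h1 (by positivity)
            _ = _ := by ring
    rw [hswap] at h0
    have hcc : Continuous c := by
      refine continuous_of_dominated (bound := fun x => ‖helm χ x‖) ?_ ?_ hg.norm ?_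
      · exact fun k => ((by fun_prop : Continuous fun x : E =>
            Real.cos ⟪k, x⟫).mul hgc).aestronglyMeasurable
      · refine fun k => Filter.Eventually.of_forall fun x => ?_
        rw [norm_mul]
        exact mul_le_of_le_one_left (norm_nonneg _) (Real.abs_cos_le_one _)
      · exact Filter.Eventually.of_forall fun x => by fun_prop
    have hsc : Continuous s := by
      refine continuous_of_dominated (bound := fun x => ‖helm χ x‖) ?_ ?_ hg.norm ?_
      · exact fun k => ((by fun_prop : Continuous fun x : E =>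
            Real.sin ⟪k, x⟫).mul hgc).aestronglyMeasurable
      · refine fun k => Filter.Eventually.of_forall fun x => ?_
        rw [norm_mul]
        exact mul_le_of_le_one_left (norm_nonneg _) (Real.abs_sin_le_one _)
      · exact Filter.Eventually.of_forall fun x => by fun_prop
    have hcb : ∀ k, |c k| ≤ ∫ x, ‖helm χ x‖ := by
      intro k
      refine (norm_integral_le_integral_norm (μ := (volume : Measure E))
        (fun x : E => Real.cos ⟪k, x⟫ * helm χ x)).trans ?_
      refine integral_mono_of_nonneg (Filter.Eventually.of_forall fun x => norm_nonneg _) hg.norm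
        (Filter.Eventually.of_forall fun x => ?_)
      simp only
      rw [norm_mul]
      exact mul_le_of_le_one_left (norm_nonneg _) (Real.abs_cos_le_one _)
    have hsb : ∀ k, |s k| ≤ ∫ x, ‖helm χ x‖ := by
      intro k
      refine (norm_integral_le_integral_norm (μ := (volume : Measure E))
        (fun x : E => Real.sin ⟪k, x⟫ * helm χ x)).trans ?_
      refine integral_mono_of_nonneg (Filter.Eventually.of_forall fun x => norm_nonneg _) hg.norm
        (Filter.Eventually.of_forall fun x => ?_)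
      simp only
      rw [norm_mul]
      exact mul_le_of_le_one_left (norm_nonneg _) (Real.abs_sin_le_one _)
    have hint : Integrable (fun k => c k ^ 2 + s k ^ 2) μ := by
      refine Integrable.mono' (integrable_const (2 * (∫ x, ‖helm χ x‖) ^ 2))
        ((hcc.pow 2).add (hsc.pow 2)).aestronglyMeasurable
        (Filter.Eventually.of_forall fun k => ?_)
      rw [Real.norm_of_nonneg (by positivity)]
      have h1 := sq_le_sq' (neg_le_of_abs_le (hcb k)) (le_of_abs_le (hcb k))
      have h2 := sq_le_sq' (neg_le_of_abs_le (hsb k)) (le_of_abs_le (hsb k))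
      linarith
    have hz := (integral_eq_zero_iff_of_nonneg (fun k => by positivity) hint).1 h0
    filter_upwards [hz] with k hk
    simp only [Pi.zero_apply] at hk
    have hck : c k = 0 := by nlinarith [sq_nonneg (c k), sq_nonneg (s k)]
    rw [← integral_cos_helm hχ hs k]
    exact hck
  -- use small bumps
  have hall : ∀ᵐ k ∂μ, ∀ n : ℕ, (1 - ‖k‖ ^ 2) * ∫ x, Real.cos ⟪k, x⟫ *
      (⟨1 / (2 * ((n : ℝ) + 1)), 1 / ((n : ℝ) + 1), by positivity, by
        apply one_div_lt_one_div_of_lt <;> linarith [(by positivity : 0 < (n : ℝ) + 1)]⟩ :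
        ContDiffBump (0 : E)) x = 0 := by
    rw [ae_all_iff]
    intro n
    exact key _ (ContDiffBump.contDiff _) (ContDiffBump.hasCompactSupport _)
  filter_upwards [hall] with k hk
  obtain ⟨n, hn⟩ := exists_nat_ge ‖k‖
  have h1 := hk n
  set φ : ContDiffBump (0 : E) := ⟨1 / (2 * ((n : ℝ) + 1)), 1 / ((n : ℝ) + 1), by positivity, by
        apply one_div_lt_one_div_of_lt <;> linarith [(by positivity : 0 < (n : ℝ) + 1)]⟩ with hφ
  have hn1 : (0 : ℝ) < (n : ℝ) + 1 := by positivity
  have hpos : 0 < ∫ x, Real.cos ⟪k, x⟫ * φ x := by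
    have hle : ∀ x, Real.cos 1 * φ x ≤ Real.cos ⟪k, x⟫ * φ x := by
      intro x
      by_cases hx : x ∈ Metric.ball (0 : E) (1 / ((n : ℝ) + 1))
      · rw [mem_ball_zero_iff] at hx
        refine mul_le_mul_of_nonneg_right ?_ φ.nonneg
        have hin : |⟪k, x⟫| ≤ 1 := by
          calc |⟪k, x⟫| ≤ ‖k‖ * ‖x‖ := abs_real_inner_le_norm _ _
            _ ≤ ((n : ℝ) + 1) * (1 / ((n : ℝ) + 1)) := by
                refine mul_le_mul (hn.trans (by linarith)) hx.le (norm_nonneg _) hn1.le
            _ = 1 := by field_simp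
        rw [← Real.cos_abs ⟪k, x⟫]
        exact Real.cos_le_cos_of_nonneg_of_le_pi (abs_nonneg _) (by linarith [Real.pi_gt_three])
          hin
      · have : φ x = 0 := by
          by_contra hne
          have : x ∈ Function.support φ := hne
          rw [φ.support_eq] at this
          exact hx this
        rw [this, mul_zero, mul_zero]
    have i1 : Integrable (fun x => Real.cos ⟪k, x⟫ * φ x) :=
      ((by fun_prop : Continuous fun x : E => Real.cos ⟪k, x⟫).mul
        φ.continuous).integrable_of_hasCompactSupport φ.hasCompactSupport.mul_left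
    have i2 : Integrable (fun x => Real.cos 1 * φ x) := φ.integrable.const_mul _
    calc 0 < Real.cos 1 * ∫ x, φ x := mul_pos Real.cos_one_pos φ.integral_pos
      _ = ∫ x, Real.cos 1 * φ x := (integral_const_mul _ _).symm
      _ ≤ _ := integral_mono i2 i1 hle
  have h2 : 1 - ‖k‖ ^ 2 = 0 := by
    rcases mul_eq_zero.1 h1 with h | h
    · exact h
    · exact absurd h hpos.ne'
  have : ‖k‖ ^ 2 = 1 ^ 2 := by linarith
  exact (sq_eq_sq₀ (norm_nonneg _) zero_le_one).1 this

end Pool.Agent.Lib_helper70.Berry
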