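import Mathlib

/-!
# Rotation invariant spectral measures on the unit sphere
-/

set_option linter.unusedSectionVars false

open MeasureTheory Set Filter Topology ProbabilityTheory
open scoped ENNReal RealInnerProductSpace Pointwise ComplexConjugate

namespace Pool.Agent.Lib_helper70.Berry

variable {E : Type*} [NormedAddCommGroup E] [InnerProductSpace ℝ E] [FiniteDimensional ℝ E]
  [MeasurableSpace E] [BorelSpace E]

/-- action of an isometry on the unit sphere -/
def rs (R : E ≃ₗᵢ[ℝ] E) (w : Metric.sphere (0 : E) 1) : Metric.sphere (0 : E) 1 :=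
  ⟨R w, by
    rw [mem_sphere_zero_iff_norm, R.norm_map]
    exact mem_sphere_zero_iff_norm.1 w.2⟩

lemma continuous_rs (R : E ≃ₗᵢ[ℝ] E) : Continuous (rs R) :=
  Continuous.subtype_mk (R.continuous.comp continuous_subtype_val) _

lemma measurePreserving_rs (R : E ≃ₗᵢ[ℝ] E) :
    MeasurePreserving (rs R) (volume : Measure E).toSphere (volume : Measure E).toSphere := by
  refine ⟨(continuous_rs R).measurable, ?_⟩
  ext s hs
  rw [Measure.map_apply (continuous_rs R).measurable hs,
    Measure.toSphere_apply' _ ((continuous_rs R).measurable hs), Measure.toSphere_apply' _ hs]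
  congr 1
  have e : Ioo (0 : ℝ) 1 • ((↑) '' (rs R ⁻¹' s) : Set E) = R ⁻¹' (Ioo (0 : ℝ) 1 • ((↑) '' s)) := by
    ext x
    simp only [Set.mem_smul, Set.mem_image, Set.mem_preimage]
    constructor
    · rintro ⟨r, hr, _, ⟨w, hw, rfl⟩, rfl⟩
      exact ⟨r, hr, R w, ⟨rs R w, hw, rfl⟩, by rw [map_smul]⟩
    · rintro ⟨r, hr, _, ⟨w, hw, rfl⟩, h⟩
      have hw2 : rs R (rs R.symm w) = w := by
        apply Subtype.ext
        simp [rs]
      refine ⟨r, hr, R.symm w, ⟨rs R.symm w, by rw [hw2]; exact hw, rfl⟩, ?_⟩
      rw [← map_smul, h, LinearIsometryEquiv.symm_apply_apply]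
  rw [e]
  exact R.measurePreserving.measure_preimage_equiv (f := R.toMeasurableEquiv) _

/-- two vectors of the same norm are exchanged by an isometry -/
lemma exists_isometry_map {x y : E} (h : ‖x‖ = ‖y‖) : ∃ R : E ≃ₗᵢ[ℝ] E, R x = y :=
  ⟨(ℝ ∙ (x - y))ᗮ.reflection, Submodule.reflection_sub h⟩

/-- The covariance function of the random wave: the Fourier transform of the normalised surface
measure of the unit sphere. -/
noncomputable def waveK (x : E) : ℝ :=
  ⨍ w : Metric.sphere (0 : E) 1, Real.cos ⟪x, (w : E)⟫ ∂(volume : Measure E).toSphere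

lemma cexp_inner_integrable (x : E) :
    Integrable (fun w : Metric.sphere (0 : E) 1 => Complex.exp ((⟪x, (w : E)⟫ : ℝ) * Complex.I))
      (volume : Measure E).toSphere := by
  refine Integrable.mono' (integrable_const (1 : ℝ)) ?_ ?_
  · exact (by fun_prop : Continuous fun w : Metric.sphere (0 : E) 1 =>
      Complex.exp ((⟪x, (w : E)⟫ : ℝ) * Complex.I)).aestronglyMeasurable
  · exact Filter.Eventually.of_forall fun x => (Complex.norm_exp_ofReal_mul_I _).le

/-- unnormalised complex version -/
noncomputable def sphFT (x : E) : ℂ :=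
  ∫ w : Metric.sphere (0 : E) 1, Complex.exp ((⟪x, (w : E)⟫ : ℝ) * Complex.I)
    ∂(volume : Measure E).toSphere

lemma sphFT_map (R : E ≃ₗᵢ[ℝ] E) (x : E) : sphFT (R x) = sphFT x := by
  unfold sphFT
  have h1 := (measurePreserving_rs R).integral_comp'
    (f := (Homeomorph.mk ⟨rs R, rs R.symm, fun w => by apply Subtype.ext; simp [rs],
      fun w => by apply Subtype.ext; simp [rs]⟩ (continuous_rs R)
      (continuous_rs R.symm)).toMeasurableEquiv)
    (fun w : Metric.sphere (0 : E) 1 => Complex.exp ((⟪R x, (w : E)⟫ : ℝ) * Complex.I))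
  rw [← h1]
  refine integral_congr_ae (Filter.Eventually.of_forall fun w => ?_)
  change Complex.exp ((⟪R x, R (w : E)⟫ : ℝ) * Complex.I) = _
  rw [R.inner_map_map]

lemma sphFT_eq_of_norm {x y : E} (h : ‖x‖ = ‖y‖) : sphFT x = sphFT y := by
  obtain ⟨R, hR⟩ := exists_isometry_map h
  rw [← hR, sphFT_map]

lemma sphFT_eq (x : E) : sphFT x =
    ((∫ w : Metric.sphere (0 : E) 1, Real.cos ⟪x, (w : E)⟫ ∂(volume : Measure E).toSphere : ℝ) :
      ℂ) := by
  have h1 : conj (sphFT x) = sphFT x := by
    have : conj (sphFT x) = sphFT (-x) := by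
      unfold sphFT
      rw [← integral_conj]
      refine integral_congr_ae (Filter.Eventually.of_forall fun w => ?_)
      simp only
      rw [← Complex.exp_conj]
      congr 1
      simp [inner_neg_left]
    rw [this]
    exact sphFT_eq_of_norm (norm_neg x)
  have h2 : sphFT x = ((sphFT x).re : ℂ) := (Complex.conj_eq_iff_re.1 h1).symm
  rw [h2]
  congr 1
  have h3 := Complex.reCLM.integral_comp_comm (cexp_inner_integrable x)
  simp only [Complex.reCLM_apply] at h3
  unfold sphFT
  rw [← h3]
  refine integral_congr_ae (Filter.Eventually.of_forall fun w => ?_)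
  simp only [Complex.exp_ofReal_mul_I_re]

lemma sphFT_eq_waveK (x : E) :
    sphFT x = (((volume : Measure E).toSphere.real univ * waveK x : ℝ) : ℂ) := by
  rw [sphFT_eq, waveK, average_eq, smul_eq_mul]
  congr 1
  rcases subsingleton_or_nontrivial E with hE | hE
  · have h0 : (volume : Measure E).toSphere = 0 := (Measure.toSphere_eq_zero_iff _).2 hE
    rw [h0]
    simp
  · have hne : (volume : Measure E).toSphere.real univ ≠ 0 := by
      intro h
      rw [measureReal_eq_zero_iff, Measure.measure_univ_eq_zero] at h
      exact Measure.toSphere_ne_zero _ h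
    rw [mul_inv_cancel_left₀ hne]

/-- A rotation invariant finite measure on the unit sphere has the Fourier transform of the
normalised surface measure, up to its mass. -/
theorem charFun_of_invariant {μ : Measure E} [IsFiniteMeasure μ] (hS : ∀ᵐ k ∂μ, ‖k‖ = 1)
    (hinv : ∀ (R : E ≃ₗᵢ[ℝ] E) (x : E), charFun μ (R x) = charFun μ x) (x : E) :
    charFun μ x = ((μ.real univ * waveK x : ℝ) : ℂ) := by
  set σ := (volume : Measure E).toSphere with hσ
  -- the double integral
  have key : (σ.real univ : ℂ) * charFun μ x = (μ.real univ : ℂ) * sphFT x := by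
    have e1 : ∫ w : Metric.sphere (0 : E) 1, charFun μ (‖x‖ • (w : E)) ∂σ =
        (σ.real univ : ℂ) * charFun μ x := by
      have : ∀ w : Metric.sphere (0 : E) 1, charFun μ (‖x‖ • (w : E)) = charFun μ x := by
        intro w
        have hw : ‖(w : E)‖ = 1 := mem_sphere_zero_iff_norm.1 w.2
        obtain ⟨R, hR⟩ := exists_isometry_map (x := x) (y := ‖x‖ • (w : E)) (by
          rw [norm_smul, hw, mul_one, norm_norm])
        rw [← hR, hinv]
      simp only [this]
      rw [integral_const, Complex.real_smul]
    have e2 : ∫ w : Metric.sphere (0 : E) 1, charFun μ (‖x‖ • (w : E)) ∂σ =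
        (μ.real univ : ℂ) * sphFT x := by
      have e3 : ∀ w : Metric.sphere (0 : E) 1, charFun μ (‖x‖ • (w : E)) =
          ∫ k, Complex.exp ((⟪‖x‖ • k, (w : E)⟫ : ℝ) * Complex.I) ∂μ := by
        intro w
        rw [charFun_apply]
        refine integral_congr_ae (Filter.Eventually.of_forall fun k => ?_)
        simp only [inner_smul_left, inner_smul_right, conj_trivial]
      simp only [e3]
      rw [integral_integral_swap]
      · have e4 : ∀ᵐ k ∂μ, ∫ w : Metric.sphere (0 : E) 1,
            Complex.exp ((⟪‖x‖ • k, (w : E)⟫ : ℝ) * Complex.I) ∂σ = sphFT x := by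
          filter_upwards [hS] with k hk
          exact sphFT_eq_of_norm (by rw [norm_smul, hk, mul_one, norm_norm])
        rw [integral_congr_ae e4, integral_const, Complex.real_smul]
      · refine Integrable.mono' (integrable_const (1 : ℝ)) ?_ ?_
        · have : Continuous (Function.uncurry fun (w : Metric.sphere (0 : E) 1) (k : E) =>
            Complex.exp ((⟪‖x‖ • k, (w : E)⟫ : ℝ) * Complex.I)) := by
            simp only [Function.uncurry_def]
            fun_prop
          exact this.aestronglyMeasurable
        · refine Filter.Eventually.of_forall fun q => ?_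
          simp only [Function.uncurry]
          exact (Complex.norm_exp_ofReal_mul_I _).le
    rw [← e1, e2]
  rcases subsingleton_or_nontrivial E with hE | hE
  · have h0 : μ = 0 := by
      rw [← Measure.measure_univ_eq_zero]
      have : ∀ᵐ k ∂μ, False := by
        filter_upwards [hS] with k hk
        rw [Subsingleton.elim k 0, norm_zero] at hk
        exact zero_ne_one hk
      rw [ae_iff] at this
      simpa using this
    rw [h0]
    simp
  · have hne : (σ.real univ : ℂ) ≠ 0 := by
      intro h
      have h' : σ.real univ = 0 := by exact_mod_cast h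
      rw [measureReal_eq_zero_iff, Measure.measure_univ_eq_zero] at h'
      exact Measure.toSphere_ne_zero _ h'
    rw [sphFT_eq_waveK] at key
    have : (σ.real univ : ℂ) * charFun μ x = (σ.real univ : ℂ) * ((μ.real univ * waveK x : ℝ) : ℂ) := by
      rw [key]; push_cast; ring
    exact mul_left_cancel₀ hne this

end Pool.Agent.Lib_helper70.Berry
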