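import Pool.Agent.Lib_helper70.Berry.PathMain
import Pool.Agent.Lib_helper70.Berry.Helm
import Pool.Agent.Lib_helper70.Berry.FieldCont
import Pool.Agent.Lib_helper70.Berry.UnifSphere

/-!
# Random Helmholtz solutions which are factors of a Gaussian family
-/

set_option linter.unusedSectionVars false

open MeasureTheory Set Filter Topology ProbabilityTheory InnerProductSpace Laplacian
open scoped ENNReal RealInnerProductSpace ComplexConjugate

namespace Pool.Agent.Lib_helper70.Berry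

variable {E : Type*} [NormedAddCommGroup E] [InnerProductSpace ℝ E] [FiniteDimensional ℝ E]
  [MeasurableSpace E] [BorelSpace E]
variable {ι : Type*} {Ω : Type*} [MeasurableSpace Ω] {P : Measure Ω}

/-- the path of the family -/
def path (G : ι → E → Ω → ℝ) (ω : Ω) : ι × E → ℝ := fun p => G p.1 p.2 ω

lemma measurable_path {G : ι → E → Ω → ℝ} (hm : ∀ j x, Measurable (G j x)) :
    Measurable (path G) := measurable_pi_lambda _ fun p => hm p.1 p.2

lemma bil_map {G : ι → E → Ω → ℝ} (hm : ∀ j x, Measurable (G j x)) (ℓ ℓ' : ι × E →₀ ℝ) :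
    bil (P.map (path G)) ℓ ℓ' = ∫ ω, pair ℓ (path G ω) * pair ℓ' (path G ω) ∂P := by
  unfold bil
  exact integral_map (measurable_path hm).aemeasurable
    ((measurable_pair ℓ).mul (measurable_pair ℓ')).aestronglyMeasurable

lemma bil_map_single {G : ι → E → Ω → ℝ} (hm : ∀ j x, Measurable (G j x)) (p q : ι × E) :
    bil (P.map (path G)) (Finsupp.single p 1) (Finsupp.single q 1) =
      ∫ ω, G p.1 p.2 ω * G q.1 q.2 ω ∂P := by
  rw [bil_map hm]
  simp only [pair_single, one_mul, path]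

/-- The law of a stationary, mean square continuous, atomless Gaussian family. -/
lemma GH_of_process [IsProbabilityMeasure P] {G : ι → E → Ω → ℝ}
    (hm : ∀ j x, Measurable (G j x))
    (hG : IsGaussianProcess (fun (p : ι × E) ω => G p.1 p.2 ω) P)
    (hG0 : ∀ j x, ∫ ω, G j x ω ∂P = 0)
    (hGs : ∀ j k x y z, ∫ ω, G j (x + z) ω * G k (y + z) ω ∂P = ∫ ω, G j x ω * G k y ω ∂P)
    (hGc : ∀ j, ContinuousAt (fun x => ∫ ω, G j 0 ω * G j x ω ∂P) 0)
    (hGe : ∀ j, Tendsto (fun R : ℝ => ⨍ x in Metric.ball (0 : E) R,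
      (∫ ω, G j 0 ω * G j x ω ∂P) ^ 2) atTop (𝓝 0)) :
    GH (P.map (path G)) := by
  have hpm := measurable_path hm
  have hgl : ∀ ℓ : ι × E →₀ ℝ, HasGaussianLaw (fun ω => pair ℓ (path G ω)) P := by
    intro ℓ
    have := (hG.smul ℓ).hasGaussianLaw_fun_sum (I := ℓ.support)
    exact this
  have hmean : ∀ ℓ : ι × E →₀ ℝ, ∫ ω, pair ℓ (path G ω) ∂P = 0 := by
    intro ℓ
    simp only [pair_eq]
    rw [integral_finsetSum]
    · refine Finset.sum_eq_zero fun p _ => ?_
      rw [integral_const_mul]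
      simp only [path]
      rw [hG0, mul_zero]
    · intro p _
      exact ((hG.hasGaussianLaw_eval p).integrable).const_mul _
  refine ⟨⟨Measure.isProbabilityMeasure_map hpm.aemeasurable, fun ℓ => ?_, fun ℓ => ?_⟩,
    fun p q z => ?_, fun j => ?_, fun j => ?_⟩
  · rw [memLp_map_measure_iff (measurable_pair ℓ).aestronglyMeasurable hpm.aemeasurable]
    exact (hgl ℓ).memLp_two
  · rw [integral_map hpm.aemeasurable (measurable_exp_pair ℓ).aestronglyMeasurable,
      integral_map hpm.aemeasurable ((measurable_pair ℓ).pow_const 2).aestronglyMeasurable]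
    have h1 := (hgl ℓ).charFun_map_eq 1
    rw [charFun_apply, integral_map (hgl ℓ).aemeasurable
      (by fun_prop : Continuous fun v : ℝ => Complex.exp ((⟪v, (1 : ℝ)⟫ : ℝ) *
        Complex.I)).aestronglyMeasurable] at h1
    have e1 : ∀ x : ℝ, ⟪x, (1 : ℝ)⟫ = x := fun x => by simp
    have e2 : ∀ x : ℝ, ⟪(1 : ℝ), x⟫ = x := fun x => by simp
    simp only [e1, e2] at h1
    rw [h1, hmean, variance_eq_sub (hgl ℓ).memLp_two]
    simp only [Pi.pow_apply]
    rw [hmean]
    congr 1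
    push_cast
    ring
  · rw [bil_map_single hm, bil_map_single hm]
    exact hGs _ _ _ _ _
  · simp only [bil_map_single hm]
    exact hGc j
  · simp only [bil_map_single hm]
    exact hGe j

/-- elements of the complex span: real and imaginary parts -/
lemma GH.exists_re_im {P : Measure (ι × E → ℝ)} (h : GH P) {m : Lp ℂ 2 P}
    (hm : m ∈ Submodule.span ℂ (Set.range fun p : ι × E => h.lin (Finsupp.single p 1))) :
    ∃ ℓ ℓ' : ι × E →₀ ℝ, m = h.lin ℓ + Complex.I • h.lin ℓ' := by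
  induction hm using Submodule.span_induction with
  | mem x hx =>
    obtain ⟨p, rfl⟩ := hx
    exact ⟨Finsupp.single p 1, 0, by rw [h.lin_zero, smul_zero, add_zero]⟩
  | zero => exact ⟨0, 0, by rw [h.lin_zero, smul_zero, add_zero]⟩
  | add x y _ _ hx hy =>
    obtain ⟨a, b, rfl⟩ := hx
    obtain ⟨c, d, rfl⟩ := hy
    refine ⟨a + c, b + d, ?_⟩
    rw [h.lin_add, h.lin_add, smul_add]
    abel
  | smul z x _ hx =>
    obtain ⟨a, b, rfl⟩ := hx
    refine ⟨z.re • a + (-z.im) • b, z.im • a + z.re • b, ?_⟩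
    rw [h.lin_add, h.lin_add, h.lin_smul, h.lin_smul, h.lin_smul, h.lin_smul]
    have e1 : ((z.re : ℂ) + Complex.I * z.im) = z := by apply Complex.ext <;> simp
    have e2 : (-(z.im : ℂ) + Complex.I * z.re) = z * Complex.I := by apply Complex.ext <;> simp
    calc z • (h.lin a + Complex.I • h.lin b)
        = z • h.lin a + (z * Complex.I) • h.lin b := by rw [smul_add, smul_smul]
      _ = ((z.re : ℂ) + Complex.I * z.im) • h.lin a +
          (-(z.im : ℂ) + Complex.I * z.re) • h.lin b := by rw [e1, e2]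
      _ = _ := by push_cast; module

/-- real approximation of a real element of the closed complex span -/
lemma GH.exists_real_approx {P : Measure (ι × E → ℝ)} (h : GH P) {Ψ : (ι × E → ℝ) → ℝ}
    (hΨ : MemLp Ψ 2 P) (hΨc : MemLp (fun g => (Ψ g : ℂ)) 2 P)
    (hmem : h.vp hΨc 0 ∈ h.chaos) {ε : ℝ} (hε : 0 < ε) :
    ∃ ℓ : ι × E →₀ ℝ, ∫ g, (Ψ g - pair ℓ g) ^ 2 ∂P < ε := by
  have hclos : h.vp hΨc 0 ∈ closure (Submodule.span ℂ (Set.range fun p : ι × E =>
      h.lin (Finsupp.single p 1)) : Set (Lp ℂ 2 P)) := hmem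
  rw [Metric.mem_closure_iff] at hclos
  obtain ⟨m, hm, hd⟩ := hclos (√ε) (Real.sqrt_pos.2 hε)
  obtain ⟨ℓ, ℓ', rfl⟩ := h.exists_re_im hm
  refine ⟨ℓ, ?_⟩
  have hv : h.vp hΨc 0 = hΨc.toLp _ := by
    unfold GH.vp
    refine MemLp.toLp_congr _ _ (Filter.Eventually.of_forall fun g => ?_)
    simp only [Function.comp_apply]
    have : Tsh (0 : E) g = g := by funext p; simp [Tsh, tau]
    rw [this]
  have hdm : MemLp (fun g => ((Ψ g - pair ℓ g : ℝ) : ℂ)) 2 P := by
    have := hΨc.sub (h.memLp_lin ℓ)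
    refine (this.congr_norm ?_ (Filter.Eventually.of_forall fun g => ?_))
    · exact (Complex.measurable_ofReal.comp_aemeasurable (hΨ.1.aemeasurable.sub
        (measurable_pair ℓ).aemeasurable)).aestronglyMeasurable
    · simp
  have ea : h.vp hΨc 0 - h.lin ℓ = hdm.toLp _ := by
    rw [hv]
    unfold CG.lin
    rw [← MemLp.toLp_sub]
    refine MemLp.toLp_congr _ _ (Filter.Eventually.of_forall fun g => ?_)
    simp
  have e1 : ‖h.vp hΨc 0 - h.lin ℓ‖ ^ 2 = ∫ g, (Ψ g - pair ℓ g) ^ 2 ∂P := by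
    have : ((‖h.vp hΨc 0 - h.lin ℓ‖ ^ 2 : ℝ) : ℂ) = ((∫ g, (Ψ g - pair ℓ g) ^ 2 ∂P : ℝ) : ℂ) := by
      have e0 : ((‖h.vp hΨc 0 - h.lin ℓ‖ ^ 2 : ℝ) : ℂ) =
          inner ℂ (h.vp hΨc 0 - h.lin ℓ) (h.vp hΨc 0 - h.lin ℓ) := by
        rw [inner_self_eq_norm_sq_to_K]; push_cast; rfl
      rw [e0, ea, inner_toLp, ← integral_complex_ofReal]
      refine integral_congr_ae (Filter.Eventually.of_forall fun g => ?_)
      simp only [Complex.conj_ofReal]
      push_cast
      ring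
    exact_mod_cast this
  have e2 : (inner ℂ (h.vp hΨc 0 - h.lin ℓ) (h.lin ℓ')).im = 0 := by
    rw [ea]
    unfold CG.lin
    rw [inner_toLp]
    have : ∫ g, conj (((Ψ g - pair ℓ g : ℝ) : ℂ)) * (pair ℓ' g : ℂ) ∂P =
        ((∫ g, (Ψ g - pair ℓ g) * pair ℓ' g ∂P : ℝ) : ℂ) := by
      rw [← integral_complex_ofReal]
      refine integral_congr_ae (Filter.Eventually.of_forall fun g => ?_)
      simp only [Complex.conj_ofReal]
      push_cast
      ring
    rw [this, Complex.ofReal_im]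
  have e3 : ‖h.vp hΨc 0 - h.lin ℓ‖ ^ 2 ≤ ‖h.vp hΨc 0 - (h.lin ℓ + Complex.I • h.lin ℓ')‖ ^ 2 := by
    have : h.vp hΨc 0 - (h.lin ℓ + Complex.I • h.lin ℓ') =
        (h.vp hΨc 0 - h.lin ℓ) - Complex.I • h.lin ℓ' := by abel
    rw [this, @norm_sub_sq ℂ _ _ _ _ (h.vp hΨc 0 - h.lin ℓ) (Complex.I • h.lin ℓ')]
    rw [inner_smul_right]
    have hre : RCLike.re (Complex.I * inner ℂ (h.vp hΨc 0 - h.lin ℓ) (h.lin ℓ')) = 0 := by
      change (Complex.I * inner ℂ (h.vp hΨc 0 - h.lin ℓ) (h.lin ℓ')).re = 0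
      rw [Complex.I_mul_re, e2, neg_zero]
    rw [hre]
    have := sq_nonneg ‖Complex.I • h.lin ℓ'‖
    linarith
  rw [← e1]
  refine lt_of_le_of_lt e3 ?_
  rw [dist_eq_norm] at hd
  calc ‖h.vp hΨc 0 - (h.lin ℓ + Complex.I • h.lin ℓ')‖ ^ 2 < (√ε) ^ 2 := by gcongr
    _ = ε := Real.sq_sqrt hε.le

variable [IsProbabilityMeasure P]

/-- Covariance data of a factor. -/
structure FactorData (P : Measure Ω) (G : ι → E → Ω → ℝ) (F : E → Ω → ℝ)
    (Ψ : (ι × E → ℝ) → ℝ) : Prop where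
  hm : ∀ j x, Measurable (G j x)
  gh : GH (P.map (path G))
  hFm : ∀ x, Measurable (F x)
  hΨ : Measurable Ψ
  hF : ∀ x, ∀ᵐ ω ∂P, F x ω = Ψ (Tsh x (path G ω))
  hF2 : MemLp (F 0) 2 P

variable {G : ι → E → Ω → ℝ} {F : E → Ω → ℝ} {Ψ : (ι × E → ℝ) → ℝ}

lemma Tsh_zero (g : ι × E → ℝ) : Tsh (0 : E) g = g := by funext p; simp [Tsh, tau]

lemma FactorData.memLp (h : FactorData P G F Ψ) : MemLp Ψ 2 (P.map (path G)) := by
  rw [memLp_map_measure_iff h.hΨ.aestronglyMeasurable (measurable_path h.hm).aemeasurable]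
  refine h.hF2.ae_eq ?_
  filter_upwards [h.hF 0] with ω hω
  rw [hω, Tsh_zero, Function.comp_apply]

lemma FactorData.identDistrib (h : FactorData P G F Ψ) (x : E) :
    IdentDistrib (F x) (F 0) P P := by
  have hpm := measurable_path h.hm
  have key : ∀ x, P.map (F x) = (P.map (path G)).map Ψ := by
    intro x
    have e1 : P.map (F x) = P.map (fun ω => Ψ (Tsh x (path G ω))) := Measure.map_congr (h.hF x)
    rw [e1]
    have e2 : (P.map (path G)).map (Tsh x) = P.map (path G) := (h.gh.mp x).map_eq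
    conv_rhs => rw [← e2]
    rw [Measure.map_map (measurable_Tsh x) hpm, Measure.map_map h.hΨ
      ((measurable_Tsh x).comp hpm)]
    rfl
  exact ⟨(h.hFm x).aemeasurable, (h.hFm 0).aemeasurable, by rw [key, key]⟩

lemma FactorData.memLp_F (h : FactorData P G F Ψ) (x : E) : MemLp (F x) 2 P :=
  (h.identDistrib x).symm.memLp_snd h.hF2

lemma FactorData.memLpc (h : FactorData P G F Ψ) :
    MemLp (fun g => (Ψ g : ℂ)) 2 (P.map (path G)) := h.memLp.ofReal

lemma FactorData.inner_vp (h : FactorData P G F Ψ) (x y : E) :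
    inner ℂ (h.gh.vp h.memLpc x) (h.gh.vp h.memLpc y) = ((∫ ω, F x ω * F y ω ∂P : ℝ) : ℂ) := by
  rw [h.gh.inner_vp_vp]
  rw [integral_map (measurable_path h.hm).aemeasurable]
  · rw [← integral_complex_ofReal]
    refine integral_congr_ae ?_
    filter_upwards [h.hF x, h.hF y] with ω h1 h2
    rw [h1, h2]
    simp
  · have m1 : Measurable fun g : ι × E → ℝ => (Ψ (Tsh x g) : ℂ) :=
      Complex.measurable_ofReal.comp (h.hΨ.comp (measurable_Tsh x))
    have m2 : Measurable fun g : ι × E → ℝ => (Ψ (Tsh y g) : ℂ) :=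
      Complex.measurable_ofReal.comp (h.hΨ.comp (measurable_Tsh y))
    simp only [Complex.conj_ofReal]
    exact (m1.mul m2).aestronglyMeasurable

/-- The spectral measure of a monochromatic factor sits on the unit sphere. -/
theorem FactorData.exists_spectral_sphere (h : FactorData P G F Ψ)
    (hHelm : ∀ᵐ ω ∂P, ContDiff ℝ 2 (fun x => F x ω) ∧ ∀ x, (Δ (fun y => F y ω)) x = -F x ω) :
    ∃ (_ : Stat (h.gh.vp h.memLpc)) (μ : Measure E) (_ : IsFiniteMeasure μ),
      (∀ x, charFun μ x = Kv (h.gh.vp h.memLpc) x) ∧ (∀ᵐ k ∂μ, ‖k‖ = 1) ∧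
      ∀ x y, ((∫ ω, F x ω * F y ω ∂P : ℝ) : ℂ) = charFun μ (y - x) := by
  classical
  have hmem := h.memLp_F
  -- a modification with all paths good
  obtain ⟨s, hs, hsm, hs0⟩ : ∃ s : Set Ω, (∀ ω ∈ s, ContDiff ℝ 2 (fun x => F x ω) ∧
      ∀ x, (Δ (fun y => F y ω)) x = -F x ω) ∧ MeasurableSet s ∧ P sᶜ = 0 := by
    obtain ⟨t, ht1, ht2, ht3⟩ := exists_measurable_superset_of_null (ae_iff.1 hHelm)
    refine ⟨tᶜ, fun ω hω => ?_, ht2.compl, by rwa [compl_compl]⟩
    by_contra hcon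
    exact hω (ht1 hcon)
  set F' : E → Ω → ℝ := fun x => s.indicator (F x) with hF'
  have hFF' : ∀ x, F' x =ᵐ[P] F x := by
    intro x
    have : ∀ᵐ ω ∂P, ω ∈ s := by rw [ae_iff]; exact hs0
    filter_upwards [this] with ω hω
    simp only [hF', Set.indicator_of_mem hω]
  have hF'm : ∀ x, Measurable (F' x) := fun x => (h.hFm x).indicator hsm
  have hHelm' : ∀ ω, ContDiff ℝ 2 (fun x => F' x ω) ∧ ∀ x, (Δ (fun y => F' y ω)) x = -F' x ω := by
    intro ω
    by_cases hω : ω ∈ s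
    · simp only [hF', Set.indicator_of_mem hω]
      exact hs ω hω
    · simp only [hF', Set.indicator_of_notMem hω]
      refine ⟨contDiff_const, fun x => ?_⟩
      rw [Berry67.laplacian_eq_sum_fderiv contDiff_const]
      simp
  have hF'c : ∀ ω, Continuous fun x => F' x ω := fun ω => (hHelm' ω).1.continuous
  have hunc : Measurable (Function.uncurry F') :=
    measurable_uncurry_of_continuous_of_measurable hF'c hF'm
  have hmem' : ∀ x, MemLp (F' x) 2 P := fun x => (hmem x).ae_eq (hFF' x).symm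
  have hcov' : ∀ x y, ∫ ω, F' x ω * F' y ω ∂P = ∫ ω, F x ω * F y ω ∂P := by
    intro x y
    refine integral_congr_ae ?_
    filter_upwards [hFF' x, hFF' y] with ω h1 h2
    rw [h1, h2]
  -- the stationary process in `L²`
  have hcont : ContinuousAt (fun x => ∫ ω, F 0 ω * F x ω ∂P) 0 :=
    continuousAt_cov h.identDistrib h.hF2 (hHelm.mono fun ω hω => hω.1.continuous)
  have hst : Stat (h.gh.vp h.memLpc) := by
    refine Stat.of_continuousAt (fun x y z => h.gh.inner_vp_inv h.memLpc x y z) ?_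
    simp only [h.inner_vp]
    exact Complex.continuous_ofReal.continuousAt.comp hcont
  obtain ⟨μ, hμf, hμ⟩ := exists_spectral hst
  have hS : ∀ᵐ k ∂μ, ‖k‖ = 1 := by
    refine spectral_on_sphere hunc hmem' hHelm' fun x y => ?_
    rw [hcov', hμ, ← hst.inner_eq, h.inner_vp]
  refine ⟨hst, μ, hμf, hμ, hS, fun x y => ?_⟩
  rw [hμ, ← hst.inner_eq, h.inner_vp]

/-- Linear approximation of a monochromatic factor, in dimension at most three or if the
covariance is isotropic. -/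
theorem FactorData.linear_approx (h : FactorData P G F Ψ)
    (hd : Module.finrank ℝ E ≤ 3 ∨ ∀ (R : E ≃ₗᵢ[ℝ] E) (x : E),
      ∫ ω, F 0 ω * F (R x) ω ∂P = ∫ ω, F 0 ω * F x ω ∂P)
    (hHelm : ∀ᵐ ω ∂P, ContDiff ℝ 2 (fun x => F x ω) ∧ ∀ x, (Δ (fun y => F y ω)) x = -F x ω)
    (x : E) {ε : ℝ} (hε : 0 < ε) :
    ∃ ℓ : ι × E →₀ ℝ, ∫ ω, (F x ω - pair ℓ (path G ω)) ^ 2 ∂P < ε := by
  have hpm := measurable_path h.hm
  obtain ⟨hst, μ, hμf, hμ, hS, hcov⟩ := h.exists_spectral_sphere hHelm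
  have hG : Good μ := by
    rcases hd with hd | hiso
    · exact good_of_dim hd hS
    · refine good_of_isotropic hS fun R x => ?_
      have h1 := hcov 0 (R x)
      have h2 := hcov 0 x
      rw [sub_zero] at h1 h2
      rw [← h1, ← h2, hiso]
  have hch := h.gh.mem_chaos h.memLpc hst hμ hS hG
  obtain ⟨ℓ, hℓ⟩ := h.gh.exists_real_approx h.memLp h.memLpc hch hε
  refine ⟨sh x ℓ, ?_⟩
  have e1 : ∫ ω, (F x ω - pair (sh x ℓ) (path G ω)) ^ 2 ∂P =
      ∫ g, (Ψ (Tsh x g) - pair ℓ (Tsh x g)) ^ 2 ∂(P.map (path G)) := by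
    rw [integral_map hpm.aemeasurable (f := fun g => (Ψ (Tsh x g) - pair ℓ (Tsh x g)) ^ 2)
      (((h.hΨ.comp (measurable_Tsh x)).sub
      ((measurable_pair ℓ).comp (measurable_Tsh x))).pow_const 2).aestronglyMeasurable]
    refine integral_congr_ae ?_
    filter_upwards [h.hF x] with ω hω
    rw [hω, pair_sh]
  have e2 : ∫ g, (Ψ (Tsh x g) - pair ℓ (Tsh x g)) ^ 2 ∂(P.map (path G)) =
      ∫ g, (Ψ g - pair ℓ g) ^ 2 ∂(P.map (path G)) := by
    have hmeas : Measurable fun g : ι × E → ℝ => (Ψ g - pair ℓ g) ^ 2 :=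
      (h.hΨ.sub (measurable_pair ℓ)).pow_const 2
    have := integral_map (μ := P.map (path G)) (h.gh.mp x).measurable.aemeasurable
      (f := fun g => (Ψ g - pair ℓ g) ^ 2) hmeas.aestronglyMeasurable
    rw [(h.gh.mp x).map_eq] at this
    exact this.symm
  rw [e1, e2]
  exact hℓ

/-- An isotropic monochromatic factor has the covariance of the random wave. -/
theorem FactorData.isotropic (h : FactorData P G F Ψ)
    (hHelm : ∀ᵐ ω ∂P, ContDiff ℝ 2 (fun x => F x ω) ∧ ∀ x, (Δ (fun y => F y ω)) x = -F x ω)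
    (hiso : ∀ (R : E ≃ₗᵢ[ℝ] E) (x : E),
      ∫ ω, F 0 ω * F (R x) ω ∂P = ∫ ω, F 0 ω * F x ω ∂P) (x y : E) :
    ∫ ω, F x ω * F y ω ∂P = (∫ ω, F 0 ω ^ 2 ∂P) * waveK (y - x) := by
  obtain ⟨-, μ, hμf, -, hS, hcov⟩ := h.exists_spectral_sphere hHelm
  have hinv : ∀ (R : E ≃ₗᵢ[ℝ] E) (x : E), charFun μ (R x) = charFun μ x := by
    intro R x
    have h1 := hcov 0 (R x)
    have h2 := hcov 0 x
    rw [sub_zero] at h1 h2
    rw [← h1, ← h2, hiso]
  have hmass : ∫ ω, F 0 ω ^ 2 ∂P = μ.real univ := by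
    have h1 := hcov 0 0
    rw [sub_zero, charFun_zero] at h1
    have h2 : ∫ ω, F 0 ω * F 0 ω ∂P = μ.real univ := by exact_mod_cast h1
    rw [← h2]
    simp only [sq]
  have h1 := hcov x y
  rw [charFun_of_invariant hS hinv] at h1
  rw [hmass]
  exact_mod_cast h1

/-- A monochromatic factor is a Gaussian process. -/
theorem FactorData.isGaussianProcess (h : FactorData P G F Ψ)
    (happ : ∀ (x : E) (ε : ℝ), 0 < ε →
      ∃ ℓ : ι × E →₀ ℝ, ∫ ω, (F x ω - pair ℓ (path G ω)) ^ 2 ∂P < ε) :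
    IsGaussianProcess F P := by
  classical
  have hpm := measurable_path h.hm
  have hlm : ∀ ℓ : ι × E →₀ ℝ, MemLp (fun ω => pair ℓ (path G ω)) 2 P := by
    intro ℓ
    have := h.gh.memLp ℓ
    rwa [memLp_map_measure_iff (measurable_pair ℓ).aestronglyMeasurable hpm.aemeasurable] at this
  -- the closed linear span
  let Λ : (ι × E →₀ ℝ) →ₗ[ℝ] Lp ℝ 2 P :=
    { toFun := fun ℓ => (hlm ℓ).toLp _
      map_add' := fun ℓ ℓ' => by
        rw [← MemLp.toLp_add]
        exact MemLp.toLp_congr _ _ (Filter.Eventually.of_forall fun ω => pair_add ℓ ℓ' _)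
      map_smul' := fun c ℓ => by
        rw [RingHom.id_apply, ← MemLp.toLp_const_smul]
        exact MemLp.toLp_congr _ _ (Filter.Eventually.of_forall fun ω => pair_smul c ℓ _) }
  set M : Submodule ℝ (Lp ℝ 2 P) := (LinearMap.range Λ).topologicalClosure with hM
  have hFM : ∀ x, (h.memLp_F x).toLp (F x) ∈ M := by
    intro x
    change _ ∈ closure (LinearMap.range Λ : Set (Lp ℝ 2 P))
    rw [Metric.mem_closure_iff]
    intro ε hε
    obtain ⟨ℓ, hℓ⟩ := happ x (ε ^ 2) (by positivity)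
    refine ⟨Λ ℓ, ⟨ℓ, rfl⟩, ?_⟩
    rw [dist_eq_norm]
    have e1 : (h.memLp_F x).toLp (F x) - Λ ℓ = ((h.memLp_F x).sub (hlm ℓ)).toLp _ :=
      (MemLp.toLp_sub (h.memLp_F x) (hlm ℓ)).symm
    have e2 : ‖(h.memLp_F x).toLp (F x) - Λ ℓ‖ ^ 2 < ε ^ 2 := by
      rw [e1, ← real_inner_self_eq_norm_sq, inner_toLp_real]
      refine lt_of_le_of_lt (le_of_eq ?_) hℓ
      refine integral_congr_ae (Filter.Eventually.of_forall fun ω => ?_)
      simp only [Pi.sub_apply]
      ring
    exact lt_of_pow_lt_pow_left₀ 2 hε.le e2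
  have hGl : ∀ (Y : Ω → ℝ) (hY : MemLp Y 2 P), hY.toLp Y ∈ M → GLaw P Y := by
    intro Y hY hYM
    obtain ⟨u, hu, hlim⟩ := mem_closure_iff_seq_limit.1
      (show hY.toLp Y ∈ closure (LinearMap.range Λ : Set (Lp ℝ 2 P)) from hYM)
    choose ℓ hℓ using hu
    have hlim2 : Tendsto (fun n => (hlm (ℓ n)).toLp _) atTop (𝓝 (hY.toLp Y)) := by
      refine hlim.congr fun n => ?_
      exact (hℓ n).symm
    refine GLaw.of_tendsto (fun n => hlm (ℓ n)) hY (fun n => ?_) hlim2
    refine ⟨?_, ?_⟩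
    · have h1 := h.gh.integral_pair (ℓ n)
      rw [integral_complex_ofReal, integral_map hpm.aemeasurable
        (measurable_pair _).aestronglyMeasurable] at h1
      exact_mod_cast h1
    · have h1 := h.gh.char (ℓ n)
      rw [integral_map hpm.aemeasurable (measurable_exp_pair _).aestronglyMeasurable,
        integral_map hpm.aemeasurable ((measurable_pair _).pow_const 2).aestronglyMeasurable] at h1
      exact h1
  refine isGaussianProcess_of_GLaw h.hFm h.memLp_F fun I c => ?_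
  have hY2 : MemLp (fun ω => ∑ t ∈ I, c t * F t ω) 2 P :=
    memLp_finsetSum _ fun t _ => (h.memLp_F t).const_mul _
  refine hGl _ hY2 ?_
  have e : hY2.toLp _ = ∑ t ∈ I, c t • (h.memLp_F t).toLp (F t) := by
    clear hGl hFM
    induction I using Finset.induction_on with
    | empty =>
      rw [Finset.sum_empty]
      have : hY2.toLp _ = (MemLp.zero' : MemLp (fun _ : Ω => (0 : ℝ)) 2 P).toLp _ :=
        MemLp.toLp_congr _ _ (Filter.Eventually.of_forall fun ω => by simp)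
      rw [this]
      exact MemLp.toLp_zero _
    | insert a I ha ih =>
      rw [Finset.sum_insert ha]
      have hI : MemLp (fun ω => ∑ t ∈ I, c t * F t ω) 2 P :=
        memLp_finsetSum _ fun t _ => (h.memLp_F t).const_mul _
      rw [← ih hI, ← MemLp.toLp_const_smul, ← MemLp.toLp_add]
      exact MemLp.toLp_congr _ _ (Filter.Eventually.of_forall fun ω => by
        simp [Finset.sum_insert ha])
  rw [e]
  exact Submodule.sum_mem _ fun t _ => Submodule.smul_mem _ _ (hFM t)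

/-- A monochromatic factor is centred. -/
theorem FactorData.integral_eq_zero (h : FactorData P G F Ψ)
    (happ : ∀ (x : E) (ε : ℝ), 0 < ε →
      ∃ ℓ : ι × E →₀ ℝ, ∫ ω, (F x ω - pair ℓ (path G ω)) ^ 2 ∂P < ε) (x : E) :
    ∫ ω, F x ω ∂P = 0 := by
  have hpm := measurable_path h.hm
  have hlm : ∀ ℓ : ι × E →₀ ℝ, MemLp (fun ω => pair ℓ (path G ω)) 2 P := by
    intro ℓ
    have := h.gh.memLp ℓ
    rwa [memLp_map_measure_iff (measurable_pair ℓ).aestronglyMeasurable hpm.aemeasurable] at this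
  have hl0 : ∀ ℓ : ι × E →₀ ℝ, ∫ ω, pair ℓ (path G ω) ∂P = 0 := by
    intro ℓ
    have h1 := h.gh.integral_pair ℓ
    rw [integral_complex_ofReal, integral_map hpm.aemeasurable
      (measurable_pair _).aestronglyMeasurable] at h1
    exact_mod_cast h1
  by_contra hne
  obtain ⟨ℓ, hℓ⟩ := happ x ((∫ ω, F x ω ∂P) ^ 2) (by positivity)
  have hY : MemLp (fun ω => F x ω - pair ℓ (path G ω)) 2 P := (h.memLp_F x).sub (hlm ℓ)
  have e1 : ∫ ω, (F x ω - pair ℓ (path G ω)) ∂P = ∫ ω, F x ω ∂P := by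
    rw [integral_sub ((h.memLp_F x).integrable (by norm_num)) ((hlm ℓ).integrable (by norm_num)),
      hl0, sub_zero]
  have e2 := ProbabilityTheory.variance_nonneg (fun ω => F x ω - pair ℓ (path G ω)) P
  rw [ProbabilityTheory.variance_eq_sub hY] at e2
  simp only [Pi.pow_apply] at e2
  rw [e1] at e2
  linarith

end Pool.Agent.Lib_helper70.Berry
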