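import Pool.Agent.Lib_helper70.Berry.PathU
import Pool.Agent.Lib_helper70.Berry.Atoms
import Pool.Agent.Lib_helper70.Berry.ExpRem

/-!
# Centred Gaussian measures on path space
-/

set_option linter.unusedSectionVars false

open MeasureTheory Set Filter Topology ProbabilityTheory
open scoped ENNReal RealInnerProductSpace ComplexConjugate

namespace Pool.Agent.Lib_helper70.Berry

variable {κ : Type*}

/-- A probability measure on path space which is centred Gaussian. -/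
structure CG (P : Measure (κ → ℝ)) : Prop where
  prob : IsProbabilityMeasure P
  memLp : ∀ ℓ : κ →₀ ℝ, MemLp (pair ℓ) 2 P
  char : ∀ ℓ : κ →₀ ℝ, ∫ g, Complex.exp ((pair ℓ g : ℝ) * Complex.I) ∂P =
    Complex.exp (-((∫ g, (pair ℓ g) ^ 2 ∂P : ℝ) : ℂ) / 2)

/-- covariance form -/
noncomputable def bil (P : Measure (κ → ℝ)) (ℓ ℓ' : κ →₀ ℝ) : ℝ := ∫ g, pair ℓ g * pair ℓ' g ∂P

lemma bil_self (P : Measure (κ → ℝ)) (ℓ : κ →₀ ℝ) : bil P ℓ ℓ = ∫ g, (pair ℓ g) ^ 2 ∂P := by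
  unfold bil
  simp only [sq]

lemma bil_comm (P : Measure (κ → ℝ)) (ℓ ℓ' : κ →₀ ℝ) : bil P ℓ ℓ' = bil P ℓ' ℓ := by
  unfold bil
  simp only [mul_comm]

variable {P : Measure (κ → ℝ)}

lemma CG.integrable_mul (h : CG P) (ℓ ℓ' : κ →₀ ℝ) :
    Integrable (fun g => pair ℓ g * pair ℓ' g) P :=
  (h.memLp ℓ).integrable_mul (h.memLp ℓ')

lemma CG.bil_add_right (h : CG P) (ℓ ℓ' ℓ'' : κ →₀ ℝ) :
    bil P ℓ (ℓ' + ℓ'') = bil P ℓ ℓ' + bil P ℓ ℓ'' := by
  unfold bil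
  rw [← integral_add (h.integrable_mul _ _) (h.integrable_mul _ _)]
  simp only [pair_add, mul_add]

lemma CG.bil_smul_right (_h : CG P) (c : ℝ) (ℓ ℓ' : κ →₀ ℝ) :
    bil P ℓ (c • ℓ') = c * bil P ℓ ℓ' := by
  unfold bil
  rw [← integral_const_mul]
  refine integral_congr_ae (Filter.Eventually.of_forall fun g => ?_)
  simp only [pair_smul]
  ring

lemma CG.bil_add_left (h : CG P) (ℓ ℓ' ℓ'' : κ →₀ ℝ) :
    bil P (ℓ' + ℓ'') ℓ = bil P ℓ' ℓ + bil P ℓ'' ℓ := by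
  rw [bil_comm, h.bil_add_right, bil_comm, bil_comm P ℓ ℓ'']

lemma CG.bil_smul_left (h : CG P) (c : ℝ) (ℓ ℓ' : κ →₀ ℝ) :
    bil P (c • ℓ) ℓ' = c * bil P ℓ ℓ' := by
  rw [bil_comm, h.bil_smul_right, bil_comm]

lemma CG.char' (h : CG P) (ℓ : κ →₀ ℝ) :
    ∫ g, Complex.exp ((pair ℓ g : ℝ) * Complex.I) ∂P = Complex.exp (-(bil P ℓ ℓ : ℂ) / 2) := by
  rw [h.char, bil_self]

/-- Gaussian integration by parts. -/
lemma CG.integral_mul_exp (h : CG P) (ℓ ℓ' : κ →₀ ℝ) :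
    ∫ g, (pair ℓ' g : ℂ) * Complex.exp ((pair ℓ g : ℝ) * Complex.I) ∂P =
      Complex.I * bil P ℓ ℓ' * Complex.exp (-(bil P ℓ ℓ : ℂ) / 2) := by
  have := h.prob
  -- differentiate in the parameter
  have hF : HasDerivAt (fun t : ℝ => ∫ g, Complex.exp ((pair (ℓ + t • ℓ') g : ℝ) * Complex.I) ∂P)
      (∫ g, ((pair ℓ' g : ℂ) * Complex.I) *
        Complex.exp ((pair (ℓ + (0 : ℝ) • ℓ') g : ℝ) * Complex.I) ∂P) 0 := by
    have key := hasDerivAt_integral_of_dominated_loc_of_deriv_le (μ := P) (𝕜 := ℝ)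
      (F := fun (t : ℝ) g => Complex.exp ((pair (ℓ + t • ℓ') g : ℝ) * Complex.I))
      (F' := fun (t : ℝ) g => ((pair ℓ' g : ℂ) * Complex.I) *
        Complex.exp ((pair (ℓ + t • ℓ') g : ℝ) * Complex.I))
      (x₀ := (0 : ℝ)) (s := univ) (bound := fun g => ‖pair ℓ' g‖) Filter.univ_mem
      (Filter.Eventually.of_forall fun t => (measurable_exp_pair _).aestronglyMeasurable)
      ?_ ?_ ?_ ?_ ?_
    · exact key.2
    · exact (integrable_const (1 : ℝ)).mono' (measurable_exp_pair _).aestronglyMeasurable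
        (Filter.Eventually.of_forall fun g => (norm_exp_pair _ g).le)
    · exact (((Complex.measurable_ofReal.comp (measurable_pair ℓ')).mul_const _).mul
        (measurable_exp_pair _)).aestronglyMeasurable
    · refine Filter.Eventually.of_forall fun g t _ => ?_
      rw [norm_mul, norm_mul, norm_exp_pair, Complex.norm_I, mul_one, mul_one, Complex.norm_real]
    · exact ((h.memLp ℓ').integrable (by norm_num)).norm
    · refine Filter.Eventually.of_forall fun g t _ => ?_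
      have e : (fun t : ℝ => Complex.exp ((pair (ℓ + t • ℓ') g : ℝ) * Complex.I)) =
          fun t : ℝ => Complex.exp (((pair ℓ g : ℂ) + t * pair ℓ' g) * Complex.I) := by
        funext t
        rw [pair_add, pair_smul]
        push_cast
        ring_nf
      simp only [e]
      have h1 : HasDerivAt (fun t : ℝ => ((pair ℓ g : ℂ) + t * pair ℓ' g) * Complex.I)
          (((pair ℓ' g : ℂ)) * Complex.I) t := by
        have h2 : HasDerivAt (fun t : ℝ => (t : ℂ)) 1 t := Complex.ofRealCLM.hasDerivAt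
        have h3 := ((h2.mul_const (pair ℓ' g : ℂ)).const_add (pair ℓ g : ℂ)).mul_const Complex.I
        simpa using h3
      have h2 := h1.cexp
      convert! h2 using 1
      rw [pair_add, pair_smul]
      push_cast
      ring
  have hG : HasDerivAt (fun t : ℝ => Complex.exp (-((bil P ℓ ℓ : ℂ) + 2 * t * bil P ℓ ℓ' +
      t ^ 2 * bil P ℓ' ℓ') / 2)) (-(bil P ℓ ℓ' : ℂ) * Complex.exp (-(bil P ℓ ℓ : ℂ) / 2)) 0 := by
    have h2 : HasDerivAt (fun t : ℝ => (t : ℂ)) 1 0 := Complex.ofRealCLM.hasDerivAt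
    have h3 : HasDerivAt (fun t : ℝ => -((bil P ℓ ℓ : ℂ) + 2 * t * bil P ℓ ℓ' +
      t ^ 2 * bil P ℓ' ℓ') / 2) (-(bil P ℓ ℓ' : ℂ)) 0 := by
      have a := ((h2.const_mul (2 : ℂ)).mul_const (bil P ℓ ℓ' : ℂ)).const_add (bil P ℓ ℓ : ℂ)
      have b := (h2.pow 2).mul_const (bil P ℓ' ℓ' : ℂ)
      have c := ((a.add b).neg).div_const 2
      convert! c using 1
      simp
      ring
    have h4 := h3.cexp
    convert! h4 using 1
    simp
    ring
  have hEq : (fun t : ℝ => ∫ g, Complex.exp ((pair (ℓ + t • ℓ') g : ℝ) * Complex.I) ∂P) =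
      fun t : ℝ => Complex.exp (-((bil P ℓ ℓ : ℂ) + 2 * t * bil P ℓ ℓ' +
      t ^ 2 * bil P ℓ' ℓ') / 2) := by
    funext t
    rw [h.char', h.bil_add_right, h.bil_add_left, h.bil_add_left, h.bil_smul_left,
      h.bil_smul_right, h.bil_smul_right, h.bil_smul_left, bil_comm P ℓ' ℓ]
    push_cast
    ring_nf
  rw [hEq] at hF
  have h5 := hF.unique hG
  have h6 : ∫ g, ((pair ℓ' g : ℂ) * Complex.I) *
        Complex.exp ((pair (ℓ + (0 : ℝ) • ℓ') g : ℝ) * Complex.I) ∂P =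
      Complex.I * ∫ g, (pair ℓ' g : ℂ) * Complex.exp ((pair ℓ g : ℝ) * Complex.I) ∂P := by
    rw [← integral_const_mul]
    refine integral_congr_ae (Filter.Eventually.of_forall fun g => ?_)
    simp only [zero_smul, add_zero]
    ring
  rw [h6] at h5
  have h7 : ∫ g, (pair ℓ' g : ℂ) * Complex.exp ((pair ℓ g : ℝ) * Complex.I) ∂P =
      -Complex.I * (Complex.I * ∫ g, (pair ℓ' g : ℂ) *
        Complex.exp ((pair ℓ g : ℝ) * Complex.I) ∂P) := by
    rw [← mul_assoc, neg_mul, Complex.I_mul_I]; ring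
  rw [h7, h5]
  ring

lemma CG.integral_pair (h : CG P) (ℓ : κ →₀ ℝ) : ∫ g, (pair ℓ g : ℂ) ∂P = 0 := by
  have := h.integral_mul_exp 0 ℓ
  have b0 : bil P 0 ℓ = 0 := by unfold bil; simp [pair_zero]
  rw [b0] at this
  simpa [pair_zero] using this

/-! ### Elements of `L²` -/

lemma inner_toLp {f g : (κ → ℝ) → ℂ} (hf : MemLp f 2 P) (hg : MemLp g 2 P) :
    inner ℂ (hf.toLp f) (hg.toLp g) = ∫ x, conj (f x) * g x ∂P := by
  rw [L2.inner_def]
  refine integral_congr_ae ?_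
  filter_upwards [hf.coeFn_toLp, hg.coeFn_toLp] with x h1 h2
  rw [h1, h2, RCLike.inner_apply']

lemma CG.memLp_lin (h : CG P) (ℓ : κ →₀ ℝ) : MemLp (fun g => (pair ℓ g : ℂ)) 2 P :=
  (h.memLp ℓ).ofReal

lemma CG.memLp_exp (h : CG P) (ℓ : κ →₀ ℝ) :
    MemLp (fun g => Complex.exp ((pair ℓ g : ℝ) * Complex.I)) 2 P := by
  have := h.prob
  exact MemLp.of_bound (measurable_exp_pair ℓ).aestronglyMeasurable 1
    (Filter.Eventually.of_forall fun g => (norm_exp_pair _ g).le)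

lemma CG.memLp_one (h : CG P) : MemLp (fun _ : κ → ℝ => (1 : ℂ)) 2 P := by
  have := h.prob
  exact memLp_const 1

/-- linear functionals in `L²` -/
noncomputable def CG.lin (h : CG P) (ℓ : κ →₀ ℝ) : Lp ℂ 2 P := (h.memLp_lin ℓ).toLp _

/-- exponentials in `L²` -/
noncomputable def CG.ex (h : CG P) (ℓ : κ →₀ ℝ) : Lp ℂ 2 P := (h.memLp_exp ℓ).toLp _

/-- the constant in `L²` -/
noncomputable def CG.one (h : CG P) : Lp ℂ 2 P := h.memLp_one.toLp _

/-- `exp (- variance / 2)` -/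
noncomputable def sg (P : Measure (κ → ℝ)) (ℓ : κ →₀ ℝ) : ℝ := Real.exp (-(bil P ℓ ℓ) / 2)

lemma sg_eq (P : Measure (κ → ℝ)) (ℓ : κ →₀ ℝ) :
    (sg P ℓ : ℂ) = Complex.exp (-(bil P ℓ ℓ : ℂ) / 2) := by
  unfold sg; push_cast; rfl

lemma CG.inner_lin_lin (h : CG P) (ℓ ℓ' : κ →₀ ℝ) :
    inner ℂ (h.lin ℓ) (h.lin ℓ') = (bil P ℓ ℓ' : ℂ) := by
  unfold CG.lin
  rw [inner_toLp, bil, ← integral_complex_ofReal]
  refine integral_congr_ae (Filter.Eventually.of_forall fun g => ?_)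
  simp

lemma CG.inner_ex_ex (h : CG P) (ℓ ℓ' : κ →₀ ℝ) :
    inner ℂ (h.ex ℓ) (h.ex ℓ') = sg P ℓ * sg P ℓ' * Complex.exp (bil P ℓ ℓ') := by
  unfold CG.ex
  rw [inner_toLp]
  have e : ∀ g : κ → ℝ, conj (Complex.exp ((pair ℓ g : ℝ) * Complex.I)) *
      Complex.exp ((pair ℓ' g : ℝ) * Complex.I) =
      Complex.exp ((pair (ℓ' - ℓ) g : ℝ) * Complex.I) := by
    intro g
    rw [← Complex.exp_conj, ← Complex.exp_add, pair_sub]
    congr 1
    simp only [map_mul, Complex.conj_ofReal, Complex.conj_I]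
    push_cast; ring
  simp only [e]
  rw [h.char', sg_eq, sg_eq, ← Complex.exp_add, ← Complex.exp_add]
  congr 1
  have e2 : ℓ' - ℓ = ℓ' + (-1 : ℝ) • ℓ := by rw [neg_one_smul, sub_eq_add_neg]
  rw [e2, h.bil_add_right, h.bil_add_left, h.bil_add_left, h.bil_smul_left,
      h.bil_smul_right, h.bil_smul_right, h.bil_smul_left, bil_comm P ℓ' ℓ]
  push_cast
  ring

lemma CG.inner_one_one (h : CG P) : inner ℂ h.one h.one = 1 := by
  have := h.prob
  unfold CG.one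
  rw [inner_toLp]
  simp

lemma CG.inner_one_lin (h : CG P) (ℓ : κ →₀ ℝ) : inner ℂ h.one (h.lin ℓ) = 0 := by
  unfold CG.one CG.lin
  rw [inner_toLp]
  simp only [map_one, one_mul]
  exact h.integral_pair ℓ

lemma CG.inner_lin_one (h : CG P) (ℓ : κ →₀ ℝ) : inner ℂ (h.lin ℓ) h.one = 0 := by
  rw [← inner_conj_symm, h.inner_one_lin, map_zero]

lemma CG.inner_one_ex (h : CG P) (ℓ : κ →₀ ℝ) : inner ℂ h.one (h.ex ℓ) = sg P ℓ := by
  unfold CG.one CG.ex
  rw [inner_toLp]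
  simp only [map_one, one_mul]
  rw [h.char', sg_eq]

lemma CG.inner_ex_one (h : CG P) (ℓ : κ →₀ ℝ) : inner ℂ (h.ex ℓ) h.one = sg P ℓ := by
  rw [← inner_conj_symm, h.inner_one_ex, Complex.conj_ofReal]

lemma CG.inner_lin_ex (h : CG P) (ℓ ℓ' : κ →₀ ℝ) :
    inner ℂ (h.lin ℓ) (h.ex ℓ') = Complex.I * bil P ℓ ℓ' * sg P ℓ' := by
  unfold CG.lin CG.ex
  rw [inner_toLp]
  simp only [Complex.conj_ofReal]
  rw [h.integral_mul_exp, sg_eq, bil_comm]

lemma CG.inner_ex_lin (h : CG P) (ℓ ℓ' : κ →₀ ℝ) :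
    inner ℂ (h.ex ℓ) (h.lin ℓ') = -Complex.I * bil P ℓ ℓ' * sg P ℓ := by
  rw [← inner_conj_symm, h.inner_lin_ex, bil_comm]
  simp

/-- the part of the exponential in the chaoses of order at least two -/
noncomputable def CG.wv (h : CG P) (ℓ : κ →₀ ℝ) : Lp ℂ 2 P :=
  h.ex ℓ - (sg P ℓ : ℂ) • h.one - (Complex.I * sg P ℓ) • h.lin ℓ

lemma CG.inner_wv_lin (h : CG P) (ℓ ℓ' : κ →₀ ℝ) : inner ℂ (h.wv ℓ) (h.lin ℓ') = 0 := by
  unfold CG.wv
  rw [inner_sub_left, inner_sub_left, inner_smul_left, inner_smul_left, h.inner_ex_lin,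
    h.inner_one_lin, h.inner_lin_lin]
  simp
  ring

lemma CG.inner_wv_one (h : CG P) (ℓ : κ →₀ ℝ) : inner ℂ (h.wv ℓ) h.one = 0 := by
  unfold CG.wv
  rw [inner_sub_left, inner_sub_left, inner_smul_left, inner_smul_left, h.inner_ex_one,
    h.inner_one_one, h.inner_lin_one]
  simp

lemma CG.inner_wv_wv (h : CG P) (ℓ ℓ' : κ →₀ ℝ) : inner ℂ (h.wv ℓ) (h.wv ℓ') =
    sg P ℓ * sg P ℓ' * (Complex.exp (bil P ℓ ℓ') - 1 - bil P ℓ ℓ') := by
  have e1 : inner ℂ (h.wv ℓ) (h.wv ℓ') = inner ℂ (h.wv ℓ) (h.ex ℓ') := by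
    conv_lhs => rw [show h.wv ℓ' = h.ex ℓ' - (sg P ℓ' : ℂ) • h.one -
      (Complex.I * sg P ℓ') • h.lin ℓ' from rfl]
    rw [inner_sub_right, inner_sub_right, inner_smul_right, inner_smul_right, h.inner_wv_lin,
      h.inner_wv_one]
    simp
  rw [e1]
  unfold CG.wv
  rw [inner_sub_left, inner_sub_left, inner_smul_left, inner_smul_left, h.inner_ex_ex,
    h.inner_one_ex, h.inner_lin_ex]
  simp only [map_mul, Complex.conj_ofReal, Complex.conj_I]
  have : Complex.I * Complex.I = -1 := Complex.I_mul_I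
  linear_combination ((sg P ℓ : ℂ) * sg P ℓ' * bil P ℓ ℓ') * this

/-- An element of `L²` orthogonal to all exponentials vanishes. -/
lemma CG.eq_zero_of_inner_ex (h : CG P) (Z : Lp ℂ 2 P) (hZ : ∀ ℓ, inner ℂ (h.ex ℓ) Z = 0) :
    Z = 0 := by
  have := h.prob
  have hZi : Integrable (Z : (κ → ℝ) → ℂ) P := (Lp.memLp Z).integrable (by norm_num)
  have h1 := ae_eq_zero_of_charPath_complex P hZi fun ℓ => by
    have h2 := hZ (-ℓ)
    rw [L2.inner_def] at h2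
    rw [← h2]
    refine integral_congr_ae ?_
    filter_upwards [(h.memLp_exp (-ℓ)).coeFn_toLp] with g hg
    change Z g * _ = inner ℂ ((h.ex (-ℓ) : Lp ℂ 2 P) g) (Z g)
    unfold CG.ex
    rw [hg, RCLike.inner_apply', ← Complex.exp_conj, mul_comm]
    congr 2
    simp [pair_neg]
  exact Lp.ext (h1.trans (Lp.coeFn_zero _ _ _).symm)

end Pool.Agent.Lib_helper70.Berry
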