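import Pool.Agent.Lib_helper70.Berry.Bochner

/-!
# Stationary processes with mutually singular spectral measures are orthogonal
(sphere against its complement)
-/

set_option linter.unusedSectionVars false

open MeasureTheory Set Filter Topology ProbabilityTheory
open scoped ENNReal RealInnerProductSpace ComplexConjugate

namespace Pool.Agent.Lib_helper70.Berry

variable {E : Type*} [NormedAddCommGroup E] [InnerProductSpace ℝ E] [FiniteDimensional ℝ E]
  [MeasurableSpace E] [BorelSpace E]
variable {H : Type*} [NormedAddCommGroup H] [InnerProductSpace ℂ H] [CompleteSpace H]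

/-- centred Gaussian probability measure with characteristic function `exp (-s |t|^2)` -/
noncomputable def gms (s : ℝ) : Measure E := (stdGaussian E).map (fun x => √(2 * s) • x)

instance isProb_gms (s : ℝ) : IsProbabilityMeasure (gms s : Measure E) :=
  Measure.isProbabilityMeasure_map (by fun_prop)

lemma charFun_gms {s : ℝ} (hs : 0 ≤ s) (t : E) :
    charFun (gms s : Measure E) t = Complex.exp (-s * ‖t‖ ^ 2) := by
  unfold gms
  rw [charFun_map_smul, charFun_stdGaussian, norm_smul, Real.norm_of_nonneg (Real.sqrt_nonneg _)]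
  congr 1
  have : (√(2 * s)) ^ 2 = 2 * s := Real.sq_sqrt (by positivity)
  have h2 : ((√(2 * s) : ℝ) : ℂ) ^ 2 = 2 * s := by
    rw [← Complex.ofReal_pow, this]; push_cast; ring
  push_cast
  rw [mul_pow, h2]
  ring

lemma Stat.integrable {v : E → H} (h : Stat v) (κ : Measure E) [IsFiniteMeasure κ] :
    Integrable v κ := by
  refine Integrable.mono' (integrable_const ‖v 0‖) h.cont.aestronglyMeasurable ?_
  exact Filter.Eventually.of_forall fun x => (h.norm_eq x).le

lemma inner_avg {v : E → H} (h : Stat v) {μ : Measure E} [IsFiniteMeasure μ]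
    (hμ : ∀ x, charFun μ x = Kv v x) (κ ρ : Measure E) [IsFiniteMeasure κ] [IsFiniteMeasure ρ] :
    inner ℂ (∫ x, v x ∂κ) (∫ y, v y ∂ρ) =
      ∫ k, conj (charFun κ k) * charFun ρ k ∂μ := by
  rw [inner_integral_integral (h.integrable κ) (h.integrable ρ)]
  have e1 : ∀ p : E × E, inner ℂ (v p.1) (v p.2) =
      ∫ k, conj (Complex.exp ((⟪p.1, k⟫ : ℝ) * Complex.I)) *
        Complex.exp ((⟪p.2, k⟫ : ℝ) * Complex.I) ∂μ := by
    intro p
    rw [h.inner_eq, ← hμ, charFun_apply]
    refine integral_congr_ae (Filter.Eventually.of_forall fun k => ?_)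
    simp only
    rw [← Complex.exp_conj, ← Complex.exp_add]
    congr 1
    simp only [map_mul, Complex.conj_ofReal, Complex.conj_I]
    rw [inner_sub_right, real_inner_comm, real_inner_comm p.1]
    push_cast
    ring
  simp only [e1]
  rw [integral_integral_swap]
  · refine integral_congr_ae (Filter.Eventually.of_forall fun k => ?_)
    simp only
    rw [charFun_apply, charFun_apply, ← integral_conj]
    exact integral_prod_mul (fun x : E => conj (Complex.exp ((⟪x, k⟫ : ℝ) * Complex.I)))
      (fun x : E => Complex.exp ((⟪x, k⟫ : ℝ) * Complex.I))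
  · refine Integrable.mono' (integrable_const (1 : ℝ)) ?_ ?_
    · have : Continuous (Function.uncurry fun (p : E × E) (k : E) =>
        conj (Complex.exp ((⟪p.1, k⟫ : ℝ) * Complex.I)) *
        Complex.exp ((⟪p.2, k⟫ : ℝ) * Complex.I)) := by
        simp only [Function.uncurry_def]
        fun_prop
      exact this.aestronglyMeasurable
    · refine Filter.Eventually.of_forall fun q => ?_
      simp only [Function.uncurry]
      rw [norm_mul, RCLike.norm_conj, Complex.norm_exp_ofReal_mul_I,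
        Complex.norm_exp_ofReal_mul_I, one_mul]

lemma norm_sq_avg_sub {v : E → H} (h : Stat v) {μ : Measure E} [IsFiniteMeasure μ]
    (hμ : ∀ x, charFun μ x = Kv v x) (κ ρ : Measure E) [IsFiniteMeasure κ] [IsFiniteMeasure ρ] :
    ‖(∫ x, v x ∂κ) - ∫ y, v y ∂ρ‖ ^ 2 = ∫ k, ‖charFun κ k - charFun ρ k‖ ^ 2 ∂μ := by
  have hint : ∀ (κ ρ : Measure E) [IsFiniteMeasure κ] [IsFiniteMeasure ρ],
      Integrable (fun k => conj (charFun κ k) * charFun ρ k) μ := by
    intro κ ρ _ _
    refine Integrable.mono' (integrable_const (κ.real univ * ρ.real univ)) ?_ ?_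
    · exact ((continuous_charFun (μ := κ)).star.mul continuous_charFun).aestronglyMeasurable
    · refine Filter.Eventually.of_forall fun k => ?_
      rw [norm_mul, RCLike.norm_conj]
      exact mul_le_mul (norm_charFun_le k) (norm_charFun_le k) (norm_nonneg _)
        measureReal_nonneg
  have e : (((‖(∫ x, v x ∂κ) - ∫ y, v y ∂ρ‖ ^ 2 : ℝ)) : ℂ) =
      ((∫ k, ‖charFun κ k - charFun ρ k‖ ^ 2 ∂μ : ℝ) : ℂ) := by
    have e0 : (((‖(∫ x, v x ∂κ) - ∫ y, v y ∂ρ‖ ^ 2 : ℝ)) : ℂ) =
        inner ℂ ((∫ x, v x ∂κ) - ∫ y, v y ∂ρ) ((∫ x, v x ∂κ) - ∫ y, v y ∂ρ) := by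
      rw [inner_self_eq_norm_sq_to_K]; push_cast; rfl
    rw [e0, inner_sub_left, inner_sub_right, inner_sub_right, inner_avg h hμ, inner_avg h hμ,
      inner_avg h hμ, inner_avg h hμ, ← integral_complex_ofReal]
    have e5 : ∫ k, ((conj (charFun κ k) * charFun κ k - conj (charFun κ k) * charFun ρ k) -
        (conj (charFun ρ k) * charFun κ k - conj (charFun ρ k) * charFun ρ k)) ∂μ =
        (∫ k, conj (charFun κ k) * charFun κ k ∂μ - ∫ k, conj (charFun κ k) * charFun ρ k ∂μ) -
        (∫ k, conj (charFun ρ k) * charFun κ k ∂μ - ∫ k, conj (charFun ρ k) * charFun ρ k ∂μ) := by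
      rw [integral_sub, integral_sub (hint κ κ) (hint κ ρ), integral_sub (hint ρ κ) (hint ρ ρ)]
      · exact (hint κ κ).sub (hint κ ρ)
      · exact (hint ρ κ).sub (hint ρ ρ)
    rw [← e5]
    refine integral_congr_ae (Filter.Eventually.of_forall fun k => ?_)
    simp only
    rw [← Complex.normSq_eq_norm_sq, Complex.normSq_eq_conj_mul_self]
    simp only [map_sub]
    ring
  exact_mod_cast e

/-- Real functions that are differences of two characteristic functions. -/
def Adm (Q : E → ℝ) : Prop :=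
  ∃ κ ρ : Measure E, IsFiniteMeasure κ ∧ IsFiniteMeasure ρ ∧
    ∀ k, (Q k : ℂ) = charFun κ k - charFun ρ k

lemma charFun_add_measure' (κ ρ : Measure E) [IsFiniteMeasure κ] [IsFiniteMeasure ρ] (t : E) :
    charFun (κ + ρ) t = charFun κ t + charFun ρ t := by
  rw [charFun_apply, charFun_apply, charFun_apply]
  apply integral_add_measure
  · refine Integrable.mono' (integrable_const (1 : ℝ)) ?_ ?_
    · exact (by fun_prop : Continuous fun x : E => Complex.exp ((⟪x, t⟫ : ℝ) *
        Complex.I)).aestronglyMeasurable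
    · exact Filter.Eventually.of_forall fun x => (Complex.norm_exp_ofReal_mul_I _).le
  · refine Integrable.mono' (integrable_const (1 : ℝ)) ?_ ?_
    · exact (by fun_prop : Continuous fun x : E => Complex.exp ((⟪x, t⟫ : ℝ) *
        Complex.I)).aestronglyMeasurable
    · exact Filter.Eventually.of_forall fun x => (Complex.norm_exp_ofReal_mul_I _).le

lemma Adm.mul {Q Q' : E → ℝ} (h : Adm Q) (h' : Adm Q') : Adm (fun k => Q k * Q' k) := by
  obtain ⟨κ, ρ, hκ, hρ, hQ⟩ := h
  obtain ⟨κ', ρ', hκ', hρ', hQ'⟩ := h'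
  refine ⟨Measure.conv κ κ' + Measure.conv ρ ρ', Measure.conv κ ρ' + Measure.conv ρ κ',
    inferInstance, inferInstance, fun k => ?_⟩
  rw [charFun_add_measure', charFun_add_measure', charFun_conv, charFun_conv, charFun_conv,
    charFun_conv]
  push_cast
  rw [hQ, hQ']
  ring

lemma adm_one : Adm (fun _ : E => (1 : ℝ)) := by
  refine ⟨Measure.dirac 0, 0, inferInstance, inferInstance, fun k => ?_⟩
  simp

lemma Adm.pow {Q : E → ℝ} (h : Adm Q) (m : ℕ) : Adm (fun k => Q k ^ m) := by
  induction m with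
  | zero => simpa using adm_one
  | succ m ih =>
    simp only [pow_succ]
    exact ih.mul h

/-- the multiplier `4 y (1 - y)` with `y = 2 ^ (-|k|^2)` -/
noncomputable def Qs (k : E) : ℝ :=
  4 * (Real.exp (-(Real.log 2) * ‖k‖ ^ 2) - Real.exp (-(2 * Real.log 2) * ‖k‖ ^ 2))

lemma Qs_eq (k : E) : Qs k = 4 * (Real.exp (-(Real.log 2) * ‖k‖ ^ 2) *
    (1 - Real.exp (-(Real.log 2) * ‖k‖ ^ 2))) := by
  unfold Qs
  have : Real.exp (-(2 * Real.log 2) * ‖k‖ ^ 2) =
      Real.exp (-(Real.log 2) * ‖k‖ ^ 2) * Real.exp (-(Real.log 2) * ‖k‖ ^ 2) := by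
    rw [← Real.exp_add]; congr 1; ring
  rw [this]
  ring

lemma adm_Qs : Adm (Qs : E → ℝ) := by
  have hl : 0 ≤ Real.log 2 := Real.log_nonneg (by norm_num)
  refine ⟨(4 : ℝ≥0∞) • gms (Real.log 2), (4 : ℝ≥0∞) • gms (2 * Real.log 2), ?_, ?_, fun k => ?_⟩
  · exact Measure.smul_finite _ (by norm_num)
  · exact Measure.smul_finite _ (by norm_num)
  · rw [charFun_apply, charFun_apply, integral_smul_measure, integral_smul_measure,
      ← charFun_apply, ← charFun_apply, charFun_gms hl, charFun_gms (by positivity)]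
    unfold Qs
    push_cast
    simp only [ENNReal.toReal_ofNat, Complex.real_smul]
    push_cast
    ring

lemma Qs_nonneg (k : E) : 0 ≤ Qs k := by
  rw [Qs_eq]
  have hl : 0 ≤ Real.log 2 := Real.log_nonneg (by norm_num)
  have : Real.exp (-(Real.log 2) * ‖k‖ ^ 2) ≤ 1 := by
    apply Real.exp_le_one_iff.2
    have : 0 ≤ Real.log 2 * ‖k‖ ^ 2 := by positivity
    linarith
  have := Real.exp_pos (-(Real.log 2) * ‖k‖ ^ 2)
  apply mul_nonneg (by norm_num)
  apply mul_nonneg this.le
  linarith

lemma one_sub_Qs (k : E) : 1 - Qs k = (2 * Real.exp (-(Real.log 2) * ‖k‖ ^ 2) - 1) ^ 2 := by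
  rw [Qs_eq]; ring

lemma Qs_le_one (k : E) : Qs k ≤ 1 := by
  have := one_sub_Qs k
  nlinarith [sq_nonneg (2 * Real.exp (-(Real.log 2) * ‖k‖ ^ 2) - 1)]

lemma Qs_eq_one_iff (k : E) : Qs k = 1 ↔ ‖k‖ = 1 := by
  have hl : 0 < Real.log 2 := Real.log_pos (by norm_num)
  have e2 : (2 : ℝ) = Real.exp (Real.log 2) := (Real.exp_log (by norm_num)).symm
  constructor
  · intro h
    have h1 := one_sub_Qs k
    rw [h, sub_self] at h1
    have h2 : 2 * Real.exp (-(Real.log 2) * ‖k‖ ^ 2) - 1 = 0 := by
      exact pow_eq_zero_iff (two_ne_zero) |>.1 h1.symm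
    have h3 : Real.exp (Real.log 2 + -(Real.log 2) * ‖k‖ ^ 2) = 1 := by
      rw [Real.exp_add, ← e2]; linarith
    rw [Real.exp_eq_one_iff] at h3
    have h4 : Real.log 2 * (1 - ‖k‖ ^ 2) = 0 := by linarith
    rcases mul_eq_zero.1 h4 with h5 | h5
    · exact absurd h5 hl.ne'
    · have : ‖k‖ ^ 2 = 1 ^ 2 := by linarith
      exact (sq_eq_sq₀ (norm_nonneg _) zero_le_one).1 this
  · intro h
    have h1 := one_sub_Qs k
    have : 2 * Real.exp (-(Real.log 2) * ‖k‖ ^ 2) = 1 := by
      rw [h, one_pow, mul_one, Real.exp_neg, Real.exp_log (by norm_num)]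
      norm_num
    rw [this] at h1
    linarith

/-- Two jointly stationary processes, the first with spectral measure on the unit sphere, the
second with spectral measure not charging the unit sphere, are orthogonal. -/
theorem inner_eq_zero_of_sphere {v w : E → H} (hv : Stat v) (hw : Stat w)
    (hvw : ∀ x y z, inner ℂ (v (x + z)) (w (y + z)) = inner ℂ (v x) (w y))
    {μ ν : Measure E} [IsFiniteMeasure μ] [IsFiniteMeasure ν]
    (hμ : ∀ x, charFun μ x = Kv v x) (hν : ∀ x, charFun ν x = Kv w x)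
    (hμS : ∀ᵐ k ∂μ, ‖k‖ = 1) (hνS : ∀ᵐ k ∂ν, ‖k‖ ≠ 1) : inner ℂ (v 0) (w 0) = 0 := by
  have key : ∀ m : ℕ, ‖inner ℂ (v 0) (w 0)‖ ^ 2 ≤ ‖v 0‖ ^ 2 * ∫ k, (Qs k ^ m) ^ 2 ∂ν := by
    intro m
    obtain ⟨κ, ρ, hκ, hρ, hQ0⟩ := (adm_Qs (E := E)).pow m
    have hQ : ∀ k : E, ((Qs k ^ m : ℝ) : ℂ) = charFun κ k - charFun ρ k := hQ0
    -- the average of `v` is `v 0`
    have h1 : (∫ x, v x ∂κ) - ∫ x, v x ∂ρ = v 0 := by
      have h2 := norm_sq_avg_sub hv hμ κ (ρ + Measure.dirac 0)
      have h3 : ∫ k, ‖charFun κ k - charFun (ρ + Measure.dirac 0) k‖ ^ 2 ∂μ = 0 := by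
        have : ∀ᵐ k ∂μ, ‖charFun κ k - charFun (ρ + Measure.dirac 0) k‖ ^ 2 = 0 := by
          filter_upwards [hμS] with k hk
          rw [charFun_add_measure', charFun_dirac, inner_zero_left]
          have : charFun κ k = 1 + charFun ρ k := by
            have := hQ k
            rw [(Qs_eq_one_iff k).2 hk] at this
            simp only [one_pow, Complex.ofReal_one] at this
            rw [this]; ring
          rw [this]
          simp [add_comm]
        rw [integral_congr_ae this, integral_zero]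
      rw [h3] at h2
      have h4 : ‖(∫ x, v x ∂κ) - ∫ x, v x ∂(ρ + Measure.dirac 0)‖ = 0 :=
        pow_eq_zero_iff (two_ne_zero) |>.1 h2
      rw [norm_eq_zero, integral_add_measure (hv.integrable _) (hv.integrable _),
        integral_dirac] at h4
      rw [sub_add_eq_sub_sub, sub_eq_zero] at h4
      exact h4
    -- reflected measures
    set κ' := κ.map (fun x => -x) with hκ'
    set ρ' := ρ.map (fun x => -x) with hρ'
    have hκf : IsFiniteMeasure κ' := by
      rw [hκ']; exact Measure.isFiniteMeasure_map κ _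
    have hρf : IsFiniteMeasure ρ' := by
      rw [hρ']; exact Measure.isFiniteMeasure_map ρ _
    have hc : ∀ (κ : Measure E) (k : E), charFun (κ.map (fun x => -x)) k = conj (charFun κ k) := by
      intro κ k
      have := charFun_map_smul (μ := κ) (-1) k
      simp only [neg_smul, one_smul] at this
      rw [this, charFun_neg]
    have h5 : inner ℂ (v 0) (w 0) = inner ℂ (v 0) ((∫ x, w x ∂κ') - ∫ x, w x ∂ρ') := by
      have e : ∀ (κ : Measure E) [IsFiniteMeasure κ], inner ℂ (∫ x, v x ∂κ) (w 0) =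
          inner ℂ (v 0) (∫ x, w x ∂(κ.map (fun x => -x))) := by
        intro κ _
        have hf : IsFiniteMeasure (κ.map (fun x => -x)) := Measure.isFiniteMeasure_map κ _
        rw [← integral_inner (hw.integrable _), integral_map (by fun_prop)
          ((continuous_const.inner hw.cont).aestronglyMeasurable)]
        rw [← inner_conj_symm, ← integral_inner (hv.integrable _), ← integral_conj]
        refine integral_congr_ae (Filter.Eventually.of_forall fun x => ?_)
        simp only
        rw [inner_conj_symm]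
        have := hvw 0 (-x) x
        rw [zero_add, neg_add_cancel] at this
        exact this
      calc inner ℂ (v 0) (w 0) = inner ℂ ((∫ x, v x ∂κ) - ∫ x, v x ∂ρ) (w 0) := by rw [h1]
        _ = _ := by rw [inner_sub_left, e κ, e ρ, ← inner_sub_right]
    have h6 : ‖(∫ x, w x ∂κ') - ∫ x, w x ∂ρ'‖ ^ 2 = ∫ k, (Qs k ^ m) ^ 2 ∂ν := by
      rw [norm_sq_avg_sub hw hν κ' ρ']
      refine integral_congr_ae (Filter.Eventually.of_forall fun k => ?_)
      simp only [hκ', hρ']
      rw [hc, hc, ← map_sub, RCLike.norm_conj, ← hQ, Complex.norm_real, Real.norm_eq_abs, sq_abs]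
    rw [h5, ← h6, ← mul_pow]
    gcongr
    exact norm_inner_le_norm _ _
  have hlim : Tendsto (fun m : ℕ => ‖v 0‖ ^ 2 * ∫ k, (Qs k ^ m) ^ 2 ∂ν) atTop
      (𝓝 (‖v 0‖ ^ 2 * ∫ _k : E, (0 : ℝ) ∂ν)) := by
    refine Tendsto.const_mul _ ?_
    refine tendsto_integral_of_dominated_convergence (fun _ => (1 : ℝ)) ?_ (integrable_const _)
      ?_ ?_
    · intro m
      have : Continuous (fun k : E => (Qs k ^ m) ^ 2) := by
        unfold Qs; fun_prop
      exact this.aestronglyMeasurable
    · intro m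
      refine Filter.Eventually.of_forall fun k => ?_
      rw [Real.norm_of_nonneg (by positivity)]
      have h1 := Qs_nonneg k
      have h2 := Qs_le_one k
      exact pow_le_one₀ (pow_nonneg h1 _) (pow_le_one₀ h1 h2)
    · filter_upwards [hνS] with k hk
      have h1 := Qs_nonneg k
      have h2 : Qs k < 1 := lt_of_le_of_ne (Qs_le_one k) (fun h => hk ((Qs_eq_one_iff k).1 h))
      have := (tendsto_pow_atTop_nhds_zero_of_lt_one h1 h2).pow 2
      simpa using this
  rw [integral_zero, mul_zero] at hlim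
  have : ‖inner ℂ (v 0) (w 0)‖ ^ 2 ≤ 0 := ge_of_tendsto' hlim key
  have h2 : ‖inner ℂ (v 0) (w 0)‖ = 0 := by
    nlinarith [norm_nonneg (inner ℂ (v 0) (w 0)), sq_nonneg ‖inner ℂ (v 0) (w 0)‖]
  exact norm_eq_zero.1 h2

end Pool.Agent.Lib_helper70.Berry
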