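import Pool.Agent.Lib_helper70.Berry.Orth

/-!
# Jointly stationary processes with mutually singular spectral measures are orthogonal
-/

set_option linter.unusedSectionVars false

open MeasureTheory Set Filter Topology
open scoped ENNReal RealInnerProductSpace ComplexConjugate

namespace Pool.Agent.Lib_helper70.Berry

variable {E : Type*} [NormedAddCommGroup E] [InnerProductSpace ℝ E] [FiniteDimensional ℝ E]
  [MeasurableSpace E] [BorelSpace E]
variable {H : Type*} [NormedAddCommGroup H] [InnerProductSpace ℂ H] [CompleteSpace H]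

lemma Stat.lincomb {v w : E → H} (hv : Stat v) (hw : Stat w)
    (hvw : ∀ x y z, inner ℂ (v (x + z)) (w (y + z)) = inner ℂ (v x) (w y)) (a b : ℂ) :
    Stat (fun x => a • v x + b • w x) := by
  have hwv : ∀ x y z, inner ℂ (w (x + z)) (v (y + z)) = inner ℂ (w x) (v y) := by
    intro x y z
    rw [← inner_conj_symm, hvw, inner_conj_symm]
  refine ⟨(hv.cont.const_smul a).add (hw.cont.const_smul b), fun x y z => ?_⟩
  simp only [inner_add_left, inner_add_right, inner_smul_left, inner_smul_right]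
  rw [hv.inv, hw.inv, hvw, hwv]

lemma Kv_lincomb {v w : E → H} (a b : ℂ) (x : E) :
    Kv (fun x => a • v x + b • w x) x = (conj a * a) * Kv v x + (conj b * b) * Kv w x +
      (conj a * b) * inner ℂ (v 0) (w x) + (conj b * a) * inner ℂ (w 0) (v x) := by
  unfold Kv
  simp only [inner_add_left, inner_add_right, inner_smul_left, inner_smul_right]
  ring

lemma spectral_mass {v : E → H} {μ : Measure E} [IsFiniteMeasure μ]
    (hμ : ∀ x, charFun μ x = Kv v x) : μ.real univ = ‖v 0‖ ^ 2 := by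
  have h := hμ 0
  rw [charFun_zero] at h
  unfold Kv at h
  rw [inner_self_eq_norm_sq_to_K] at h
  have h2 : ((μ.real univ : ℝ) : ℂ) = ((‖v 0‖ ^ 2 : ℝ) : ℂ) := by
    rw [h]; push_cast; rfl
  exact Complex.ofReal_injective h2

lemma charFun_smul_measure' (c : ℝ≥0∞) (μ : Measure E) (x : E) :
    charFun (c • μ) x = c.toReal * charFun μ x := by
  rw [charFun_apply, charFun_apply, integral_smul_measure, Complex.real_smul]

/-- domination of the spectral measure of a sum -/
lemma spectral_add_le {v w : E → H} (hv : Stat v) (hw : Stat w)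
    (hvw : ∀ x y z, inner ℂ (v (x + z)) (w (y + z)) = inner ℂ (v x) (w y))
    {μ ν ρ : Measure E} [IsFiniteMeasure μ] [IsFiniteMeasure ν] [IsFiniteMeasure ρ]
    (hμ : ∀ x, charFun μ x = Kv v x) (hν : ∀ x, charFun ν x = Kv w x) {u : ℂ} (hu : ‖u‖ = 1)
    (hρ : ∀ x, charFun ρ x = Kv (fun x => v x + u • w x) x) {s : ℝ} (hs : 0 < s) (A : Set E) :
    ρ.real A ≤ (1 + s ^ 2) * μ.real A + (1 + (s⁻¹) ^ 2) * ν.real A := by
  have hst := hv.lincomb hw hvw (s : ℂ) (-(s : ℂ)⁻¹ * u)
  obtain ⟨κ, hκf, hκ⟩ := exists_spectral hst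
  have huu : conj u * u = 1 := by
    rw [← Complex.normSq_eq_conj_mul_self, Complex.normSq_eq_norm_sq, hu]; simp
  have hsc : (s : ℂ) ≠ 0 := by exact_mod_cast hs.ne'
  have h1 : (0 : ℝ) ≤ 1 + s ^ 2 := by positivity
  have h2 : (0 : ℝ) ≤ 1 + (s⁻¹) ^ 2 := by positivity
  set c1 : ℝ≥0∞ := ENNReal.ofReal (1 + s ^ 2) with hc1
  set c2 : ℝ≥0∞ := ENNReal.ofReal (1 + (s⁻¹) ^ 2) with hc2
  have hf1 : IsFiniteMeasure (c1 • μ) := μ.smul_finite ENNReal.ofReal_ne_top
  have hf2 : IsFiniteMeasure (c2 • ν) := ν.smul_finite ENNReal.ofReal_ne_top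
  have heq : ρ + κ = c1 • μ + c2 • ν := by
    refine Measure.ext_of_charFun ?_
    funext x
    rw [charFun_add_measure', charFun_add_measure', charFun_smul_measure', charFun_smul_measure',
      hρ, hκ, hμ, hν, Kv_lincomb]
    have : Kv (fun x => v x + u • w x) x = Kv (fun x => (1 : ℂ) • v x + u • w x) x := by
      simp only [one_smul]
    rw [this, Kv_lincomb]
    rw [hc1, hc2, ENNReal.toReal_ofReal h1, ENNReal.toReal_ofReal h2]
    simp only [map_one, map_mul, map_neg, map_inv₀, Complex.conj_ofReal, huu]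
    have e1 : -(s : ℂ)⁻¹ * conj u * (-(s : ℂ)⁻¹ * u) = ((s : ℂ)⁻¹) ^ 2 := by
      linear_combination ((s : ℂ)⁻¹) ^ 2 * huu
    rw [e1]
    push_cast
    field_simp
    ring
  have h3 : ρ A ≤ (c1 • μ + c2 • ν) A := by
    rw [← heq, Measure.add_apply]
    exact le_self_add
  have h4 := ENNReal.toReal_mono (measure_ne_top _ _) h3
  rw [Measure.add_apply, Measure.smul_apply, Measure.smul_apply, smul_eq_mul, smul_eq_mul,
    ENNReal.toReal_add (ENNReal.mul_ne_top ENNReal.ofReal_ne_top (measure_ne_top _ _))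
      (ENNReal.mul_ne_top ENNReal.ofReal_ne_top (measure_ne_top _ _)),
    ENNReal.toReal_mul, ENNReal.toReal_mul, ENNReal.toReal_ofReal h1,
    ENNReal.toReal_ofReal h2] at h4
  exact h4

lemma re_inner_le_of_singular {v w : E → H} (hv : Stat v) (hw : Stat w)
    (hvw : ∀ x y z, inner ℂ (v (x + z)) (w (y + z)) = inner ℂ (v x) (w y))
    {μ ν : Measure E} [IsFiniteMeasure μ] [IsFiniteMeasure ν]
    (hμ : ∀ x, charFun μ x = Kv v x) (hν : ∀ x, charFun ν x = Kv w x) (hsing : μ ⟂ₘ ν)
    {u : ℂ} (hu : ‖u‖ = 1) : (u * inner ℂ (v 0) (w 0)).re ≤ 0 := by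
  have hst := hv.lincomb hw hvw 1 u
  simp only [one_smul] at hst
  obtain ⟨ρ, hρf, hρ⟩ := exists_spectral hst
  obtain ⟨A, hA, hμA, hνA⟩ := hsing
  have hμA' : μ.real A = 0 := by rw [measureReal_def, hμA, ENNReal.toReal_zero]
  have hνA' : ν.real Aᶜ = 0 := by rw [measureReal_def, hνA, ENNReal.toReal_zero]
  have k1 : ρ.real A ≤ ν.real A := by
    have hlim : Tendsto (fun s : ℝ => (1 + (s⁻¹) ^ 2) * ν.real A) atTop
        (𝓝 ((1 + 0 ^ 2) * ν.real A)) :=
      ((tendsto_inv_atTop_zero.pow 2).const_add 1).mul_const _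
    rw [zero_pow two_ne_zero, add_zero, one_mul] at hlim
    refine ge_of_tendsto hlim ?_
    filter_upwards [eventually_gt_atTop 0] with s hs
    have := spectral_add_le hv hw hvw hμ hν hu hρ hs A
    rwa [hμA', mul_zero, zero_add] at this
  have k2 : ρ.real Aᶜ ≤ μ.real Aᶜ := by
    have hlim : Tendsto (fun s : ℝ => (1 + (s⁻¹) ^ 2) * μ.real Aᶜ) atTop
        (𝓝 ((1 + 0 ^ 2) * μ.real Aᶜ)) :=
      ((tendsto_inv_atTop_zero.pow 2).const_add 1).mul_const _
    rw [zero_pow two_ne_zero, add_zero, one_mul] at hlim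
    refine ge_of_tendsto hlim ?_
    filter_upwards [eventually_gt_atTop 0] with s hs
    have := spectral_add_le hv hw hvw hμ hν hu hρ (inv_pos.2 hs) Aᶜ
    rwa [hνA', mul_zero, add_zero] at this
  have m1 : ρ.real univ = ρ.real A + ρ.real Aᶜ := (measureReal_add_measureReal_compl hA).symm
  have m2 : μ.real univ = μ.real A + μ.real Aᶜ := (measureReal_add_measureReal_compl hA).symm
  have m3 : ν.real univ = ν.real A + ν.real Aᶜ := (measureReal_add_measureReal_compl hA).symm
  rw [spectral_mass hρ] at m1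
  rw [spectral_mass hμ] at m2
  rw [spectral_mass hν] at m3
  have m4 : ‖v 0 + u • w 0‖ ^ 2 = ‖v 0‖ ^ 2 + 2 * (u * inner ℂ (v 0) (w 0)).re + ‖w 0‖ ^ 2 := by
    rw [@norm_add_sq ℂ, inner_smul_right, norm_smul, hu, one_mul]
    rfl
  rw [m4] at m1
  linarith

/-- Jointly stationary processes with mutually singular spectral measures are orthogonal. -/
theorem inner_eq_zero_of_singular {v w : E → H} (hv : Stat v) (hw : Stat w)
    (hvw : ∀ x y z, inner ℂ (v (x + z)) (w (y + z)) = inner ℂ (v x) (w y))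
    {μ ν : Measure E} [IsFiniteMeasure μ] [IsFiniteMeasure ν]
    (hμ : ∀ x, charFun μ x = Kv v x) (hν : ∀ x, charFun ν x = Kv w x) (hsing : μ ⟂ₘ ν) :
    inner ℂ (v 0) (w 0) = 0 := by
  have a1 := re_inner_le_of_singular hv hw hvw hμ hν hsing (u := 1) (by simp)
  have a2 := re_inner_le_of_singular hv hw hvw hμ hν hsing (u := -1) (by simp)
  have a3 := re_inner_le_of_singular hv hw hvw hμ hν hsing (u := Complex.I) (by simp)
  have a4 := re_inner_le_of_singular hv hw hvw hμ hν hsing (u := -Complex.I) (by simp)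
  simp only [one_mul, neg_mul, Complex.neg_re, Complex.mul_re, Complex.I_re, Complex.I_im,
    zero_mul, zero_sub, neg_neg] at a1 a2 a3 a4
  apply Complex.ext
  · simp only [Complex.zero_re]; linarith
  · simp only [Complex.zero_im]; linarith

end Pool.Agent.Lib_helper70.Berry
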