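import Pool.Agent.Lib_helper70.Berry.GaussPath
import Pool.Agent.Lib_helper70.Berry.OrthSing

/-!
# Monochromatic square integrable functionals of an atomless Gaussian family are linear
-/

set_option linter.unusedSectionVars false

open MeasureTheory Set Filter Topology ProbabilityTheory
open scoped ENNReal RealInnerProductSpace ComplexConjugate

namespace Pool.Agent.Lib_helper70.Berry

variable {E : Type*} [NormedAddCommGroup E] [InnerProductSpace ℝ E] [FiniteDimensional ℝ E]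
  [MeasurableSpace E] [BorelSpace E]
variable {ι : Type*}

/-- translation of the index -/
def tau (x : E) (p : ι × E) : ι × E := (p.1, p.2 + x)

lemma tau_add (x z : E) (p : ι × E) : tau (x + z) p = tau z (tau x p) := by
  simp [tau, add_assoc]

/-- translation of paths -/
def Tsh (x : E) (g : ι × E → ℝ) : ι × E → ℝ := fun p => g (tau x p)

lemma Tsh_add (x z : E) (g : ι × E → ℝ) : Tsh (x + z) g = Tsh x (Tsh z g) := by
  funext p
  simp only [Tsh, tau_add]

lemma measurable_Tsh (x : E) : Measurable (Tsh (ι := ι) x) :=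
  measurable_pi_lambda _ fun _p => measurable_pi_apply _

/-- translation of functionals -/
noncomputable def sh (x : E) (ℓ : ι × E →₀ ℝ) : ι × E →₀ ℝ := ℓ.mapDomain (tau x)

lemma pair_sh (x : E) (ℓ : ι × E →₀ ℝ) (g : ι × E → ℝ) : pair (sh x ℓ) g = pair ℓ (Tsh x g) := by
  classical
  unfold pair sh
  rw [Finsupp.sum_mapDomain_index (by simp) (by intros; ring)]
  rfl

lemma sh_zero_arg (ℓ : ι × E →₀ ℝ) : sh (0 : E) ℓ = ℓ := by
  unfold sh
  have : (tau (0 : E) : ι × E → ι × E) = id := by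
    funext p; simp [tau]
  rw [this, Finsupp.mapDomain_id]

lemma sh_add' (x : E) (ℓ ℓ' : ι × E →₀ ℝ) : sh x (ℓ + ℓ') = sh x ℓ + sh x ℓ' :=
  Finsupp.mapDomain_add

lemma sh_smul (x : E) (c : ℝ) (ℓ : ι × E →₀ ℝ) : sh x (c • ℓ) = c • sh x ℓ :=
  Finsupp.mapDomain_smul _ _

lemma sh_single (x : E) (p : ι × E) (c : ℝ) :
    sh x (Finsupp.single p c) = Finsupp.single (tau x p) c :=
  Finsupp.mapDomain_single

lemma sh_zero' (x : E) : sh x (0 : ι × E →₀ ℝ) = 0 := Finsupp.mapDomain_zero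

lemma sh_sh (x z : E) (ℓ : ι × E →₀ ℝ) : sh z (sh x ℓ) = sh (x + z) ℓ := by
  unfold sh
  rw [← Finsupp.mapDomain_comp]
  congr 1
  funext p
  exact (tau_add x z p).symm

section General

variable {H : Type*} [NormedAddCommGroup H] [InnerProductSpace ℂ H]

lemma Stat.of_continuousAt {v : E → H}
    (hinv : ∀ x y z, inner ℂ (v (x + z)) (v (y + z)) = inner ℂ (v x) (v y))
    (hc : ContinuousAt (fun x => inner ℂ (v 0) (v x)) 0) : Stat v := by
  refine ⟨?_, hinv⟩
  set K : E → ℂ := fun x => inner ℂ (v 0) (v x) with hK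
  have hin : ∀ x y, inner ℂ (v x) (v y) = K (y - x) := by
    intro x y
    have := hinv 0 (y - x) x
    rw [zero_add, sub_add_cancel] at this
    exact this
  have hns : ∀ x y, ((‖v x - v y‖ ^ 2 : ℝ) : ℂ) = K 0 - K (y - x) - (K (x - y) - K 0) := by
    intro x y
    have e0 : ((‖v x - v y‖ ^ 2 : ℝ) : ℂ) = inner ℂ (v x - v y) (v x - v y) := by
      rw [inner_self_eq_norm_sq_to_K]; push_cast; rfl
    rw [e0, inner_sub_left, inner_sub_right, inner_sub_right, hin, hin, hin, hin, sub_self,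
      sub_self]
  rw [continuous_iff_continuousAt]
  intro x
  rw [ContinuousAt, tendsto_iff_norm_sub_tendsto_zero]
  have h1 : Tendsto (fun y => K (x - y)) (𝓝 x) (𝓝 (K 0)) := by
    have : Tendsto (fun y => x - y) (𝓝 x) (𝓝 0) := by
      have := (by fun_prop : Continuous fun y : E => x - y).tendsto x
      rwa [sub_self] at this
    exact hc.tendsto.comp this
  have h2 : Tendsto (fun y => K (y - x)) (𝓝 x) (𝓝 (K 0)) := by
    have : Tendsto (fun y => y - x) (𝓝 x) (𝓝 0) := by
      have := (by fun_prop : Continuous fun y : E => y - x).tendsto x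
      rwa [sub_self] at this
    exact hc.tendsto.comp this
  have h3 : Tendsto (fun y => ((‖v y - v x‖ ^ 2 : ℝ) : ℂ)) (𝓝 x) (𝓝 0) := by
    simp only [hns]
    have := (tendsto_const_nhds (x := K 0)).sub h1 |>.sub (h2.sub (tendsto_const_nhds (x := K 0)))
    simpa using this
  have h4 : Tendsto (fun y => ‖v y - v x‖ ^ 2) (𝓝 x) (𝓝 0) := by
    have := (Complex.continuous_re.tendsto 0).comp h3
    rw [Complex.zero_re] at this
    refine this.congr fun y => ?_
    simp only [Function.comp, Complex.ofReal_re]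
  have h5 := (Real.continuous_sqrt.tendsto 0).comp h4
  simp only [Real.sqrt_zero] at h5
  refine h5.congr fun y => ?_
  simp only [Function.comp]
  rw [Real.sqrt_sq (norm_nonneg _)]

end General

/-- Hypotheses on the Gaussian measure: stationary, mean square continuous, with atomless
spectral measures. -/
structure GH (P : Measure (ι × E → ℝ)) : Prop extends CG P where
  stat : ∀ (p q : ι × E) (z : E), bil P (Finsupp.single (tau z p) 1) (Finsupp.single (tau z q) 1) =
    bil P (Finsupp.single p 1) (Finsupp.single q 1)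
  cont : ∀ j : ι, ContinuousAt (fun x : E => bil P (Finsupp.single (j, (0 : E)) 1)
    (Finsupp.single (j, x) 1)) 0
  mix : ∀ j : ι, Tendsto (fun R : ℝ => ⨍ x in Metric.ball (0 : E) R,
    (bil P (Finsupp.single (j, (0 : E)) 1) (Finsupp.single (j, x) 1)) ^ 2) atTop (𝓝 0)

variable {P : Measure (ι × E → ℝ)}

lemma GH.bil_sh (h : GH P) (z : E) (ℓ ℓ' : ι × E →₀ ℝ) :
    bil P (sh z ℓ) (sh z ℓ') = bil P ℓ ℓ' := by
  have hc := h.toCG
  have b0l : ∀ m, bil P 0 m = 0 := fun m => by unfold bil; simp [pair_zero]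
  have b0r : ∀ m, bil P m 0 = 0 := fun m => by unfold bil; simp [pair_zero]
  have hs : ∀ (p : ι × E) (c : ℝ), Finsupp.single p c = c • Finsupp.single p (1 : ℝ) := by
    intro p c; rw [Finsupp.smul_single, smul_eq_mul, mul_one]
  induction ℓ using Finsupp.induction_linear with
  | zero => rw [sh_zero', b0l, b0l]
  | add a b ha hb => rw [sh_add', hc.bil_add_left, hc.bil_add_left, ha, hb]
  | single p c =>
    rw [hs, sh_smul, hc.bil_smul_left, hc.bil_smul_left]
    congr 1
    induction ℓ' using Finsupp.induction_linear with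
    | zero => rw [sh_zero', b0r, b0r]
    | add a b ha hb => rw [sh_add', hc.bil_add_right, hc.bil_add_right, ha, hb]
    | single q e =>
      rw [hs q, sh_smul, hc.bil_smul_right, hc.bil_smul_right, sh_single, sh_single]
      congr 1
      exact h.stat p q z

lemma GH.sg_sh (h : GH P) (z : E) (ℓ : ι × E →₀ ℝ) : sg P (sh z ℓ) = sg P ℓ := by
  unfold sg
  rw [h.bil_sh]

lemma GH.mp (h : GH P) (z : E) : MeasurePreserving (Tsh z) P P := by
  have hp := h.prob
  have hm := measurable_Tsh (ι := ι) z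
  refine ⟨hm, ?_⟩
  have hf : IsFiniteMeasure (P.map (Tsh z)) := Measure.isFiniteMeasure_map P _
  apply ext_of_charPath
  intro ℓ
  rw [integral_map hm.aemeasurable (measurable_exp_pair ℓ).aestronglyMeasurable]
  simp only [← pair_sh]
  rw [h.char', h.char', h.bil_sh]

lemma GH.lin_add (h : GH P) (ℓ ℓ' : ι × E →₀ ℝ) :
    h.lin (ℓ + ℓ') = h.lin ℓ + h.lin ℓ' := by
  unfold CG.lin
  rw [← MemLp.toLp_add]
  refine MemLp.toLp_congr _ _ (Filter.Eventually.of_forall fun g => ?_)
  simp [pair_add]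

lemma GH.lin_smul (h : GH P) (c : ℝ) (ℓ : ι × E →₀ ℝ) :
    h.lin (c • ℓ) = (c : ℂ) • h.lin ℓ := by
  unfold CG.lin
  rw [← MemLp.toLp_const_smul]
  refine MemLp.toLp_congr _ _ (Filter.Eventually.of_forall fun g => ?_)
  simp [pair_smul]

lemma GH.lin_zero (h : GH P) : h.lin 0 = 0 := by
  have := h.lin_smul 0 0
  simpa using this

lemma GH.stat_coord (h : GH P) (j : ι) :
    Stat (fun x : E => h.lin (Finsupp.single (j, x) 1)) := by
  refine Stat.of_continuousAt (fun x y z => ?_) ?_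
  · rw [h.inner_lin_lin, h.inner_lin_lin]
    congr 1
    exact h.stat (j, x) (j, y) z
  · simp only [h.inner_lin_lin]
    exact Complex.continuous_ofReal.continuousAt.comp (h.cont j)

lemma GH.atomFree_coord (h : GH P) (j : ι) :
    AtomFree (fun x : E => h.lin (Finsupp.single (j, x) 1)) := by
  have hst := h.stat_coord j
  obtain ⟨μ, hf, hμ⟩ := exists_spectral hst
  refine (atomFree_iff hst hμ).2 (nullSingleton_of_avg μ ?_)
  refine (h.mix j).congr fun R => ?_
  refine setAverage_congr_fun Metric.isOpen_ball.measurableSet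
    (Filter.Eventually.of_forall fun x _ => ?_)
  simp only [hμ, Kv, h.inner_lin_lin]
  rw [Complex.norm_real, Real.norm_eq_abs, sq_abs]

lemma GH.continuous_lin (h : GH P) (ℓ : ι × E →₀ ℝ) :
    Continuous (fun x : E => h.lin (sh x ℓ)) := by
  have hs : ∀ (p : ι × E) (c : ℝ), Finsupp.single p c = c • Finsupp.single p (1 : ℝ) := by
    intro p c; rw [Finsupp.smul_single, smul_eq_mul, mul_one]
  induction ℓ using Finsupp.induction_linear with
  | zero => simp only [sh_zero', h.lin_zero]; exact continuous_const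
  | add a b ha hb => simp only [sh_add', h.lin_add]; exact ha.add hb
  | single p c =>
    simp only [hs p c, sh_smul, h.lin_smul, sh_single]
    have hcomp : Continuous fun x : E => h.lin (Finsupp.single (tau x p) 1) :=
      (h.stat_coord p.1).cont.comp (by fun_prop : Continuous fun x : E => p.2 + x)
    exact hcomp.const_smul (c : ℂ)

lemma GH.stat_lin (h : GH P) (ℓ : ι × E →₀ ℝ) : Stat (fun x : E => h.lin (sh x ℓ)) := by
  refine ⟨h.continuous_lin ℓ, fun x y z => ?_⟩
  rw [h.inner_lin_lin, h.inner_lin_lin, ← sh_sh, ← sh_sh, h.bil_sh]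

lemma GH.atomFree_lin (h : GH P) (ℓ : ι × E →₀ ℝ) : AtomFree (fun x : E => h.lin (sh x ℓ)) := by
  have hs : ∀ (p : ι × E) (c : ℝ), Finsupp.single p c = c • Finsupp.single p (1 : ℝ) := by
    intro p c; rw [Finsupp.smul_single, smul_eq_mul, mul_one]
  induction ℓ using Finsupp.induction_linear with
  | zero => simp only [sh_zero', h.lin_zero]; exact atomFree_zero
  | add a b ha hb =>
    simp only [sh_add', h.lin_add]
    exact AtomFree.add (h.stat_lin a) (h.stat_lin b) ha hb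
  | single p c =>
    simp only [hs p c, sh_smul, h.lin_smul, sh_single]
    refine AtomFree.smul _ ?_
    have := AtomFree.shift (h.stat_coord p.1) (h.atomFree_coord p.1) p.2
    simpa only [tau, add_comm] using this

lemma GH.stat_wv (h : GH P) (ℓ : ι × E →₀ ℝ) : Stat (fun x : E => h.wv (sh x ℓ)) := by
  refine Stat.of_continuousAt (fun x y z => ?_) ?_
  · rw [h.inner_wv_wv, h.inner_wv_wv, ← sh_sh, ← sh_sh, h.bil_sh, h.sg_sh, h.sg_sh z (sh y ℓ)]
  · simp only [h.inner_wv_wv, h.sg_sh]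
    have hc : Continuous fun x : E => (bil P (sh 0 ℓ) (sh x ℓ) : ℂ) := by
      have := (continuous_const (y := h.lin (sh (0 : E) ℓ))).inner (𝕜 := ℂ) (h.continuous_lin ℓ)
      simpa only [h.inner_lin_lin] using this
    exact Continuous.continuousAt (by fun_prop)

/-- The spectral measure of the higher chaos part of an exponential is singular to every good
measure. -/
lemma GH.exists_spectral_wv (h : GH P) {σ : Measure E} (hσ : Good σ) (ℓ : ι × E →₀ ℝ) :
    ∃ ρ : Measure E, IsFiniteMeasure ρ ∧ ρ ⟂ₘ σ ∧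
      ∀ x, charFun ρ x = Kv (fun x : E => h.wv (sh x ℓ)) x := by
  obtain ⟨ν, hνf, hν⟩ := exists_spectral (h.stat_lin ℓ)
  have hna : NullSingletonClass ν := (atomFree_iff (h.stat_lin ℓ) hν).1 (h.atomFree_lin ℓ)
  obtain ⟨ρ, hρf, hρS, hρ⟩ := exists_expRemainder hσ ν (r := sg P ℓ * sg P ℓ)
    (mul_self_nonneg _)
  refine ⟨ρ, hρf, hρS, fun x => ?_⟩
  rw [hρ, hν]
  unfold Kv
  rw [h.inner_wv_wv, h.inner_lin_lin, h.sg_sh, h.sg_sh]
  push_cast
  rfl

lemma spectral_one (h : GH P) : Stat (fun _ : E => h.one) ∧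
    ∀ x : E, charFun (Measure.dirac (0 : E)) x = Kv (fun _ : E => h.one) x := by
  refine ⟨⟨continuous_const, fun _ _ _ => rfl⟩, fun x => ?_⟩
  unfold Kv
  rw [h.inner_one_one, charFun_dirac, inner_zero_left]
  simp

/-- the function underlying `wv` -/
noncomputable def wf (P : Measure (ι × E → ℝ)) (ℓ : ι × E →₀ ℝ) (g : ι × E → ℝ) : ℂ :=
  Complex.exp ((pair ℓ g : ℝ) * Complex.I) - (sg P ℓ : ℂ) * 1 - (Complex.I * sg P ℓ) * pair ℓ g

lemma GH.coeFn_wv (h : GH P) (ℓ : ι × E →₀ ℝ) : (h.wv ℓ : (ι × E → ℝ) → ℂ) =ᵐ[P] wf P ℓ := by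
  unfold CG.wv
  filter_upwards [Lp.coeFn_sub (h.ex ℓ - (sg P ℓ : ℂ) • h.one) ((Complex.I * sg P ℓ) • h.lin ℓ),
    Lp.coeFn_sub (h.ex ℓ) ((sg P ℓ : ℂ) • h.one), Lp.coeFn_smul (sg P ℓ : ℂ) h.one,
    Lp.coeFn_smul (Complex.I * sg P ℓ) (h.lin ℓ), (h.memLp_exp ℓ).coeFn_toLp,
    h.memLp_one.coeFn_toLp, (h.memLp_lin ℓ).coeFn_toLp] with g h1 h2 h3 h4 h5 h6 h7
  rw [h1, Pi.sub_apply, h2, Pi.sub_apply, h3, h4, Pi.smul_apply, Pi.smul_apply]
  unfold CG.ex CG.one CG.lin
  rw [h5, h6, h7]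
  simp [wf]

lemma GH.wf_sh (h : GH P) (y z : E) (ℓ : ι × E →₀ ℝ) (g : ι × E → ℝ) :
    wf P (sh (y + z) ℓ) g = wf P (sh y ℓ) (Tsh z g) := by
  unfold wf
  rw [pair_sh, pair_sh, h.sg_sh, h.sg_sh, Tsh_add]

/-- the process in `L²` generated by a functional -/
noncomputable def GH.vp (h : GH P) {Ψ : (ι × E → ℝ) → ℂ} (hΨ : MemLp Ψ 2 P) (x : E) : Lp ℂ 2 P :=
  (hΨ.comp_measurePreserving (h.mp x)).toLp _

lemma GH.inner_vp_wv (h : GH P) {Ψ : (ι × E → ℝ) → ℂ} (hΨ : MemLp Ψ 2 P) (ℓ : ι × E →₀ ℝ)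
    (x y z : E) : inner ℂ (h.vp hΨ (x + z)) (h.wv (sh (y + z) ℓ)) =
      inner ℂ (h.vp hΨ x) (h.wv (sh y ℓ)) := by
  have key : ∀ x y : E, inner ℂ (h.vp hΨ x) (h.wv (sh y ℓ)) =
      ∫ g, conj (Ψ (Tsh x g)) * wf P (sh y ℓ) g ∂P := by
    intro x y
    rw [L2.inner_def]
    refine integral_congr_ae ?_
    filter_upwards [(hΨ.comp_measurePreserving (h.mp x)).coeFn_toLp, h.coeFn_wv (sh y ℓ)]
      with g h1 h2
    unfold GH.vp
    rw [h1, h2, RCLike.inner_apply', Function.comp_apply]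
  rw [key, key]
  have hmeas : AEStronglyMeasurable (fun g => conj (Ψ (Tsh x g)) * wf P (sh y ℓ) g) P := by
    refine AEStronglyMeasurable.mul ?_ ?_
    · exact (hΨ.comp_measurePreserving (h.mp x)).1.star
    · exact (Lp.memLp (h.wv (sh y ℓ))).1.congr (h.coeFn_wv _)
  have := integral_map (h.mp z).measurable.aemeasurable
    (f := fun g => conj (Ψ (Tsh x g)) * wf P (sh y ℓ) g) (by rw [(h.mp z).map_eq]; exact hmeas)
  rw [(h.mp z).map_eq] at this
  rw [this]
  refine integral_congr_ae (Filter.Eventually.of_forall fun g => ?_)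
  simp only
  rw [← Tsh_add, h.wf_sh]

lemma GH.inner_vp_one (h : GH P) {Ψ : (ι × E → ℝ) → ℂ} (hΨ : MemLp Ψ 2 P)
    (x z : E) : inner ℂ (h.vp hΨ (x + z)) h.one = inner ℂ (h.vp hΨ x) h.one := by
  have key : ∀ x : E, inner ℂ (h.vp hΨ x) h.one = ∫ g, conj (Ψ (Tsh x g)) * 1 ∂P := by
    intro x
    unfold GH.vp CG.one
    rw [inner_toLp]
    rfl
  rw [key, key]
  have hmeas : AEStronglyMeasurable (fun g => conj (Ψ (Tsh x g)) * (1 : ℂ)) P :=
    (hΨ.comp_measurePreserving (h.mp x)).1.star.mul aestronglyMeasurable_const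
  have := integral_map (h.mp z).measurable.aemeasurable
    (f := fun g => conj (Ψ (Tsh x g)) * (1 : ℂ)) (by rw [(h.mp z).map_eq]; exact hmeas)
  rw [(h.mp z).map_eq] at this
  rw [this]
  refine integral_congr_ae (Filter.Eventually.of_forall fun g => ?_)
  simp only
  rw [← Tsh_add]

lemma GH.inner_vp_vp (h : GH P) {Ψ : (ι × E → ℝ) → ℂ} (hΨ : MemLp Ψ 2 P) (x y : E) :
    inner ℂ (h.vp hΨ x) (h.vp hΨ y) = ∫ g, conj (Ψ (Tsh x g)) * Ψ (Tsh y g) ∂P := by
  unfold GH.vp
  rw [inner_toLp]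
  rfl

lemma GH.inner_vp_inv (h : GH P) {Ψ : (ι × E → ℝ) → ℂ} (hΨ : MemLp Ψ 2 P) (x y z : E) :
    inner ℂ (h.vp hΨ (x + z)) (h.vp hΨ (y + z)) = inner ℂ (h.vp hΨ x) (h.vp hΨ y) := by
  rw [h.inner_vp_vp, h.inner_vp_vp]
  have hmeas : AEStronglyMeasurable (fun g => conj (Ψ (Tsh x g)) * Ψ (Tsh y g)) P :=
    (hΨ.comp_measurePreserving (h.mp x)).1.star.mul (hΨ.comp_measurePreserving (h.mp y)).1
  have := integral_map (h.mp z).measurable.aemeasurable
    (f := fun g => conj (Ψ (Tsh x g)) * Ψ (Tsh y g)) (by rw [(h.mp z).map_eq]; exact hmeas)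
  rw [(h.mp z).map_eq] at this
  rw [this]
  refine integral_congr_ae (Filter.Eventually.of_forall fun g => ?_)
  simp only
  rw [← Tsh_add, ← Tsh_add]

/-- the closed linear span of the Gaussian family -/
noncomputable def GH.chaos (h : GH P) : Submodule ℂ (Lp ℂ 2 P) :=
  (Submodule.span ℂ (Set.range fun p : ι × E => h.lin (Finsupp.single p 1))).topologicalClosure

lemma GH.lin_mem_chaos (h : GH P) (ℓ : ι × E →₀ ℝ) :
    h.lin ℓ ∈ Submodule.span ℂ (Set.range fun p : ι × E => h.lin (Finsupp.single p 1)) := by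
  have hs : ∀ (p : ι × E) (c : ℝ), Finsupp.single p c = c • Finsupp.single p (1 : ℝ) := by
    intro p c; rw [Finsupp.smul_single, smul_eq_mul, mul_one]
  induction ℓ using Finsupp.induction_linear with
  | zero => rw [h.lin_zero]; exact Submodule.zero_mem _
  | add a b ha hb => rw [h.lin_add]; exact Submodule.add_mem _ ha hb
  | single p c =>
    rw [hs, h.lin_smul]
    exact Submodule.smul_mem _ _ (Submodule.subset_span ⟨p, rfl⟩)

lemma GH.inner_chaos_eq_zero (h : GH P) {u : Lp ℂ 2 P} (hu : ∀ ℓ, inner ℂ u (h.lin ℓ) = 0)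
    {m : Lp ℂ 2 P} (hm : m ∈ h.chaos) : inner ℂ u m = 0 := by
  have hle : h.chaos ≤ (Submodule.span ℂ {u})ᗮ := by
    refine Submodule.topologicalClosure_minimal _ ?_ (Submodule.isClosed_orthogonal _)
    rw [Submodule.span_le]
    rintro _ ⟨p, rfl⟩
    rw [SetLike.mem_coe, Submodule.mem_orthogonal_singleton_iff_inner_right]
    exact hu _
  have := hle hm
  rwa [Submodule.mem_orthogonal_singleton_iff_inner_right] at this

/-- **Main theorem on path space.** A square integrable functional of a stationary Gaussian family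
with atomless spectral measures, whose own spectral measure is singular to all convolutions of two
atomless measures and to the Dirac mass at zero, belongs to the closed linear span of the
family. -/
theorem GH.mem_chaos (h : GH P) {Ψ : (ι × E → ℝ) → ℂ}
    (hΨ : MemLp Ψ 2 P) (hst : Stat (h.vp hΨ)) {μ : Measure E} [IsFiniteMeasure μ]
    (hμ : ∀ x, charFun μ x = Kv (h.vp hΨ) x) (hμS : ∀ᵐ k ∂μ, ‖k‖ = 1) (hG : Good μ) :
    h.vp hΨ 0 ∈ h.chaos := by
  have hprob := h.prob
  have hw : ∀ ℓ, inner ℂ (h.wv ℓ) (h.vp hΨ 0) = 0 := by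
    intro ℓ
    obtain ⟨ρ, hρf, hρS, hρ⟩ := h.exists_spectral_wv hG ℓ
    have := inner_eq_zero_of_singular hst (h.stat_wv ℓ) (fun x y z => h.inner_vp_wv hΨ ℓ x y z)
      hμ hρ hρS.symm
    rw [sh_zero_arg] at this
    rw [← inner_conj_symm, this, map_zero]
  have h1 : inner ℂ h.one (h.vp hΨ 0) = 0 := by
    obtain ⟨s1, s2⟩ := spectral_one h
    have hS : ∀ᵐ k ∂(Measure.dirac (0 : E)), ‖k‖ ≠ 1 := by
      have hm : MeasurableSet {k : E | ‖k‖ ≠ 1} :=
        (measurableSet_eq_fun (by fun_prop) measurable_const).compl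
      exact (ae_dirac_iff hm).2 (by simp)
    have := inner_eq_zero_of_sphere hst s1 (fun x y z => h.inner_vp_one hΨ x z) hμ s2 hμS hS
    rw [← inner_conj_symm, this, map_zero]
  have hclosed : IsClosed (h.chaos : Set (Lp ℂ 2 P)) := Submodule.isClosed_topologicalClosure _
  have : CompleteSpace h.chaos := hclosed.completeSpace_coe
  set pr : Lp ℂ 2 P := h.chaos.starProjection (h.vp hΨ 0) with hpr
  have hprm : pr ∈ h.chaos := Submodule.starProjection_apply_mem _ _
  set Z : Lp ℂ 2 P := h.vp hΨ 0 - pr with hZ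
  have hZo : ∀ m ∈ h.chaos, inner ℂ m Z = 0 := by
    intro m hm
    exact Submodule.inner_right_of_mem_orthogonal hm
      (Submodule.sub_starProjection_mem_orthogonal _)
  have hZ0 : Z = 0 := by
    refine h.eq_zero_of_inner_ex Z fun ℓ => ?_
    have e : h.ex ℓ = h.wv ℓ + (sg P ℓ : ℂ) • h.one + (Complex.I * sg P ℓ) • h.lin ℓ := by
      unfold CG.wv; abel
    have z1 : inner ℂ (h.wv ℓ) Z = 0 := by
      rw [hZ, inner_sub_right, hw, h.inner_chaos_eq_zero (fun ℓ' => h.inner_wv_lin ℓ ℓ') hprm,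
        sub_zero]
    have z2 : inner ℂ h.one Z = 0 := by
      rw [hZ, inner_sub_right, h1, h.inner_chaos_eq_zero (fun ℓ' => h.inner_one_lin ℓ') hprm,
        sub_zero]
    have z3 : inner ℂ (h.lin ℓ) Z = 0 :=
      hZo _ (Submodule.le_topologicalClosure _ (h.lin_mem_chaos ℓ))
    rw [e, inner_add_left, inner_add_left, inner_smul_left, inner_smul_left, z1, z2, z3]
    simp
  have : h.vp hΨ 0 = pr := sub_eq_zero.1 hZ0
  rw [this]
  exact hprm

end Pool.Agent.Lib_helper70.Berry
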