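import Mathlib

/-!
# Uniqueness of measures on path space with given characteristic functional
-/

set_option linter.unusedSectionVars false

open MeasureTheory Set Filter Topology
open scoped ENNReal ComplexConjugate

namespace Pool.Agent.Lib_helper70.Berry

variable {κ : Type*}

/-- the value of a finite linear functional on a path -/
def pair (ℓ : κ →₀ ℝ) (g : κ → ℝ) : ℝ := ℓ.sum fun i c => c * g i

lemma pair_eq (ℓ : κ →₀ ℝ) (g : κ → ℝ) : pair ℓ g = ∑ i ∈ ℓ.support, ℓ i * g i := rfl

lemma pair_add (ℓ ℓ' : κ →₀ ℝ) (g : κ → ℝ) : pair (ℓ + ℓ') g = pair ℓ g + pair ℓ' g := by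
  classical
  unfold pair
  exact Finsupp.sum_add_index' (by simp) (by intros; ring)

lemma pair_smul (c : ℝ) (ℓ : κ →₀ ℝ) (g : κ → ℝ) : pair (c • ℓ) g = c * pair ℓ g := by
  unfold pair
  rw [Finsupp.sum_smul_index' (by simp), Finsupp.mul_sum]
  simp [mul_assoc]

lemma pair_single (i : κ) (c : ℝ) (g : κ → ℝ) : pair (Finsupp.single i c) g = c * g i := by
  unfold pair
  rw [Finsupp.sum_single_index (by simp)]

lemma pair_neg (ℓ : κ →₀ ℝ) (g : κ → ℝ) : pair (-ℓ) g = - pair ℓ g := by
  have := pair_smul (-1) ℓ g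
  simpa using this

lemma pair_zero (g : κ → ℝ) : pair (0 : κ →₀ ℝ) g = 0 := by simp [pair]

lemma pair_sub (ℓ ℓ' : κ →₀ ℝ) (g : κ → ℝ) : pair (ℓ - ℓ') g = pair ℓ g - pair ℓ' g := by
  rw [sub_eq_add_neg, pair_add, pair_neg, sub_eq_add_neg]

lemma pair_sum {ι : Type*} (s : Finset ι) (ℓ : ι → κ →₀ ℝ) (g : κ → ℝ) :
    pair (∑ i ∈ s, ℓ i) g = ∑ i ∈ s, pair (ℓ i) g := by
  classical
  induction s using Finset.induction_on with
  | empty => simp [pair_zero]
  | insert a s ha ih => rw [Finset.sum_insert ha, Finset.sum_insert ha, pair_add, ih]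

@[fun_prop]
lemma measurable_pair (ℓ : κ →₀ ℝ) : Measurable (pair ℓ) := by
  unfold pair Finsupp.sum
  fun_prop

/-- Finite measures on path space with the same characteristic functional are equal. -/
theorem ext_of_charPath (μ ν : Measure (κ → ℝ)) [IsFiniteMeasure μ] [IsFiniteMeasure ν]
    (h : ∀ ℓ : κ →₀ ℝ, ∫ g, Complex.exp ((pair ℓ g : ℝ) * Complex.I) ∂μ =
      ∫ g, Complex.exp ((pair ℓ g : ℝ) * Complex.I) ∂ν) : μ = ν := by
  classical
  have key : ∀ I : Finset κ, μ.map I.restrict = ν.map I.restrict := by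
    intro I
    have hμf : IsFiniteMeasure (μ.map (I.restrict (π := fun _ => ℝ))) :=
      Measure.isFiniteMeasure_map μ _
    have hνf : IsFiniteMeasure (ν.map (I.restrict (π := fun _ => ℝ))) :=
      Measure.isFiniteMeasure_map ν _
    apply Measure.ext_of_charFunDual
    ext L
    rw [charFunDual_apply, charFunDual_apply, integral_map, integral_map]
    · set ℓ : κ →₀ ℝ := ∑ i : I, Finsupp.single (i : κ) (L (Pi.single i 1)) with hℓ
      have e : ∀ g : κ → ℝ, L (I.restrict g) = pair ℓ g := by
        intro g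
        rw [hℓ, pair_sum]
        simp only [pair_single]
        have : I.restrict g = ∑ i : I, (g i) • (Pi.single i (1 : ℝ) : I → ℝ) := by
          ext j
          simp [Finset.sum_apply, Pi.single_apply, Finset.restrict]
        conv_lhs => rw [this]
        rw [map_sum]
        refine Finset.sum_congr rfl fun i _ => ?_
        rw [map_smul, smul_eq_mul, mul_comm]
      simp only [e]
      exact h ℓ
    · exact (Finset.measurable_restrict I).aemeasurable
    · exact (by fun_prop : Continuous fun v : I → ℝ => Complex.exp ((L v : ℝ) *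
        Complex.I)).aestronglyMeasurable
    · exact (Finset.measurable_restrict I).aemeasurable
    · exact (by fun_prop : Continuous fun v : I → ℝ => Complex.exp ((L v : ℝ) *
        Complex.I)).aestronglyMeasurable
  have hf : ∀ I : Finset κ, IsFiniteMeasure (μ.map (I.restrict (π := fun _ => ℝ))) :=
    fun I => Measure.isFiniteMeasure_map μ _
  exact IsProjectiveLimit.unique (P := fun I => μ.map I.restrict) (fun I => rfl)
    (fun I => (key I).symm)

lemma norm_exp_pair (ℓ : κ →₀ ℝ) (g : κ → ℝ) :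
    ‖Complex.exp ((pair ℓ g : ℝ) * Complex.I)‖ = 1 := Complex.norm_exp_ofReal_mul_I _

lemma measurable_exp_pair (ℓ : κ →₀ ℝ) :
    Measurable fun g => Complex.exp ((pair ℓ g : ℝ) * Complex.I) := by
  have := measurable_pair ℓ
  fun_prop

/-- An integrable function orthogonal to all exponentials of finite linear functionals
vanishes. -/
theorem ae_eq_zero_of_charPath (μ : Measure (κ → ℝ)) [IsFiniteMeasure μ] {Z : (κ → ℝ) → ℝ}
    (hZ : Integrable Z μ)
    (h : ∀ ℓ : κ →₀ ℝ, ∫ g, (Z g : ℂ) * Complex.exp ((pair ℓ g : ℝ) * Complex.I) ∂μ = 0) :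
    Z =ᵐ[μ] 0 := by
  set μ1 := μ.withDensity (fun g => ENNReal.ofReal (Z g)) with hμ1
  set μ2 := μ.withDensity (fun g => ENNReal.ofReal (- Z g)) with hμ2
  have f1 : IsFiniteMeasure μ1 := isFiniteMeasure_withDensity_ofReal hZ.2
  have f2 : IsFiniteMeasure μ2 := isFiniteMeasure_withDensity_ofReal hZ.neg.2
  have m1 : AEMeasurable (fun g => ENNReal.ofReal (Z g)) μ := hZ.1.aemeasurable.ennreal_ofReal
  have m2 : AEMeasurable (fun g => ENNReal.ofReal (- Z g)) μ :=
    hZ.1.aemeasurable.neg.ennreal_ofReal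
  have heq : μ1 = μ2 := by
    apply ext_of_charPath
    intro ℓ
    rw [hμ1, hμ2, integral_withDensity_eq_integral_toReal_smul₀ m1
      (Filter.Eventually.of_forall fun g => ENNReal.ofReal_lt_top),
      integral_withDensity_eq_integral_toReal_smul₀ m2
      (Filter.Eventually.of_forall fun g => ENNReal.ofReal_lt_top)]
    have i1 : Integrable (fun g => (ENNReal.ofReal (Z g)).toReal •
        Complex.exp ((pair ℓ g : ℝ) * Complex.I)) μ := by
      refine Integrable.mono' hZ.norm ?_ ?_
      · exact m1.ennreal_toReal.aestronglyMeasurable.smul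
          (measurable_exp_pair ℓ).aestronglyMeasurable
      · refine Filter.Eventually.of_forall fun g => ?_
        rw [norm_smul, norm_exp_pair, mul_one, Real.norm_of_nonneg ENNReal.toReal_nonneg,
          ENNReal.toReal_ofReal']
        exact max_le (le_abs_self _) (norm_nonneg _)
    have i2 : Integrable (fun g => (ENNReal.ofReal (- Z g)).toReal •
        Complex.exp ((pair ℓ g : ℝ) * Complex.I)) μ := by
      refine Integrable.mono' hZ.norm ?_ ?_
      · exact m2.ennreal_toReal.aestronglyMeasurable.smul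
          (measurable_exp_pair ℓ).aestronglyMeasurable
      · refine Filter.Eventually.of_forall fun g => ?_
        rw [norm_smul, norm_exp_pair, mul_one, Real.norm_of_nonneg ENNReal.toReal_nonneg,
          ENNReal.toReal_ofReal']
        exact max_le (neg_le_abs _) (norm_nonneg _)
    rw [← sub_eq_zero, ← integral_sub i1 i2, ← h ℓ]
    refine integral_congr_ae (Filter.Eventually.of_forall fun g => ?_)
    simp only [Complex.real_smul]
    rw [← sub_mul]
    congr 1
    rw [ENNReal.toReal_ofReal', ENNReal.toReal_ofReal', ← Complex.ofReal_sub]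
    congr 1
    rcases le_total 0 (Z g) with hz | hz
    · rw [max_eq_left hz, max_eq_right (by linarith), sub_zero]
    · rw [max_eq_right hz, max_eq_left (by linarith)]; ring
  have h3 := (withDensity_eq_iff m1 m2 (by
    exact (Integrable.lintegral_lt_top hZ).ne)).1 heq
  filter_upwards [h3] with g hg
  simp only [Pi.zero_apply]
  have h4 := congrArg ENNReal.toReal hg
  rw [ENNReal.toReal_ofReal', ENNReal.toReal_ofReal'] at h4
  rcases le_total 0 (Z g) with hz | hz
  · rw [max_eq_left hz, max_eq_right (by linarith)] at h4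
    exact h4
  · rw [max_eq_right hz, max_eq_left (by linarith)] at h4
    linarith

theorem ae_eq_zero_of_charPath_complex (μ : Measure (κ → ℝ)) [IsFiniteMeasure μ]
    {Z : (κ → ℝ) → ℂ} (hZ : Integrable Z μ)
    (h : ∀ ℓ : κ →₀ ℝ, ∫ g, Z g * Complex.exp ((pair ℓ g : ℝ) * Complex.I) ∂μ = 0) :
    Z =ᵐ[μ] 0 := by
  have hint : ∀ (W : (κ → ℝ) → ℂ), Integrable W μ → ∀ ℓ : κ →₀ ℝ, Integrable
      (fun g => W g * Complex.exp ((pair ℓ g : ℝ) * Complex.I)) μ := by
    intro W hW ℓ
    refine Integrable.mono' hW.norm ?_ ?_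
    · exact hW.1.mul (measurable_exp_pair ℓ).aestronglyMeasurable
    · exact Filter.Eventually.of_forall fun g => by rw [norm_mul, norm_exp_pair, mul_one]
  have hconj : ∀ ℓ : κ →₀ ℝ, ∫ g, conj (Z g) * Complex.exp ((pair ℓ g : ℝ) * Complex.I) ∂μ = 0 := by
    intro ℓ
    have := congrArg conj (h (-ℓ))
    rw [← integral_conj, map_zero] at this
    rw [← this]
    refine integral_congr_ae (Filter.Eventually.of_forall fun g => ?_)
    simp only [map_mul]
    congr 1
    rw [← Complex.exp_conj]
    simp [pair_neg]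
  have hre : (fun g => (Z g).re) =ᵐ[μ] 0 := by
    refine ae_eq_zero_of_charPath μ hZ.re fun ℓ => ?_
    have h1 : ∫ g, ((Z g * Complex.exp ((pair ℓ g : ℝ) * Complex.I)) +
        (conj (Z g) * Complex.exp ((pair ℓ g : ℝ) * Complex.I))) ∂μ = 0 := by
      rw [integral_add (hint _ hZ ℓ) (hint (fun g => conj (Z g)) (Complex.conjCLE.integrable_comp_iff.2 hZ) ℓ), h, hconj, add_zero]
    have h2 : ∫ g, (((Z g).re : ℝ) : ℂ) * Complex.exp ((pair ℓ g : ℝ) * Complex.I) ∂μ =
        (1 / 2) * ∫ g, ((Z g * Complex.exp ((pair ℓ g : ℝ) * Complex.I)) +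
        (conj (Z g) * Complex.exp ((pair ℓ g : ℝ) * Complex.I))) ∂μ := by
      rw [← integral_const_mul]
      refine integral_congr_ae (Filter.Eventually.of_forall fun g => ?_)
      simp only
      rw [Complex.re_eq_add_conj]
      ring
    rw [h2, h1, mul_zero]
  have him : (fun g => (Z g).im) =ᵐ[μ] 0 := by
    refine ae_eq_zero_of_charPath μ hZ.im fun ℓ => ?_
    have h1 : ∫ g, ((Z g * Complex.exp ((pair ℓ g : ℝ) * Complex.I)) -
        (conj (Z g) * Complex.exp ((pair ℓ g : ℝ) * Complex.I))) ∂μ = 0 := by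
      rw [integral_sub (hint _ hZ ℓ) (hint (fun g => conj (Z g)) (Complex.conjCLE.integrable_comp_iff.2 hZ) ℓ), h, hconj, sub_zero]
    have h2 : ∫ g, (((Z g).im : ℝ) : ℂ) * Complex.exp ((pair ℓ g : ℝ) * Complex.I) ∂μ =
        (1 / (2 * Complex.I)) * ∫ g, ((Z g * Complex.exp ((pair ℓ g : ℝ) * Complex.I)) -
        (conj (Z g) * Complex.exp ((pair ℓ g : ℝ) * Complex.I))) ∂μ := by
      rw [← integral_const_mul]
      refine integral_congr_ae (Filter.Eventually.of_forall fun g => ?_)
      simp only
      rw [Complex.im_eq_sub_conj]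
      ring
    rw [h2, h1, mul_zero]
  filter_upwards [hre, him] with g h1 h2
  apply Complex.ext
  · simpa using h1
  · simpa using h2

end Pool.Agent.Lib_helper70.Berry
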