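import Pool.Agent.Lib_helper70.Berry.Sphere

/-!
# Sums of two atomless measures on the sphere, all dimensions

If `μ, ν` are finite atomless measures on a Euclidean space and `B` is a Borel subset of the
unit sphere charged by `μ * ν`, then `μ * ν` charges the trace on `B` of a quadric
`‖P_V y‖ ^ 2 = s`, with `V` a subspace different from `0` and from the whole space.
Hence `μ * ν` restricted to the sphere is singular to the surface measure.
-/

open MeasureTheory Set Module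
open scoped ENNReal RealInnerProductSpace

namespace Pool.Agent.Lib_helper70.Berry

lemma prod_null_of_ae {X Y : Type*} [MeasurableSpace X] [MeasurableSpace Y] {μ : Measure X}
    {ν : Measure Y} [IsFiniteMeasure μ] [IsFiniteMeasure ν] {T : Set (X × Y)}
    (hT : MeasurableSet T)
    (h : ∀ᵐ x₁ ∂μ, ∀ᵐ x₂ ∂μ, ∀ᵐ y ∂ν,
      ¬ ((x₁, y) ∈ T ∧ (x₂, y) ∈ T ∧ μ {x | (x, y) ∈ T} ≠ 0)) :
    (μ.prod ν) T = 0 := by
  have hgm : Measurable fun y => μ {x | (x, y) ∈ T} := measurable_measure_prodMk_right hT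
  have hg0 : MeasurableSet {y | μ {x | (x, y) ∈ T} ≠ 0} :=
    (hgm (measurableSet_singleton 0)).compl
  have h1 : ∀ᵐ x₁ ∂μ, ∀ᵐ y ∂ν, ¬ ((x₁, y) ∈ T ∧ μ {x | (x, y) ∈ T} ≠ 0) := by
    filter_upwards [h] with x₁ hx₁
    have hm1 : MeasurableSet {y | (x₁, y) ∈ T} := measurable_prodMk_left hT
    have hm : MeasurableSet {p : X × Y |
        ¬ ((x₁, p.2) ∈ T ∧ (p.1, p.2) ∈ T ∧ μ {x | (x, p.2) ∈ T} ≠ 0)} := by
      refine MeasurableSet.compl ?_
      exact (measurable_snd hm1).inter (hT.inter (measurable_snd hg0))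
    have h2 := (Measure.ae_ae_comm (μ := μ) (ν := ν)
      (p := fun x₂ y => ¬ ((x₁, y) ∈ T ∧ (x₂, y) ∈ T ∧ μ {x | (x, y) ∈ T} ≠ 0)) hm).1 hx₁
    filter_upwards [h2] with y hy hcon
    have : ∀ᵐ x₂ ∂μ, (x₂, y) ∉ T := by
      filter_upwards [hy] with x₂ hx₂ hc
      exact hx₂ ⟨hcon.1, hc, hcon.2⟩
    rw [ae_iff] at this
    simp only [not_not] at this
    exact hcon.2 this
  have hm2 : MeasurableSet {p : X × Y | ¬ ((p.1, p.2) ∈ T ∧ μ {x | (x, p.2) ∈ T} ≠ 0)} := by
    refine MeasurableSet.compl ?_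
    exact hT.inter (measurable_snd hg0)
  have h3 := (Measure.ae_ae_comm (μ := μ) (ν := ν)
      (p := fun x₁ y => ¬ ((x₁, y) ∈ T ∧ μ {x | (x, y) ∈ T} ≠ 0)) hm2).1 h1
  have h4 : ∀ᵐ y ∂ν, ∀ᵐ x ∂μ, (x, y) ∉ T := by
    filter_upwards [h3] with y hy
    by_cases hg : μ {x | (x, y) ∈ T} = 0
    · rw [ae_iff]; simpa only [not_not] using hg
    · filter_upwards [hy] with x hx hc
      exact hx ⟨hc, hg⟩
  have h5 : ∀ᵐ x ∂μ, ∀ᵐ y ∂ν, (x, y) ∉ T :=
    (Measure.ae_ae_comm (μ := μ) (ν := ν) (p := fun x y => (x, y) ∉ T) hT.compl).2 h4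
  rw [Measure.measure_prod_null hT]
  filter_upwards [h5] with x hx
  rw [ae_iff] at hx
  simp only [not_not] at hx
  exact hx

variable {E : Type*} [NormedAddCommGroup E] [InnerProductSpace ℝ E] [FiniteDimensional ℝ E]
  [MeasurableSpace E] [BorelSpace E]

/-- the affine subspace `a + V` as a set -/
def aff (a : E) (V : Submodule ℝ E) : Set E := {x | x - a ∈ V}

lemma measurableSet_aff (a : E) (V : Submodule ℝ E) : MeasurableSet (aff a V) := by
  have h : IsClosed (V : Set E) := V.closed_of_finiteDimensional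
  exact (h.preimage (by fun_prop : Continuous fun x : E => x - a)).measurableSet

theorem exists_quadric {μ ν : Measure E} [IsFiniteMeasure μ] [IsFiniteMeasure ν]
    [NullSingletonClass μ] [NullSingletonClass ν] {B : Set E} (hB : MeasurableSet B)
    (hBS : ∀ y ∈ B, ‖y‖ = 1) (hpos : (Measure.conv μ ν) B ≠ 0) :
    ∃ (V : Submodule ℝ E) (s : ℝ), V ≠ ⊥ ∧ V ≠ ⊤ ∧
      (Measure.conv μ ν) (B ∩ {y | ‖V.starProjection y‖ ^ 2 = s}) ≠ 0 := by
  classical
  set T : Set (E × E) := {p | p.1 + p.2 ∈ B} with hTdef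
  have hT : MeasurableSet T := (by fun_prop : Measurable fun p : E × E => p.1 + p.2) hB
  have hconv : ∀ D : Set E, MeasurableSet D →
      (Measure.conv μ ν) D = (μ.prod ν) {p | p.1 + p.2 ∈ D} := by
    intro D hD
    rw [Measure.conv, Measure.map_apply (by fun_prop) hD]
    rfl
  -- choose a minimal pair
  let Pos : E → Submodule ℝ E → E → Submodule ℝ E → Prop := fun a V c W =>
    (μ.prod ν) (T ∩ (aff a V ×ˢ aff c W)) ≠ 0
  have hex : ∃ n : ℕ, ∃ a V c W, Pos a V c W ∧ finrank ℝ V + finrank ℝ W = n := by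
    refine ⟨_, 0, ⊤, 0, ⊤, ?_, rfl⟩
    have : T ∩ (aff (0 : E) ⊤ ×ˢ aff (0 : E) ⊤) = T := by
      ext p; simp [aff]
    simp only [Pos]
    rw [this, hTdef, ← hconv B hB]
    exact hpos
  obtain ⟨a, V, c, W, hP, hn⟩ := Nat.find_spec hex
  have hmin : ∀ a' V' c' W', Pos a' V' c' W' →
      finrank ℝ V + finrank ℝ W ≤ finrank ℝ V' + finrank ℝ W' := by
    intro a' V' c' W' h'
    rw [hn]
    exact Nat.find_min' hex ⟨a', V', c', W', h', rfl⟩
  set μ' := μ.restrict (aff a V) with hμ'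
  set ν' := ν.restrict (aff c W) with hν'
  have hprod : μ'.prod ν' = (μ.prod ν).restrict (aff a V ×ˢ aff c W) := by
    rw [hμ', hν', Measure.prod_restrict]
  have hP' : (μ'.prod ν') T ≠ 0 := by
    rw [hprod, Measure.restrict_apply hT]
    exact hP
  have hμa : ∀ᵐ x ∂μ', x ∈ aff a V := ae_restrict_mem (measurableSet_aff a V)
  have hνc : ∀ᵐ y ∂ν', y ∈ aff c W := ae_restrict_mem (measurableSet_aff c W)
  -- minimality in the first variable
  have M1 : ∀ (a' : E) (V' : Submodule ℝ E), V' < V →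
      ∀ᵐ x ∂μ', ∀ᵐ y ∂ν', ¬ ((x, y) ∈ T ∧ x ∈ aff a' V') := by
    intro a' V' hV'
    have hlt := Submodule.finrank_lt_finrank_of_lt hV'
    have h0 : (μ.prod ν) (T ∩ (aff a' V' ×ˢ aff c W)) = 0 := by
      by_contra hne
      have := hmin a' V' c W hne
      omega
    have h1 : (μ'.prod ν') (T ∩ (aff a' V' ×ˢ univ)) = 0 := by
      rw [hprod, Measure.restrict_apply (hT.inter ((measurableSet_aff _ _).prod
        MeasurableSet.univ))]
      refine measure_mono_null ?_ h0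
      rintro ⟨x, y⟩ ⟨⟨h1, h2⟩, h3⟩
      exact ⟨h1, h2.1, h3.2⟩
    rw [Measure.measure_prod_null (hT.inter ((measurableSet_aff _ _).prod
      MeasurableSet.univ))] at h1
    filter_upwards [h1] with x hx
    rw [ae_iff]
    simp only [not_not]
    refine measure_mono_null ?_ hx
    rintro y ⟨h1, h2⟩
    exact ⟨h1, h2, mem_univ _⟩
  have M2 : ∀ (c' : E) (W' : Submodule ℝ E), W' < W →
      ∀ᵐ y ∂ν', y ∈ aff c' W' → μ' {x | (x, y) ∈ T} = 0 := by
    intro c' W' hW'
    have hlt := Submodule.finrank_lt_finrank_of_lt hW'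
    have h0 : (μ.prod ν) (T ∩ (aff a V ×ˢ aff c' W')) = 0 := by
      by_contra hne
      have := hmin a V c' W' hne
      omega
    have hms : MeasurableSet (T ∩ (univ ×ˢ aff c' W')) :=
      hT.inter (MeasurableSet.univ.prod (measurableSet_aff _ _))
    have h1 : (μ'.prod ν') (T ∩ (univ ×ˢ aff c' W')) = 0 := by
      rw [hprod, Measure.restrict_apply hms]
      refine measure_mono_null ?_ h0
      rintro ⟨x, y⟩ ⟨⟨h1, h2⟩, h3⟩
      exact ⟨h1, h3.1, h2.2⟩
    rw [Measure.measure_prod_null hms] at h1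
    have h2 : ∀ᵐ x ∂μ', ∀ᵐ y ∂ν', (x, y) ∉ T ∩ (univ ×ˢ aff c' W') := by
      filter_upwards [h1] with x hx
      rw [ae_iff]
      simp only [not_not]
      exact hx
    have h3 := (Measure.ae_ae_comm (μ := μ') (ν := ν')
      (p := fun x y => (x, y) ∉ T ∩ (univ ×ˢ aff c' W')) hms.compl).1 h2
    filter_upwards [h3] with y hy hyc
    rw [ae_iff] at hy
    simp only [not_not] at hy
    refine measure_mono_null ?_ hy
    intro x hx
    exact ⟨hx, mem_univ _, hyc⟩
  -- Step 1: orthogonality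
  have hVW : V ≤ Wᗮ := by
    by_contra hcon
    refine hP' (prod_null_of_ae hT ?_)
    filter_upwards [hμa] with x₁ hx₁
    have hV' : V ⊓ Wᗮ < V := lt_of_le_of_ne inf_le_left (fun h => hcon (inf_eq_left.1 h))
    filter_upwards [hμa, M1 x₁ (V ⊓ Wᗮ) hV'] with x₂ hx₂ hM
    have hδV : x₂ - x₁ ∈ V := by
      have : x₂ - x₁ = (x₂ - a) - (x₁ - a) := by abel
      rw [this]
      exact V.sub_mem hx₂ hx₁
    by_cases hδ : x₂ - x₁ ∈ Wᗮ
    · filter_upwards [hM] with y hy hc
      exact hy ⟨hc.2.1, ⟨hδV, hδ⟩⟩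
    · -- a proper affine subspace of the second one
      set δ := x₂ - x₁ with hδdef
      have hδ' : ∃ w ∈ W, ⟪w, δ⟫ ≠ 0 := by
        rw [Submodule.mem_orthogonal] at hδ
        push Not at hδ
        exact hδ
      obtain ⟨w, hw, hwδ⟩ := hδ'
      have hW' : W ⊓ (ℝ ∙ δ)ᗮ < W := by
        refine lt_of_le_of_ne inf_le_left (fun h => ?_)
        have h1 : w ∈ (ℝ ∙ δ)ᗮ := (inf_eq_left.1 h) hw
        rw [Submodule.mem_orthogonal_singleton_iff_inner_left] at h1
        exact hwδ h1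
      by_cases hy0 : ∃ y₀ ∈ aff c W, (x₁, y₀) ∈ T ∧ (x₂, y₀) ∈ T
      · obtain ⟨y₀, hy₀c, hy₀1, hy₀2⟩ := hy0
        filter_upwards [hνc, M2 y₀ _ hW'] with y hyc hy hcc
        refine hcc.2.2 (hy ⟨?_, ?_⟩)
        · have : y - y₀ = (y - c) - (y₀ - c) := by abel
          rw [this]
          exact W.sub_mem hyc hy₀c
        · rw [SetLike.mem_coe, Submodule.mem_orthogonal_singleton_iff_inner_left]
          have k1 : ‖x₁ + y‖ ^ 2 = 1 := by rw [hBS _ hcc.1, one_pow]
          have k2 : ‖x₂ + y‖ ^ 2 = 1 := by rw [hBS _ hcc.2.1, one_pow]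
          have k3 : ‖x₁ + y₀‖ ^ 2 = 1 := by rw [hBS _ hy₀1, one_pow]
          have k4 : ‖x₂ + y₀‖ ^ 2 = 1 := by rw [hBS _ hy₀2, one_pow]
          rw [norm_add_sq_real] at k1 k2 k3 k4
          rw [hδdef, inner_sub_left, inner_sub_right, inner_sub_right, real_inner_comm x₂ y,
            real_inner_comm x₁ y, real_inner_comm x₂ y₀, real_inner_comm x₁ y₀]
          linarith
      · push Not at hy0
        filter_upwards [hνc] with y hyc hcc
        exact hy0 y hyc hcc.1 hcc.2.1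
  have hWV : W ≤ Vᗮ := by
    intro w hw
    rw [Submodule.mem_orthogonal]
    intro v hv
    have := (Submodule.mem_orthogonal _ _).1 (hVW hv) w hw
    rw [real_inner_comm]; exact this
  -- Step 2: projections
  have hα : ∀ x ∈ aff a V, ∀ y ∈ aff c W,
      V.starProjection (x + y) = V.starProjection (x + c) := by
    intro x _ y hy
    have h1 : V.starProjection (y - c) = 0 := by
      rw [Submodule.starProjection_apply_eq_zero_iff]
      exact hWV hy
    rw [map_add, map_add]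
    rw [map_sub, sub_eq_zero] at h1
    rw [h1]
  have hβ : ∀ x ∈ aff a V, ∀ y ∈ aff c W,
      Vᗮ.starProjection (x + y) = Vᗮ.starProjection (a + y) := by
    intro x hx y _
    have h1 : Vᗮ.starProjection (x - a) = 0 := by
      rw [Submodule.starProjection_apply_eq_zero_iff, Submodule.orthogonal_orthogonal]
      exact hx
    rw [map_add, map_add]
    rw [map_sub, sub_eq_zero] at h1
    rw [h1]
  have hsum : ∀ x ∈ aff a V, ∀ y ∈ aff c W, (x, y) ∈ T →
      ‖V.starProjection (x + c)‖ ^ 2 = 1 - ‖Vᗮ.starProjection (a + y)‖ ^ 2 := by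
    intro x hx y hy hxy
    have h1 := Submodule.norm_sq_eq_add_norm_sq_starProjection (x + y) V
    rw [hα x hx y hy, hβ x hx y hy, hBS _ hxy] at h1
    linarith
  obtain ⟨s, hs⟩ : ∃ s : ℝ,
      (μ'.prod ν') (T ∩ {p | ‖V.starProjection (p.1 + c)‖ ^ 2 = s}) ≠ 0 := by
    by_contra hcon
    push Not at hcon
    refine hP' (prod_null_of_ae hT ?_)
    filter_upwards [hμa] with x₁ hx₁
    have hms : MeasurableSet (T ∩ {p : E × E |
        ‖V.starProjection (p.1 + c)‖ ^ 2 = ‖V.starProjection (x₁ + c)‖ ^ 2}) :=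
      hT.inter (measurableSet_eq_fun (by fun_prop) measurable_const)
    have h1 := hcon (‖V.starProjection (x₁ + c)‖ ^ 2)
    rw [Measure.measure_prod_null hms] at h1
    filter_upwards [hμa, h1] with x₂ hx₂ h2
    have h3 : ∀ᵐ y ∂ν', (x₂, y) ∉ T ∩ {p : E × E |
        ‖V.starProjection (p.1 + c)‖ ^ 2 = ‖V.starProjection (x₁ + c)‖ ^ 2} := by
      rw [ae_iff]
      simp only [not_not]
      exact h2
    filter_upwards [hνc, h3] with y hy h4 hcc
    refine h4 ⟨hcc.2.1, ?_⟩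
    simp only [mem_ofPred_eq]
    rw [hsum x₁ hx₁ y hy hcc.1, hsum x₂ hx₂ y hy hcc.2.1]
  have hVbot : V ≠ ⊥ := by
    rintro rfl
    apply hP
    refine measure_mono_null (t := {a} ×ˢ univ) ?_ ?_
    · rintro ⟨x, y⟩ ⟨-, h2⟩
      refine ⟨?_, mem_univ _⟩
      have : x - a ∈ (⊥ : Submodule ℝ E) := h2.1
      rw [Submodule.mem_bot, sub_eq_zero] at this
      exact this
    · rw [Measure.prod_prod, measure_singleton, zero_mul]
  have hWbot : W ≠ ⊥ := by
    rintro rfl
    apply hP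
    refine measure_mono_null (t := univ ×ˢ {c}) ?_ ?_
    · rintro ⟨x, y⟩ ⟨-, h2⟩
      refine ⟨mem_univ _, ?_⟩
      have : y - c ∈ (⊥ : Submodule ℝ E) := h2.2
      rw [Submodule.mem_bot, sub_eq_zero] at this
      exact this
    · rw [Measure.prod_prod, measure_singleton, mul_zero]
  refine ⟨V, s, hVbot, ?_, ?_⟩
  · rintro rfl
    rw [Submodule.top_orthogonal_eq_bot] at hWV
    exact hWbot (le_bot_iff.1 hWV)
  · have hmD : MeasurableSet (B ∩ {y | ‖V.starProjection y‖ ^ 2 = s}) :=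
      hB.inter (measurableSet_eq_fun (by fun_prop) measurable_const)
    rw [hconv _ hmD]
    intro h0
    apply hs
    rw [hprod, Measure.restrict_apply (hT.inter (measurableSet_eq_fun (by fun_prop)
      measurable_const))]
    refine measure_mono_null ?_ h0
    rintro ⟨x, y⟩ ⟨⟨h1, h2⟩, h3, h4⟩
    refine ⟨h1, ?_⟩
    simp only [mem_ofPred_eq] at h2 ⊢
    rw [hα x h3 y h4]
    exact h2

end Pool.Agent.Lib_helper70.Berry
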