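import Pool.Agent.Lib_helper70.Berry.Quadric
import Pool.Agent.Lib_helper70.Berry.UnifSphere

/-!
# Convolutions of atomless measures are singular to the surface measure of the sphere
-/

set_option linter.unusedSectionVars false

open MeasureTheory Set Module
open scoped ENNReal RealInnerProductSpace Pointwise

namespace Pool.Agent.Lib_helper70.Berry

lemma finite_quadratic {a b c : ℝ} (ha : a ≠ 0) : {t : ℝ | a * t ^ 2 + b * t + c = 0}.Finite := by
  set p : Polynomial ℝ := Polynomial.C a * Polynomial.X ^ 2 + Polynomial.C b * Polynomial.X +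
    Polynomial.C c with hp
  have hp0 : p ≠ 0 := by
    intro h
    have := congrArg (fun q : Polynomial ℝ => q.coeff 2) h
    simp [hp, Polynomial.coeff_X, Polynomial.coeff_C] at this
    exact ha this
  refine (Polynomial.finite_setOfPred_isRoot hp0).subset fun t ht => ?_
  simp only [mem_ofPred_eq, Polynomial.IsRoot.def, hp, Polynomial.eval_add, Polynomial.eval_mul,
    Polynomial.eval_C, Polynomial.eval_pow, Polynomial.eval_X] at ht ⊢
  exact ht

variable {E : Type*} [NormedAddCommGroup E] [InnerProductSpace ℝ E] [FiniteDimensional ℝ E]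
  [MeasurableSpace E] [BorelSpace E]

lemma volume_quadric_null (V : Submodule ℝ E) (hb : V ≠ ⊥) (ht : V ≠ ⊤) (s : ℝ) :
    (volume : Measure E) {z | ‖V.starProjection z‖ ^ 2 = s * ‖z‖ ^ 2} = 0 := by
  have hms : MeasurableSet {z : E | ‖V.starProjection z‖ ^ 2 = s * ‖z‖ ^ 2} :=
    measurableSet_eq_fun (by fun_prop) (by fun_prop)
  -- a direction in which the quadratic form does not vanish
  obtain ⟨e, he⟩ : ∃ e : E, ‖V.starProjection e‖ ^ 2 - s * ‖e‖ ^ 2 ≠ 0 := by
    by_cases hs : s = 1
    · have hVo : Vᗮ ≠ ⊥ := by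
        intro h
        exact ht ((Submodule.orthogonal_eq_bot_iff).1 h)
      obtain ⟨f, hf, hf0⟩ := Submodule.exists_mem_ne_zero_of_ne_bot hVo
      refine ⟨f, ?_⟩
      rw [(Submodule.starProjection_apply_eq_zero_iff V).2 hf, hs]
      have : 0 < ‖f‖ := norm_pos_iff.2 hf0
      have : 0 < ‖f‖ ^ 2 := by positivity
      rw [norm_zero]
      intro h
      linarith
    · obtain ⟨f, hf, hf0⟩ := Submodule.exists_mem_ne_zero_of_ne_bot hb
      refine ⟨f, ?_⟩
      rw [Submodule.starProjection_eq_self_iff.2 hf]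
      have h1 : 0 < ‖f‖ := norm_pos_iff.2 hf0
      have h2 : ‖f‖ ^ 2 ≠ 0 := by positivity
      intro h
      have : (1 - s) * ‖f‖ ^ 2 = 0 := by linarith
      rcases mul_eq_zero.1 this with h3 | h3
      · exact hs (by linarith)
      · exact h2 h3
  have key : ∀ᵐ z ∂(volume : Measure E), z ∈ {z : E | ‖V.starProjection z‖ ^ 2 = s * ‖z‖ ^ 2}ᶜ := by
    refine ae_mem_of_ae_add_linearMap_mem (𝕜 := ℝ) (E := ℝ)
      (LinearMap.toSpanSingleton ℝ E e) (volume : Measure ℝ) (volume : Measure E) hms.compl
      fun y => ?_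
    have hfin : {t : ℝ | y + LinearMap.toSpanSingleton ℝ E e t ∈
        {z : E | ‖V.starProjection z‖ ^ 2 = s * ‖z‖ ^ 2}}.Finite := by
      refine (finite_quadratic (a := ‖V.starProjection e‖ ^ 2 - s * ‖e‖ ^ 2)
        (b := 2 * ⟪V.starProjection y, V.starProjection e⟫ - s * (2 * ⟪y, e⟫))
        (c := ‖V.starProjection y‖ ^ 2 - s * ‖y‖ ^ 2) he).subset fun t htt => ?_
      simp only [mem_ofPred_eq, LinearMap.toSpanSingleton_apply, map_add, map_smul] at htt ⊢
      rw [norm_add_sq_real, norm_add_sq_real, norm_smul, norm_smul, inner_smul_right,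
        inner_smul_right, mul_pow, mul_pow, Real.norm_eq_abs, sq_abs] at htt
      linarith
    have := hfin.measure_zero (volume : Measure ℝ)
    rw [ae_iff]
    simpa only [mem_compl_iff, not_not] using this
  rw [ae_iff] at key
  refine measure_mono_null (fun z hz => ?_) key
  simpa only [mem_ofPred_eq, mem_compl_iff, not_not] using hz

lemma sphere_quadric_null (V : Submodule ℝ E) (hb : V ≠ ⊥) (ht : V ≠ ⊤) (s : ℝ) :
    ((volume : Measure E).toSphere.map (Subtype.val : Metric.sphere (0 : E) 1 → E))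
      {z | ‖V.starProjection z‖ ^ 2 = s} = 0 := by
  have hms : MeasurableSet {z : E | ‖V.starProjection z‖ ^ 2 = s} :=
    measurableSet_eq_fun (by fun_prop) measurable_const
  rw [Measure.map_apply measurable_subtype_coe hms,
    Measure.toSphere_apply' _ (measurable_subtype_coe hms)]
  have : (volume : Measure E) (Ioo (0 : ℝ) 1 • ((↑) '' ((Subtype.val : Metric.sphere (0 : E) 1 → E)
      ⁻¹' {z | ‖V.starProjection z‖ ^ 2 = s}))) = 0 := by
    refine measure_mono_null ?_ (volume_quadric_null V hb ht s)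
    rintro z ⟨r, -, _, ⟨w, hw, rfl⟩, rfl⟩
    have hw1 : ‖(w : E)‖ = 1 := mem_sphere_zero_iff_norm.1 w.2
    have hw2 : ‖V.starProjection (w : E)‖ ^ 2 = s := hw
    simp only [mem_ofPred_eq]
    change ‖V.starProjection (r • (w : E))‖ ^ 2 = s * ‖r • (w : E)‖ ^ 2
    rw [map_smul, norm_smul, norm_smul, hw1, mul_pow, hw2]
    ring
  rw [this, mul_zero]

/-- a measure to which the convolution of two atomless finite measures is always singular -/
def Good (σ : Measure E) : Prop :=
  ∀ (μ ν : Measure E) [IsFiniteMeasure μ] [IsFiniteMeasure ν] [NullSingletonClass μ]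
    [NullSingletonClass ν], (Measure.conv μ ν) ⟂ₘ σ

lemma good_of_dim (hd : finrank ℝ E ≤ 3) {σ : Measure E} (hS : ∀ᵐ k ∂σ, ‖k‖ = 1) : Good σ := by
  intro μ ν _ _ _ _
  refine Measure.MutuallySingular.mk (s := {k | ‖k‖ = 1}) (t := {k | ‖k‖ = 1}ᶜ)
    (conv_sphere_eq_zero hd μ ν) ?_ (by rw [union_compl_self])
  rw [ae_iff] at hS
  exact hS

theorem good_of_quadric {σ : Measure E} [IsFiniteMeasure σ] (hS : ∀ᵐ k ∂σ, ‖k‖ = 1)
    (hQ : ∀ (V : Submodule ℝ E) (s : ℝ), V ≠ ⊥ → V ≠ ⊤ →
      σ {y | ‖V.starProjection y‖ ^ 2 = s} = 0) : Good σ := by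
  intro μ ν _ _ _ _
  set κ := Measure.conv μ ν with hκ
  have hms : κ.singularPart σ ⟂ₘ σ := Measure.mutuallySingular_singularPart κ σ
  obtain ⟨B₀, hB₀, h1, h2⟩ := hms
  have hS' : MeasurableSet {k : E | ‖k‖ = 1} :=
    measurableSet_eq_fun (by fun_prop) measurable_const
  set B := B₀ ∩ {k : E | ‖k‖ = 1} with hB
  have hBm : MeasurableSet B := hB₀.inter hS'
  have hσB : σ Bᶜ = 0 := by
    rw [hB, compl_inter]
    rw [ae_iff] at hS
    exact measure_union_null h2 hS
  have hκB : κ B = 0 := by
    by_contra hne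
    obtain ⟨V, s, hb, ht, hVs⟩ := exists_quadric hBm (fun y hy => hy.2) hne
    apply hVs
    rw [← hκ]
    have hQ0 : σ (B ∩ {y | ‖V.starProjection y‖ ^ 2 = s}) = 0 :=
      measure_mono_null inter_subset_right (hQ V s hb ht)
    rw [Measure.haveLebesgueDecomposition_add κ σ, Measure.add_apply]
    have e1 : κ.singularPart σ (B ∩ {y | ‖V.starProjection y‖ ^ 2 = s}) = 0 :=
      measure_mono_null (inter_subset_left.trans inter_subset_left) h1
    rw [e1, zero_add]
    exact (withDensity_absolutelyContinuous σ _) hQ0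
  exact Measure.MutuallySingular.mk hκB hσB (by rw [union_compl_self])

lemma charFun_smul_measure (c : ℝ≥0∞) (μ : Measure E) (x : E) :
    charFun (c • μ) x = c.toReal * charFun μ x := by
  rw [charFun_apply, charFun_apply, integral_smul_measure, Complex.real_smul]

theorem good_of_isotropic {μ : Measure E} [IsFiniteMeasure μ] (hS : ∀ᵐ k ∂μ, ‖k‖ = 1)
    (hinv : ∀ (R : E ≃ₗᵢ[ℝ] E) (x : E), charFun μ (R x) = charFun μ x) : Good μ := by
  rcases subsingleton_or_nontrivial E with hE | hE
  · refine good_of_dim ?_ hS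
    rw [Module.finrank_zero_of_subsingleton]
    norm_num
  refine good_of_quadric hS fun V s hb ht => ?_
  set σ := (volume : Measure E).toSphere with hσ
  set σ' := σ.map (Subtype.val : Metric.sphere (0 : E) 1 → E) with hσ'
  have hσf : IsFiniteMeasure σ' := Measure.isFiniteMeasure_map _ _
  have hc : ∀ x, charFun σ' x = sphFT x := by
    intro x
    rw [charFun_apply, hσ', integral_map measurable_subtype_coe.aemeasurable
      (by fun_prop : Continuous fun w : E => Complex.exp ((⟪w, x⟫ : ℝ) *
        Complex.I)).aestronglyMeasurable]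
    unfold sphFT
    refine integral_congr_ae (Filter.Eventually.of_forall fun w => ?_)
    simp only
    rw [real_inner_comm]
  have hfin1 : IsFiniteMeasure (σ univ • μ) := by
    constructor
    rw [Measure.smul_apply, smul_eq_mul]
    exact ENNReal.mul_lt_top (measure_lt_top _ _) (measure_lt_top _ _)
  have hfin2 : IsFiniteMeasure (μ univ • σ') := by
    constructor
    rw [Measure.smul_apply, smul_eq_mul]
    exact ENNReal.mul_lt_top (measure_lt_top _ _) (measure_lt_top _ _)
  have heq : σ univ • μ = μ univ • σ' := by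
    refine Measure.ext_of_charFun ?_
    funext x
    rw [charFun_smul_measure, charFun_smul_measure, hc, charFun_of_invariant hS hinv,
      sphFT_eq_waveK]
    simp only [← measureReal_def]
    push_cast
    ring
  have h0 : (σ univ • μ) {y | ‖V.starProjection y‖ ^ 2 = s} = 0 := by
    rw [heq, Measure.smul_apply, sphere_quadric_null V hb ht s, smul_zero]
  rw [Measure.smul_apply, smul_eq_mul] at h0
  rcases mul_eq_zero.1 h0 with h | h
  · exfalso
    rw [Measure.measure_univ_eq_zero] at h
    exact Measure.toSphere_ne_zero _ h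
  · exact h

end Pool.Agent.Lib_helper70.Berry
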