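import Mathlib

/-!
# Atomless measures and the unit-distance graph in dimension at most three
-/

open MeasureTheory Set Module
open scoped ENNReal RealInnerProductSpace

namespace Pool.Agent.Lib_helper70.Berry

variable {E : Type*} [NormedAddCommGroup E] [InnerProductSpace ℝ E]

/-- three distinct points at distance one from a fourth one are not collinear -/
lemma linInd_of_dist {x1 x2 x3 k : E} (h12 : x1 ≠ x2) (h13 : x1 ≠ x3) (h23 : x2 ≠ x3)
    (h1 : ‖x1 + k‖ = 1) (h2 : ‖x2 + k‖ = 1) (h3 : ‖x3 + k‖ = 1) :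
    LinearIndependent ℝ ![x2 - x1, x3 - x1] := by
  have ha : x2 - x1 ≠ 0 := sub_ne_zero.2 (Ne.symm h12)
  rw [LinearIndependent.pair_iff' ha]
  intro t ht
  set a := x2 - x1 with hadef
  set y := x1 + k with hy
  have e2 : x2 + k = y + a := by rw [hy, hadef]; abel
  have e3 : x3 + k = y + t • a := by rw [ht, hy]; abel
  rw [e2] at h2
  rw [e3] at h3
  have q2 : ‖y + a‖ ^ 2 = ‖y‖ ^ 2 + 2 * ⟪y, a⟫ + ‖a‖ ^ 2 := norm_add_sq_real y a
  have q3 : ‖y + t • a‖ ^ 2 = ‖y‖ ^ 2 + 2 * ⟪y, t • a⟫ + ‖t • a‖ ^ 2 := norm_add_sq_real y _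
  rw [h2, h1] at q2
  rw [h3, h1, inner_smul_right, norm_smul, mul_pow, Real.norm_eq_abs, sq_abs] at q3
  have hA : 0 < ‖a‖ ^ 2 := by positivity
  have hy2 : 2 * ⟪y, a⟫ = -‖a‖ ^ 2 := by linarith
  have : t * (t - 1) * ‖a‖ ^ 2 = 0 := by
    have e : t * (t - 1) * ‖a‖ ^ 2 = t * (-‖a‖ ^ 2) + t ^ 2 * ‖a‖ ^ 2 := by ring
    rw [e, ← hy2]
    linarith
  rcases mul_eq_zero.1 this with h | h
  · rcases mul_eq_zero.1 h with h | h
    · rw [h, zero_smul] at ht
      exact h13 (sub_eq_zero.1 ht.symm).symm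
    · have : t = 1 := by linarith
      rw [this, one_smul, hadef] at ht
      exact h23 (sub_left_injective ht)
  · exact absurd h hA.ne'

/-- In dimension at most three the unit-distance graph contains no `K_{3,3}`. -/
lemma no_K33 [FiniteDimensional ℝ E] (hd : finrank ℝ E ≤ 3) {x1 x2 x3 k1 k2 k3 : E}
    (hx12 : x1 ≠ x2) (hx13 : x1 ≠ x3) (hx23 : x2 ≠ x3)
    (hk12 : k1 ≠ k2) (hk13 : k1 ≠ k3) (hk23 : k2 ≠ k3)
    (h11 : ‖x1 + k1‖ = 1) (h12 : ‖x1 + k2‖ = 1) (h13 : ‖x1 + k3‖ = 1)
    (h21 : ‖x2 + k1‖ = 1) (h22 : ‖x2 + k2‖ = 1) (h23 : ‖x2 + k3‖ = 1)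
    (h31 : ‖x3 + k1‖ = 1) (h32 : ‖x3 + k2‖ = 1) (h33 : ‖x3 + k3‖ = 1) : False := by
  have hV := linInd_of_dist hx12 hx13 hx23 h11 h21 h31
  have hW := linInd_of_dist (x1 := k1) (x2 := k2) (x3 := k3) (k := x1) hk12 hk13 hk23
    (by rwa [add_comm]) (by rwa [add_comm]) (by rwa [add_comm])
  have key : ∀ x k : E, ‖x + k‖ = 1 → ‖x + k1‖ = 1 → ‖x1 + k‖ = 1 →
      ⟪x - x1, k - k1⟫ = 0 := by
    intro x k h1 h2 h3
    have e1 := norm_add_sq_real x k
    have e2 := norm_add_sq_real x k1
    have e3 := norm_add_sq_real x1 k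
    have e4 := norm_add_sq_real x1 k1
    rw [h1] at e1
    rw [h2] at e2
    rw [h3] at e3
    rw [h11] at e4
    rw [inner_sub_left, inner_sub_right, inner_sub_right]
    linarith
  have o22 := key x2 k2 h22 h21 h12
  have o23 := key x2 k3 h23 h21 h13
  have o32 := key x3 k2 h32 h31 h12
  have o33 := key x3 k3 h33 h31 h13
  set V := Submodule.span ℝ (Set.range ![x2 - x1, x3 - x1]) with hVd
  set W := Submodule.span ℝ (Set.range ![k2 - k1, k3 - k1]) with hWd
  have fV : finrank ℝ V = 2 := by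
    rw [hVd, finrank_span_eq_card hV, Fintype.card_fin]
  have fW : finrank ℝ W = 2 := by
    rw [hWd, finrank_span_eq_card hW, Fintype.card_fin]
  have hVW : V ⟂ W := by
    rw [hVd, hWd, Submodule.isOrtho_span]
    rintro u ⟨i, rfl⟩ v ⟨j, rfl⟩
    fin_cases i <;> fin_cases j <;> simp [o22, o23, o32, o33]
  have := Submodule.finrank_add_finrank_le_of_disjoint hVW.disjoint
  omega

variable [FiniteDimensional ℝ E] [MeasurableSpace E] [BorelSpace E]

lemma triple_null (hd : finrank ℝ E ≤ 3) (ν : Measure E) [NullSingletonClass ν] {k1 k2 k3 : E}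
    (hk12 : k1 ≠ k2) (hk13 : k1 ≠ k3) (hk23 : k2 ≠ k3) :
    ν {x | ‖x + k1‖ = 1 ∧ ‖x + k2‖ = 1 ∧ ‖x + k3‖ = 1} = 0 := by
  classical
  apply Set.Finite.measure_zero
  by_contra hinf
  have hinf : ({x | ‖x + k1‖ = 1 ∧ ‖x + k2‖ = 1 ∧ ‖x + k3‖ = 1} : Set E).Infinite := hinf
  obtain ⟨t, hts, hcard⟩ := hinf.exists_subset_card_eq 3
  obtain ⟨x1, x2, x3, h12, h13, h23, rfl⟩ := Finset.card_eq_three.1 hcard
  have m1 := hts (by simp : x1 ∈ (({x1, x2, x3} : Finset E) : Set E))
  have m2 := hts (by simp : x2 ∈ (({x1, x2, x3} : Finset E) : Set E))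
  have m3 := hts (by simp : x3 ∈ (({x1, x2, x3} : Finset E) : Set E))
  exact no_K33 hd h12 h13 h23 hk12 hk13 hk23 m1.1 m1.2.1 m1.2.2 m2.1 m2.2.1 m2.2.2
    m3.1 m3.2.1 m3.2.2

/-- Two finite atomless measures in dimension at most three: almost no pair has a sum on the
unit sphere. -/
theorem lintegral_sphere_eq_zero (hd : finrank ℝ E ≤ 3) (μ ν : Measure E) [IsFiniteMeasure μ]
    [IsFiniteMeasure ν] [NullSingletonClass μ] [NullSingletonClass ν] :
    ∀ᵐ x ∂ν, μ {k | ‖x + k‖ = 1} = 0 := by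
  classical
  set f : E → E → ℝ≥0∞ := fun x k => ({p : E × E | ‖p.1 + p.2‖ = 1}.indicator 1 (x, k)) with hf
  have hS : MeasurableSet {p : E × E | ‖p.1 + p.2‖ = 1} :=
    measurableSet_eq_fun (by fun_prop) measurable_const
  have hfm : Measurable (Function.uncurry f) := by
    have : Function.uncurry f = {p : E × E | ‖p.1 + p.2‖ = 1}.indicator 1 := by
      ext ⟨x, k⟩; rfl
    rw [this]
    exact measurable_one.indicator hS
  have hfm1 : ∀ k, Measurable fun x => f x k := fun k => hfm.comp (measurable_id.prodMk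
    measurable_const)
  have hfm2 : ∀ x, Measurable fun k => f x k := fun x => hfm.comp (measurable_const.prodMk
    measurable_id)
  set g : E → ℝ≥0∞ := fun x => ∫⁻ k, f x k ∂μ with hg
  have hgm : Measurable g := hfm.lintegral_prod_right'
  have hgS : ∀ x, g x = μ {k | ‖x + k‖ = 1} := by
    intro x
    have : ∀ k, f x k = ({k | ‖x + k‖ = 1} : Set E).indicator 1 k := by
      intro k
      simp only [hf, Set.indicator, Set.mem_ofPred_eq]
      rfl
    simp only [hg, this]
    rw [lintegral_indicator_one]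
    exact measurableSet_eq_fun (by fun_prop) measurable_const
  have key : ∫⁻ x, g x * (g x * g x) ∂ν = 0 := by
    have e1 : ∫⁻ x, g x * (g x * g x) ∂ν = ∫⁻ x, ∫⁻ k1, f x k1 * (g x * g x) ∂μ ∂ν := by
      refine lintegral_congr fun x => ?_
      rw [lintegral_mul_const _ (hfm2 x)]
    rw [e1, lintegral_lintegral_swap]
    swap
    · exact (hfm.mul ((hgm.comp measurable_fst).mul (hgm.comp measurable_fst))).aemeasurable
    refine (lintegral_eq_zero_iff' ?_).2 ?_
    · refine AEMeasurable.lintegral_prod_right' (f := fun p : E × E => f p.2 p.1 * (g p.2 * g p.2))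
        ?_
      exact ((hfm.comp measurable_swap).mul ((hgm.comp measurable_snd).mul
        (hgm.comp measurable_snd))).aemeasurable
    refine Filter.Eventually.of_forall fun k1 => ?_
    simp only [Pi.zero_apply]
    have e2 : ∫⁻ x, f x k1 * (g x * g x) ∂ν =
        ∫⁻ x, ∫⁻ k2, f x k2 * (f x k1 * g x) ∂μ ∂ν := by
      refine lintegral_congr fun x => ?_
      rw [lintegral_mul_const _ (hfm2 x)]
      change f x k1 * (g x * g x) = g x * (f x k1 * g x)
      ring
    rw [e2, lintegral_lintegral_swap]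
    swap
    · exact (hfm.mul (((hfm1 k1).comp measurable_fst).mul (hgm.comp measurable_fst))).aemeasurable
    refine (lintegral_eq_zero_iff' ?_).2 ?_
    · refine AEMeasurable.lintegral_prod_right'
        (f := fun p : E × E => f p.2 p.1 * (f p.2 k1 * g p.2)) ?_
      exact ((hfm.comp measurable_swap).mul (((hfm1 k1).comp measurable_snd).mul
        (hgm.comp measurable_snd))).aemeasurable
    have a1 : ∀ᵐ k2 ∂μ, k2 ≠ k1 := by
      rw [ae_iff]; simp
    filter_upwards [a1] with k2 hk2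
    simp only [Pi.zero_apply]
    have e3 : ∫⁻ x, f x k2 * (f x k1 * g x) ∂ν =
        ∫⁻ x, ∫⁻ k3, f x k3 * (f x k2 * f x k1) ∂μ ∂ν := by
      refine lintegral_congr fun x => ?_
      rw [lintegral_mul_const _ (hfm2 x)]
      change f x k2 * (f x k1 * g x) = g x * (f x k2 * f x k1)
      ring
    rw [e3, lintegral_lintegral_swap]
    swap
    · exact (hfm.mul (((hfm1 k2).comp measurable_fst).mul
        ((hfm1 k1).comp measurable_fst))).aemeasurable
    refine (lintegral_eq_zero_iff' ?_).2 ?_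
    · refine AEMeasurable.lintegral_prod_right'
        (f := fun p : E × E => f p.2 p.1 * (f p.2 k2 * f p.2 k1)) ?_
      exact ((hfm.comp measurable_swap).mul (((hfm1 k2).comp measurable_snd).mul
        ((hfm1 k1).comp measurable_snd))).aemeasurable
    have a2 : ∀ᵐ k3 ∂μ, k3 ≠ k1 := by
      rw [ae_iff]; simp
    have a3 : ∀ᵐ k3 ∂μ, k3 ≠ k2 := by
      rw [ae_iff]; simp
    filter_upwards [a2, a3] with k3 h31 h32
    simp only [Pi.zero_apply]
    have e4 : ∀ x, f x k3 * (f x k2 * f x k1) =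
        ({x | ‖x + k1‖ = 1 ∧ ‖x + k2‖ = 1 ∧ ‖x + k3‖ = 1} : Set E).indicator 1 x := by
      intro x
      simp only [hf, Set.indicator, Set.mem_ofPred_eq, Pi.one_apply]
      by_cases h1 : ‖x + k1‖ = 1 <;> by_cases h2 : ‖x + k2‖ = 1 <;> by_cases h3 : ‖x + k3‖ = 1 <;>
        simp [h1, h2, h3]
    simp only [e4]
    rw [lintegral_indicator_one]
    · exact triple_null hd ν hk2.symm h31.symm h32.symm
    · exact (measurableSet_eq_fun (by fun_prop) measurable_const).inter
        ((measurableSet_eq_fun (by fun_prop) measurable_const).inter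
          (measurableSet_eq_fun (by fun_prop) measurable_const))
  have key2 := (lintegral_eq_zero_iff (hgm.mul (hgm.mul hgm))).1 key
  filter_upwards [key2] with x hx
  rw [← hgS]
  simpa using hx

/-- The convolution of two finite atomless measures in dimension at most three does not charge
the unit sphere. -/
theorem conv_sphere_eq_zero (hd : finrank ℝ E ≤ 3) (μ ν : Measure E) [IsFiniteMeasure μ]
    [IsFiniteMeasure ν] [NullSingletonClass μ] [NullSingletonClass ν] :
    (Measure.conv μ ν) {k : E | ‖k‖ = 1} = 0 := by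
  have hS : MeasurableSet {k : E | ‖k‖ = 1} := measurableSet_eq_fun (by fun_prop) measurable_const
  rw [Measure.conv, Measure.map_apply (by fun_prop) hS, Measure.prod_apply (hS.preimage
    (by fun_prop))]
  rw [lintegral_eq_zero_iff]
  · have := lintegral_sphere_eq_zero hd ν μ
    filter_upwards [this] with x hx
    simpa using hx
  · exact measurable_measure_prodMk_left (hS.preimage (by fun_prop))

lemma conv_noAtoms (μ ν : Measure E) [IsFiniteMeasure μ] [IsFiniteMeasure ν] [NullSingletonClass μ] :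
    NullSingletonClass (Measure.conv ν μ) := by
  constructor
  intro k
  rw [Measure.conv, Measure.map_apply (by fun_prop) (measurableSet_singleton k),
    Measure.prod_apply ((measurableSet_singleton k).preimage (by fun_prop))]
  rw [lintegral_eq_zero_iff]
  · refine Filter.Eventually.of_forall fun x => ?_
    simp only [Pi.zero_apply]
    have : Prod.mk x ⁻¹' ((fun p : E × E => p.1 + p.2) ⁻¹' {k}) = {k - x} := by
      ext y
      simp only [Set.mem_preimage, Set.mem_singleton_iff]
      constructor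
      · rintro h; rw [← h]; abel
      · rintro h; rw [h]; abel
    rw [this]
    simp
  · exact measurable_measure_prodMk_left ((measurableSet_singleton k).preimage (by fun_prop))

end Pool.Agent.Lib_helper70.Berry
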